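import Pool.Agent.H99.GB.Bas

/-! # GB.BC : extension of the base field `F / K` (100 lines)

`B := Algebra.TensorProduct.basis F P.e` is a basis of `F ⊗[K] R`, `B j = 1 ⊗ e_j`.  Put `deg x` = the largest `j` with `B.repr x j ≠ 0` (`0` for `x = 0`), `lc x` = this coefficient.
`e_i * e_j = e_(i+j) + lower` in `R` (`repr_deg` for the product, `deg_e`, `lc_e`), hence the same in `F ⊗ R`, and `deg_mul`, `lc_mul` follow by expanding the product.  The other axioms are clear. -/

namespace GB

open Module TensorProduct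

variable {K R : Type} [Field K] [CommRing R] [Algebra K R] (P : OnePt K R) (F : Type) [Field F] [Algebra K F]

private noncomputable abbrev bcB : Basis P.D F (F ⊗[K] R) := Algebra.TensorProduct.basis F P.e

private noncomputable def bcDeg (x : F ⊗[K] R) : ℕ := ((bcB P F).repr x).support.sup (fun j : P.D => (j : ℕ))

open Classical in
private noncomputable def bcLc (x : F ⊗[K] R) : F :=
  if h : bcDeg P F x ∈ P.D then (bcB P F).repr x ⟨bcDeg P F x, h⟩ else 0

private theorem bc_le (x : F ⊗[K] R) (m : ℕ) :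
    bcDeg P F x ≤ m ↔ ∀ j : P.D, m < j → (bcB P F).repr x j = 0 := by
  unfold bcDeg
  rw [Finset.sup_le_iff]
  constructor
  · intro h j hj
    by_contra hne
    exact absurd (h j (Finsupp.mem_support_iff.mpr hne)) (by omega)
  · intro h j hj
    by_contra hlt
    exact (Finsupp.mem_support_iff.mp hj) (h j (by omega))

private theorem bc_top {x : F ⊗[K] R} (hx : x ≠ 0) :
    ∃ j : P.D, bcDeg P F x = j ∧ bcLc P F x = (bcB P F).repr x j ∧ (bcB P F).repr x j ≠ 0 ∧
      ∀ i : P.D, (j : ℕ) < i → (bcB P F).repr x i = 0 := by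
  have hne : ((bcB P F).repr x).support.Nonempty := by
    rw [Finsupp.support_nonempty_iff]
    intro h
    exact hx ((bcB P F).repr.map_eq_zero_iff.mp h)
  obtain ⟨j, hj, hj2⟩ := Finset.exists_mem_eq_sup _ hne (fun j : P.D => (j : ℕ))
  have hd : bcDeg P F x = j := hj2
  refine ⟨j, hd, ?_, Finsupp.mem_support_iff.mp hj, ?_⟩
  · unfold bcLc
    have hm : bcDeg P F x ∈ P.D := by rw [hd]; exact j.2
    rw [dif_pos hm]
    congr 1
    exact Subtype.ext hd
  · intro i hi
    exact (bc_le P F x j).mp (le_of_eq hd) i hi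

private theorem bc_uniq {x : F ⊗[K] R} (j : P.D) (h1 : (bcB P F).repr x j ≠ 0)
    (h2 : ∀ i : P.D, (j : ℕ) < i → (bcB P F).repr x i = 0) :
    bcDeg P F x = j ∧ bcLc P F x = (bcB P F).repr x j := by
  have hx : x ≠ 0 := by
    rintro rfl
    simp at h1
  obtain ⟨i, hi1, hi2, hi3, hi4⟩ := bc_top P F hx
  have hij : i = j := by
    rcases lt_trichotomy (i : ℕ) j with h | h | h
    · exact absurd (hi4 j h) h1
    · exact Subtype.ext h
    · exact absurd (h2 i h) hi3
  subst hij
  exact ⟨hi1, hi2⟩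

private theorem bc_zero : bcDeg P F 0 = 0 ∧ bcLc P F 0 = 0 := by
  constructor
  · simp [bcDeg]
  · unfold bcLc
    split_ifs with h
    · simp
    · rfl

private theorem bc_tmul (f : R) (j : P.D) :
    (bcB P F).repr ((1 : F) ⊗ₜ[K] f) j = algebraMap K F (P.e.repr f j) := by
  rw [Algebra.TensorProduct.basis_repr_tmul]
  simp

private theorem bc_pure (f : R) :
    bcDeg P F (1 ⊗ₜ f) = P.deg f ∧ bcLc P F (1 ⊗ₜ f) = algebraMap K F (P.lc f) := by
  by_cases hf : f = 0
  · subst hf
    rw [TensorProduct.tmul_zero, P.deg_zero, P.lc_zero, map_zero]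
    exact bc_zero P F
  · obtain ⟨h1, h2⟩ := repr_deg P hf
    have h3 := bc_uniq P F (x := (1 : F) ⊗ₜ[K] f) ⟨P.deg f, mem_D P hf⟩ (by
      rw [bc_tmul, h1]
      exact (map_ne_zero _).mpr (P.lc_ne hf)) (by
      intro i hi
      rw [bc_tmul, h2 i hi, map_zero])
    rw [bc_tmul, h1] at h3
    exact h3

private theorem bc_expand (x y : F ⊗[K] R) (k : P.D) :
    (bcB P F).repr (x * y) k = ∑ i ∈ ((bcB P F).repr x).support, ∑ j ∈ ((bcB P F).repr y).support,
      (bcB P F).repr x i * (bcB P F).repr y j *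
        algebraMap K F (P.e.repr (P.e i * P.e j) k) := by
  have hx : x = ∑ i ∈ ((bcB P F).repr x).support, (bcB P F).repr x i • bcB P F i := by
    conv_lhs => rw [← (bcB P F).linearCombination_repr x]
    rw [Finsupp.linearCombination_apply, Finsupp.sum]
  have hy : y = ∑ j ∈ ((bcB P F).repr y).support, (bcB P F).repr y j • bcB P F j := by
    conv_lhs => rw [← (bcB P F).linearCombination_repr y]
    rw [Finsupp.linearCombination_apply, Finsupp.sum]
  have hxy : x * y = ∑ i ∈ ((bcB P F).repr x).support, ∑ j ∈ ((bcB P F).repr y).support,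
      ((bcB P F).repr x i * (bcB P F).repr y j) • ((1 : F) ⊗ₜ[K] (P.e i * P.e j)) := by
    conv_lhs => rw [hx, hy]
    rw [Finset.sum_mul_sum]
    refine Finset.sum_congr rfl (fun i _ => Finset.sum_congr rfl (fun j _ => ?_))
    rw [smul_mul_smul_comm]
    congr 1
    simp only [bcB, Algebra.TensorProduct.basis_apply, Algebra.TensorProduct.tmul_mul_tmul,
      mul_one]
  rw [hxy]
  simp only [map_sum, map_smul, Finsupp.coe_finsetSum, Finset.sum_apply, Finsupp.smul_apply,
    smul_eq_mul, bc_tmul]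

private theorem bc_mul {x y : F ⊗[K] R} (hx : x ≠ 0) (hy : y ≠ 0) :
    bcDeg P F (x * y) = bcDeg P F x + bcDeg P F y ∧
      bcLc P F (x * y) = bcLc P F x * bcLc P F y ∧ bcLc P F x * bcLc P F y ≠ 0 := by
  obtain ⟨a, ha1, ha2, ha3, ha4⟩ := bc_top P F hx
  obtain ⟨b, hb1, hb2, hb3, hb4⟩ := bc_top P F hy
  have he : ∀ i j : P.D, P.e i * P.e j ≠ 0 ∧ P.deg (P.e i * P.e j) = (i : ℕ) + j ∧
      P.lc (P.e i * P.e j) = 1 := by
    intro i j
    have h1 : P.lc (P.e i * P.e j) = 1 := by
      rw [P.lc_mul, lc_e, lc_e, mul_one]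
    have h2 : ∀ i : P.D, P.e i ≠ 0 := by
      intro i h
      have h3 := lc_e P i
      rw [h, P.lc_zero] at h3
      exact zero_ne_one h3
    refine ⟨?_, ?_, h1⟩
    · intro h
      rw [h, P.lc_zero] at h1
      exact zero_ne_one h1
    · rw [P.deg_mul (h2 i) (h2 j), deg_e, deg_e]
  have hle : ∀ i ∈ ((bcB P F).repr x).support, (i : ℕ) ≤ a := by
    intro i hi
    by_contra h
    exact (Finsupp.mem_support_iff.mp hi) (ha4 i (by omega))
  have hle2 : ∀ j ∈ ((bcB P F).repr y).support, (j : ℕ) ≤ b := by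
    intro j hj
    by_contra h
    exact (Finsupp.mem_support_iff.mp hj) (hb4 j (by omega))
  have hs : (a : ℕ) + b ∈ P.D := D_add P a.2 b.2
  have htop : (bcB P F).repr (x * y) ⟨(a : ℕ) + b, hs⟩ =
      (bcB P F).repr x a * (bcB P F).repr y b := by
    rw [bc_expand, Finset.sum_eq_single a, Finset.sum_eq_single b]
    · have h1 := (repr_deg P (he a b).1).1
      have h2 : (⟨P.deg (P.e a * P.e b), mem_D P (he a b).1⟩ : P.D) = ⟨(a : ℕ) + b, hs⟩ :=
        Subtype.ext (he a b).2.1
      rw [h2, (he a b).2.2] at h1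
      rw [h1, map_one, mul_one]
    · intro j hj hjb
      have h1 := hle2 j hj
      have h2 : (j : ℕ) ≠ b := fun h => hjb (Subtype.ext h)
      rw [(repr_deg P (he a j).1).2 ⟨(a : ℕ) + b, hs⟩ (by
        rw [(he a j).2.1]
        change (a : ℕ) + j < (a : ℕ) + b
        omega), map_zero, mul_zero]
    · intro h
      exact absurd (Finsupp.mem_support_iff.mpr hb3) h
    · intro i hi hia
      refine Finset.sum_eq_zero (fun j hj => ?_)
      have h1 := hle i hi
      have h3 := hle2 j hj
      have h2 : (i : ℕ) ≠ a := fun h => hia (Subtype.ext h)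
      rw [(repr_deg P (he i j).1).2 ⟨(a : ℕ) + b, hs⟩ (by
        rw [(he i j).2.1]
        change (i : ℕ) + j < (a : ℕ) + b
        omega), map_zero, mul_zero]
    · intro h
      exact absurd (Finsupp.mem_support_iff.mpr ha3) h
  have hab : (bcB P F).repr x a * (bcB P F).repr y b ≠ 0 := mul_ne_zero ha3 hb3
  have h := bc_uniq P F (x := x * y) ⟨(a : ℕ) + b, hs⟩ (by rw [htop]; exact hab) (by
    intro k hk
    rw [bc_expand]
    refine Finset.sum_eq_zero (fun i hi => Finset.sum_eq_zero (fun j hj => ?_))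
    have h1 := hle i hi
    have h3 := hle2 j hj
    change (a : ℕ) + b < k at hk
    rw [(repr_deg P (he i j).1).2 k (by rw [(he i j).2.1]; omega), map_zero, mul_zero])
  rw [htop] at h
  rw [ha1, hb1, ha2, hb2]
  exact ⟨h.1, h.2, hab⟩

theorem exists_bc : ∃ Q : OnePt F (F ⊗[K] R), Q.D = P.D ∧
    (∀ f : R, Q.deg (1 ⊗ₜ f) = P.deg f ∧ Q.lc (1 ⊗ₜ f) = algebraMap K F (P.lc f)) ∧
    (∀ (m : ℕ) (x : F ⊗[K] R), Q.Lt m x ↔ ∀ j : P.D, m ≤ j → (Algebra.TensorProduct.basis F P.e).repr x j = 0) ∧
    (∀ (x : F ⊗[K] R) (j : P.D), x ≠ 0 → Q.deg x = j → (Algebra.TensorProduct.basis F P.e).repr x j = Q.lc x) := by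
  have lcne : ∀ {x : F ⊗[K] R}, x ≠ 0 → bcLc P F x ≠ 0 := by
    intro x hx
    obtain ⟨j, _, h2, h3, _⟩ := bc_top P F hx
    rw [h2]
    exact h3
  have hne : ∀ {f : R}, f ≠ 0 → ((1 : F) ⊗ₜ[K] f) ≠ 0 := by
    intro f hf h
    have h1 := (bc_pure P F f).2
    rw [h, (bc_zero P F).2] at h1
    exact (map_ne_zero (algebraMap K F)).mpr (P.lc_ne hf) h1.symm
  have hconst : ∀ c : F, bcDeg P F (algebraMap F (F ⊗[K] R) c) = 0 ∧
      bcLc P F (algebraMap F (F ⊗[K] R) c) = c := by
    intro c
    by_cases hc : c = 0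
    · subst hc
      rw [map_zero]
      exact bc_zero P F
    · have h1 : algebraMap F (F ⊗[K] R) c = c • ((1 : F) ⊗ₜ[K] (1 : R)) := by
        rw [Algebra.algebraMap_eq_smul_one]
        rfl
      have hone : (1 : R) ≠ 0 := by
        have := nontrivial P
        exact one_ne_zero
      obtain ⟨j, hj1, hj2, hj3, hj4⟩ := bc_top P F (hne hone)
      have hj5 := bc_pure P F (1 : R)
      rw [deg_one, lc_one, map_one] at hj5
      rw [hj5.1] at hj1
      rw [hj5.2] at hj2
      have h2 := bc_uniq P F (x := c • ((1 : F) ⊗ₜ[K] (1 : R))) j (by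
        rw [map_smul, Finsupp.smul_apply, smul_eq_mul]
        exact mul_ne_zero hc hj3) (by
        intro i hi
        rw [map_smul, Finsupp.smul_apply, hj4 i hi, smul_zero])
      rw [map_smul, Finsupp.smul_apply, ← hj2, smul_eq_mul, mul_one, ← hj1] at h2
      rw [h1]
      exact h2
  have hsub : ∀ x y : F ⊗[K] R, bcDeg P F (x - y) ≤ max (bcDeg P F x) (bcDeg P F y) := by
    intro x y
    rw [bc_le]
    intro j hj
    rw [map_sub, Finsupp.sub_apply, (bc_le P F x _).mp le_rfl j (lt_of_le_of_lt (le_max_left _ _) hj),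
      (bc_le P F y _).mp le_rfl j (lt_of_le_of_lt (le_max_right _ _) hj), sub_zero]
  have hdrop : ∀ {x y : F ⊗[K] R}, bcDeg P F x = bcDeg P F y → bcLc P F x = bcLc P F y → x ≠ y →
      bcDeg P F (x - y) < bcDeg P F x := by
    intro x y h1 h2 h3
    have hx : x ≠ 0 := by
      rintro rfl
      rw [(bc_zero P F).2] at h2
      have hy : y = 0 := by
        by_contra hy
        exact lcne hy h2.symm
      exact h3 hy.symm
    have hy : y ≠ 0 := by
      rintro rfl
      rw [(bc_zero P F).2] at h2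
      exact lcne hx h2
    obtain ⟨a, ha1, ha2, _, _⟩ := bc_top P F hx
    obtain ⟨b, hb1, hb2, _, _⟩ := bc_top P F hy
    obtain ⟨c, hc1, _, hc3, _⟩ := bc_top P F (sub_ne_zero.mpr h3)
    have hab : a = b := Subtype.ext (by rw [← ha1, ← hb1, h1])
    subst hab
    have h4 := hsub x y
    rw [← h1, max_self] at h4
    refine lt_of_le_of_ne h4 ?_
    intro h5
    have hca : c = a := Subtype.ext (by rw [← hc1, ← ha1, h5])
    subst hca
    apply hc3
    rw [map_sub, Finsupp.sub_apply, ← ha2, ← hb2, h2, sub_self]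
  let Q : OnePt F (F ⊗[K] R) :=
    { deg := bcDeg P F
      lc := bcLc P F
      deg_zero := (bc_zero P F).1
      lc_zero := (bc_zero P F).2
      lc_ne := lcne
      deg_mul := fun hf hg => (bc_mul P F hf hg).1
      lc_mul := by
        intro f g
        by_cases hf : f = 0
        · subst hf
          rw [zero_mul, (bc_zero P F).2, zero_mul]
        by_cases hg : g = 0
        · subst hg
          rw [mul_zero, (bc_zero P F).2, mul_zero]
        exact (bc_mul P F hf hg).2.1
      deg_const := fun c => (hconst c).1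
      lc_const := fun c => (hconst c).2
      deg_sub := hsub
      drop := hdrop
      big := by
        obtain ⟨N, hN⟩ := P.big
        refine ⟨N, fun m hm => ?_⟩
        obtain ⟨f, hf, hfm⟩ := hN m hm
        exact ⟨1 ⊗ₜ f, hne hf, by rw [(bc_pure P F f).1, hfm]⟩ }
  refine ⟨Q, ?_, fun f => bc_pure P F f, ?_, ?_⟩
  · ext j
    constructor
    · rintro ⟨x, hx, hxj⟩
      obtain ⟨i, hi, _⟩ := bc_top P F hx
      have : bcDeg P F x = j := hxj
      rw [← this, hi]
      exact i.2
    · rintro ⟨f, hf, hfj⟩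
      refine ⟨1 ⊗ₜ f, hne hf, ?_⟩
      change bcDeg P F (1 ⊗ₜ f) = j
      rw [(bc_pure P F f).1, hfj]
  · intro m x
    constructor
    · rintro (h | h) j hj
      · subst h
        simp
      · have h' : bcDeg P F x < m := h
        exact (bc_le P F x _).mp le_rfl j (by omega)
    · intro h
      by_cases hx : x = 0
      · exact Or.inl hx
      · right
        change bcDeg P F x < m
        obtain ⟨i, hi, _, hi3, _⟩ := bc_top P F hx
        rw [hi]
        by_contra hlt
        exact hi3 (h i (by omega))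
  · intro x j hx hj
    have hj' : bcDeg P F x = j := hj
    obtain ⟨i, hi, hi2, _, _⟩ := bc_top P F hx
    have hij : i = j := Subtype.ext (by rw [← hi, hj'])
    subst hij
    exact hi2.symm

/-- the structure on `F ⊗ R` -/
noncomputable def OnePt.bc : OnePt F (F ⊗[K] R) := (exists_bc P F).choose

theorem bc_D : (P.bc F).D = P.D := (exists_bc P F).choose_spec.1

theorem bc_deg (f : R) : (P.bc F).deg (1 ⊗ₜ f) = P.deg f := ((exists_bc P F).choose_spec.2.1 f).1

theorem bc_lc (f : R) : (P.bc F).lc (1 ⊗ₜ f) = algebraMap K F (P.lc f) := ((exists_bc P F).choose_spec.2.1 f).2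

theorem bc_lt (m : ℕ) (x : F ⊗[K] R) :
    (P.bc F).Lt m x ↔ ∀ j : P.D, m ≤ j → (Algebra.TensorProduct.basis F P.e).repr x j = 0 :=
  (exists_bc P F).choose_spec.2.2.1 m x

theorem bc_repr {x : F ⊗[K] R} (hx : x ≠ 0) (j : P.D) (h : (P.bc F).deg x = j) :
    (Algebra.TensorProduct.basis F P.e).repr x j = (P.bc F).lc x :=
  (exists_bc P F).choose_spec.2.2.2 x j hx h

/-- evaluation of an element of `F ⊗ R` at a point of the curve over `F` -/
noncomputable def evF {F : Type} [Field F] [Algebra K F] (β : R →ₐ[K] F) : F ⊗[K] R →ₐ[F] F :=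
  Algebra.TensorProduct.lift (AlgHom.id F F) β (fun _ _ => Commute.all _ _)

@[simp] theorem evF_tmul {F : Type} [Field F] [Algebra K F] (β : R →ₐ[K] F) (c : F) (f : R) : evF β (c ⊗ₜ f) = c * β f := by
  simp [evF]

/-- restriction to `R` of a homomorphism -/
noncomputable def resF {F : Type} [Field F] [Algebra K F] (χ : F ⊗[K] R →ₐ[F] F) : R →ₐ[K] F :=
  (χ.restrictScalars K).comp Algebra.TensorProduct.includeRight

theorem resF_apply {F : Type} [Field F] [Algebra K F] (χ : F ⊗[K] R →ₐ[F] F) (f : R) : resF χ f = χ (1 ⊗ₜ f) := rfl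

theorem evF_resF {F : Type} [Field F] [Algebra K F] (χ : F ⊗[K] R →ₐ[F] F) : evF (resF χ) = χ := by
  apply Algebra.TensorProduct.ext <;> ext <;> simp [evF, resF]

theorem resF_evF {F : Type} [Field F] [Algebra K F] (β : R →ₐ[K] F) : resF (evF β) = β := by
  ext f; simp [resF_apply]

/-- the automorphism of `F ⊗ R` induced by an automorphism of `F` over `K` -/
noncomputable def gal {F : Type} [Field F] [Algebra K F] (σ : F ≃ₐ[K] F) : F ⊗[K] R →ₐ[K] F ⊗[K] R :=
  Algebra.TensorProduct.map (σ : F →ₐ[K] F) (AlgHom.id K R)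

end GB
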