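import Pool.Agent.H99.GB.Ring

/-! # GB.Bas : a basis of `R` adapted to the degree (80 lines)

For `j ∈ D` choose `e_j` with `deg e_j = j`, `lc e_j = 1` (scale by `lc_smul`).  Spanning: strong induction on `deg f`, subtracting the leading term (`lead`).
Independence: in a nonzero linear combination the term with the largest `j` dominates (`add_lt`).  `repr_deg`, `repr_lt`: write `f = Σ repr j • e_j`, the largest `j` in the support of `repr`
has `deg f = j`, `lc f = repr j` (`lin_deg`). -/

namespace GB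

open Module

variable {K R : Type} [Field K] [CommRing R] [Algebra K R] (P : OnePt K R)

/-- a combination of elements of degree smaller than `m` -/
private theorem sum_lt {r : P.D → R} (hr : ∀ j, r j ≠ 0 ∧ P.deg (r j) = j) (m : ℕ) (s : Finset P.D)
    (c : P.D → K) (hs : ∀ i ∈ s, (i : ℕ) < m) : P.Lt m (∑ i ∈ s, c i • r i) := by
  classical
  induction s using Finset.induction_on with
  | empty => exact Or.inl rfl
  | insert a s ha ih =>
    rw [Finset.sum_insert ha]
    refine Lt.add P (Lt.smul P (Or.inr ?_) _) (ih fun i hi => hs i (Finset.mem_insert_of_mem hi))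
    rw [(hr a).2]
    exact hs a (Finset.mem_insert_self a s)

private theorem lin_deg0 {r : P.D → R} (hr : ∀ j, r j ≠ 0 ∧ P.deg (r j) = j) (c : P.D →₀ K)
    {j : P.D} (hj : c j ≠ 0) (h : ∀ i, j < i → c i = 0) :
    P.deg (c.sum fun i a => a • r i) = j ∧ P.lc (c.sum fun i a => a • r i) = c j * P.lc (r j) := by
  classical
  have hmem : j ∈ c.support := Finsupp.mem_support_iff.2 hj
  have e1 : (c.sum fun i a => a • r i) = c j • r j + ∑ i ∈ c.support.erase j, c i • r i := by
    rw [Finsupp.sum, ← Finset.add_sum_erase _ _ hmem]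
  have hlt : P.Lt (P.deg (c j • r j)) (∑ i ∈ c.support.erase j, c i • r i) := by
    rw [deg_smul P hj, (hr j).2]
    refine sum_lt P hr j _ (fun i => c i) fun i hi => ?_
    rw [Finset.mem_erase, Finsupp.mem_support_iff] at hi
    rcases lt_trichotomy i j with h1 | h1 | h1
    · exact h1
    · exact absurd h1 hi.1
    · exact absurd (h i h1) hi.2
  have h2 := add_lt P hlt
  rw [e1, h2.1, h2.2, deg_smul P hj, lc_smul, (hr j).2]
  exact ⟨rfl, rfl⟩

private theorem exists_top {c : P.D →₀ K} (hc : c ≠ 0) : ∃ j : P.D, c j ≠ 0 ∧ ∀ i, j < i → c i = 0 := by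
  have hne : c.support.Nonempty := Finsupp.support_nonempty_iff.2 hc
  refine ⟨c.support.max' hne, Finsupp.mem_support_iff.1 (Finset.max'_mem _ hne), fun i hi => ?_⟩
  by_contra h
  exact absurd (Finset.le_max' _ i (Finsupp.mem_support_iff.2 h)) (not_le.2 hi)

theorem exists_basis : ∃ e : Basis P.D K R, ∀ j : P.D, P.deg (e j) = j ∧ P.lc (e j) = 1 := by
  have h0 : ∀ j : P.D, ∃ f : R, f ≠ 0 ∧ P.deg f = j ∧ P.lc f = 1 := by
    rintro ⟨j, f, hf, rfl⟩
    have hl := P.lc_ne hf
    have h1 : P.lc ((P.lc f)⁻¹ • f) = 1 := by rw [lc_smul, inv_mul_cancel₀ hl]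
    refine ⟨(P.lc f)⁻¹ • f, ?_, deg_smul P (inv_ne_zero hl) f, h1⟩
    intro h2
    rw [h2, P.lc_zero] at h1
    exact zero_ne_one h1
  choose r hr0 hrd hrl using h0
  have hr : ∀ j, r j ≠ 0 ∧ P.deg (r j) = j := fun j => ⟨hr0 j, hrd j⟩
  have hli : LinearIndependent K r := by
    rw [linearIndependent_iff]
    intro l hl
    by_contra hne
    obtain ⟨j, hj, hj2⟩ := exists_top P hne
    have h1 := (lin_deg0 P hr l hj hj2).2
    rw [Finsupp.linearCombination_apply] at hl
    rw [hl, P.lc_zero, hrl, mul_one] at h1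
    exact hj h1.symm
  have hsp0 : ∀ m : ℕ, ∀ f : R, P.Lt m f → f ∈ Submodule.span K (Set.range r) := by
    intro m
    induction m with
    | zero =>
      intro f hf
      rcases hf with hf | hf
      · rw [hf]
        exact Submodule.zero_mem _
      · exact absurd hf (Nat.not_lt_zero _)
    | succ m ih =>
      intro f hf
      rcases hf with hf | hf
      · rw [hf]
        exact Submodule.zero_mem _
      · by_cases h1 : P.deg f < m
        · exact ih f (Or.inr h1)
        · by_cases hf0 : f = 0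
          · rw [hf0]
            exact Submodule.zero_mem _
          · have h2 : P.deg f = m := by omega
            have h3 : P.deg f = P.deg (r ⟨P.deg f, mem_D P hf0⟩) := (hrd ⟨P.deg f, mem_D P hf0⟩).symm
            have h4 := lead P hf0 (hr0 ⟨P.deg f, mem_D P hf0⟩) h3
            have h5 := ih _ (Lt.mono P h4 h2.le)
            have h6 : r ⟨P.deg f, mem_D P hf0⟩ ∈ Submodule.span K (Set.range r) :=
              Submodule.subset_span ⟨_, rfl⟩
            have h7 := Submodule.add_mem _ h5
              (Submodule.smul_mem _ (P.lc f / P.lc (r ⟨P.deg f, mem_D P hf0⟩)) h6)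
            rwa [sub_add_cancel] at h7
  have hsp : ⊤ ≤ Submodule.span K (Set.range r) := fun f _ =>
    hsp0 (P.deg f + 1) f (Or.inr (Nat.lt_succ_self _))
  refine ⟨Basis.mk hli hsp, fun j => ?_⟩
  rw [Basis.mk_apply]
  exact ⟨hrd j, hrl j⟩

/-- a basis of `R` with `deg e_j = j`, `lc e_j = 1` -/
noncomputable def OnePt.e : Basis P.D K R := (exists_basis P).choose

theorem deg_e (j : P.D) : P.deg (P.e j) = j := ((exists_basis P).choose_spec j).1

theorem lc_e (j : P.D) : P.lc (P.e j) = 1 := ((exists_basis P).choose_spec j).2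

/-- the degree of a linear combination of elements with the degrees `j ∈ D` -/
theorem lin_deg {r : P.D → R} (hr : ∀ j, r j ≠ 0 ∧ P.deg (r j) = j) (c : P.D →₀ K) {j : P.D} (hj : c j ≠ 0)
    (h : ∀ i, j < i → c i = 0) : P.deg (c.sum fun i a => a • r i) = j ∧ P.lc (c.sum fun i a => a • r i) = c j * P.lc (r j) :=
  lin_deg0 P hr c hj h

theorem repr_deg {f : R} (hf : f ≠ 0) : P.e.repr f ⟨P.deg f, mem_D P hf⟩ = P.lc f ∧ ∀ j : P.D, P.deg f < j → P.e.repr f j = 0 := by
  have hc : P.e.repr f ≠ 0 := by
    intro h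
    apply hf
    have h1 := P.e.linearCombination_repr f
    rw [h, map_zero] at h1
    exact h1.symm
  obtain ⟨j, hj, hj2⟩ := exists_top P hc
  have hr : ∀ j, P.e j ≠ 0 ∧ P.deg (P.e j) = j := by
    refine fun j => ⟨fun h => ?_, deg_e P j⟩
    have h1 := lc_e P j
    rw [h, P.lc_zero] at h1
    exact zero_ne_one h1
  have h1 := lin_deg0 P hr _ hj hj2
  have h2 := P.e.linearCombination_repr f
  rw [Finsupp.linearCombination_apply] at h2
  rw [h2, lc_e, mul_one] at h1
  have h3 : (⟨P.deg f, mem_D P hf⟩ : P.D) = j := Subtype.ext h1.1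
  refine ⟨?_, fun i hi => hj2 i ?_⟩
  · rw [h3]
    exact h1.2.symm
  · rw [← h3]
    exact hi

theorem lt_iff (m : ℕ) (f : R) : P.Lt m f ↔ ∀ j : P.D, m ≤ j → P.e.repr f j = 0 := by
  constructor
  · rintro (h | h) j hj
    · rw [h, map_zero, Finsupp.zero_apply]
    · by_cases hf : f = 0
      · rw [hf, map_zero, Finsupp.zero_apply]
      · exact (repr_deg P hf).2 j (lt_of_lt_of_le h hj)
  · intro h
    by_cases hf : f = 0
    · exact Or.inl hf
    · right
      by_contra h1
      have h2 := h ⟨P.deg f, mem_D P hf⟩ (not_lt.1 h1)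
      rw [(repr_deg P hf).1] at h2
      exact P.lc_ne hf h2

end GB
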