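import Mathlib

/-! # GB.Chr : the characters of a finite-dimensional module over a commutative algebra, with multiplicities (80 lines, Mathlib only)

Induction on `finrank F M`.  If `M ≠ 0` take a nonzero `A`-submodule `N` of minimal `F`-dimension.  Every `a` acts on `N` as a scalar `χ a`: it has an eigenvalue `c` on `N`
(`Module.End.exists_eigenvalue`), and `{n ∈ N | a • n = c • n}` is a nonzero `A`-submodule (`A` commutative), so it is `N`.  `χ : A →ₐ[F] F`; every line of `N` is then a submodule, so `finrank N = 1`.
`M / N` by induction, `LinearMap.det_eq_det_mul_det`. -/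

namespace GB

open Module

private theorem chr_scalar (F A M : Type) [Field F] [IsAlgClosed F] [CommRing A] [Algebra F A] [AddCommGroup M]
    [Module F M] [Module A M] [IsScalarTower F A M] [FiniteDimensional F M] {N : Submodule A M} (hN : IsAtom N) (a : A) :
    ∃ c : F, ∀ y ∈ N, a • y = c • y := by
  obtain ⟨x, hxN, hx0⟩ := (Submodule.ne_bot_iff N).mp hN.1
  let W : Submodule F M := N.restrictScalars F
  have hW : ∀ y ∈ W, (Algebra.lsmul F F M a) y ∈ W := fun y hy => N.smul_mem a hy
  have : Nontrivial W := ⟨⟨⟨x, hxN⟩, 0, fun h => hx0 (congrArg Subtype.val h)⟩⟩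
  obtain ⟨c, hc⟩ := Module.End.exists_eigenvalue ((Algebra.lsmul F F M a).restrict hW)
  obtain ⟨v, hv⟩ := hc.exists_hasEigenvector
  have hv1 : a • (v : M) = c • (v : M) := by
    have h1 := hv.apply_eq_smul
    exact congrArg Subtype.val h1
  have hv0 : (v : M) ≠ 0 := fun h => hv.2 (Subtype.ext h)
  let N' : Submodule A M :=
    { carrier := {y | y ∈ N ∧ a • y = c • y}
      zero_mem' := ⟨N.zero_mem, by rw [smul_zero, smul_zero]⟩
      add_mem' := by
        rintro y z ⟨hy, hy'⟩ ⟨hz, hz'⟩
        exact ⟨N.add_mem hy hz, by rw [smul_add, smul_add, hy', hz']⟩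
      smul_mem' := by
        rintro b y ⟨hy, hy'⟩
        refine ⟨N.smul_mem b hy, ?_⟩
        rw [smul_comm a b y, hy', smul_algebra_smul_comm c b y] }
  have hle : N' ≤ N := fun y hy => hy.1
  rcases hN.le_iff.mp hle with h | h
  · exfalso
    have h1 : (v : M) ∈ N' := ⟨v.2, hv1⟩
    rw [h] at h1
    exact hv0 h1
  · refine ⟨c, fun y hy => ?_⟩
    rw [← h] at hy
    exact hy.2

private theorem chr_line (F A M : Type) [Field F] [IsAlgClosed F] [CommRing A] [Algebra F A] [AddCommGroup M]
    [Module F M] [Module A M] [IsScalarTower F A M] [FiniteDimensional F M] [Nontrivial M] :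
    ∃ (x : M) (χ : A →ₐ[F] F), x ≠ 0 ∧ ∀ a : A, a • x = χ a • x := by
  have : IsArtinian A M := isArtinian_of_tower F (inferInstance : IsArtinian F M)
  obtain ⟨N, hN⟩ := IsAtomic.exists_atom (Submodule A M)
  obtain ⟨x, hxN, hx0⟩ := (Submodule.ne_bot_iff N).mp hN.1
  choose c hc using chr_scalar F A M hN
  have hx : ∀ a, a • x = c a • x := fun a => hc a x hxN
  have hinj : Function.Injective fun t : F => t • x := smul_left_injective F hx0
  let χ : A →ₐ[F] F :=
    { toFun := c
      map_one' := hinj (by change c 1 • x = (1 : F) • x; rw [← hx, one_smul, one_smul])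
      map_mul' := fun a b => hinj (by
        change c (a * b) • x = (c a * c b) • x
        rw [← hx, mul_smul, hx b, mul_smul, smul_algebra_smul_comm, hx a, smul_comm])
      map_zero' := hinj (by change c 0 • x = (0 : F) • x; rw [← hx, zero_smul, zero_smul])
      map_add' := fun a b => hinj (by
        change c (a + b) • x = (c a + c b) • x
        rw [← hx, add_smul, add_smul, hx, hx])
      commutes' := fun t => hinj (by
        change c (algebraMap F A t) • x = t • x
        rw [← hx, algebraMap_smul]) }
  exact ⟨x, χ, hx0, hx⟩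

private theorem chr_main (F A : Type) [Field F] [IsAlgClosed F] [CommRing A] [Algebra F A] (n : ℕ) :
    ∀ (M : Type) [AddCommGroup M] [Module F M] [Module A M] [IsScalarTower F A M] [FiniteDimensional F M],
    finrank F M = n → ∃ S : Multiset (A →ₐ[F] F), S.card = finrank F M ∧
      (∀ a : A, LinearMap.det (Algebra.lsmul F F M a) = (S.map fun χ => χ a).prod) ∧
      ∀ χ ∈ S, ∀ a : A, (∀ m : M, a • m = 0) → χ a = 0 := by
  induction n with
  | zero =>
    intro M _ _ _ _ _ h
    refine ⟨0, by rw [h]; rfl, fun a => ?_, fun χ h => absurd h (Multiset.notMem_zero χ)⟩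
    rw [Multiset.map_zero, Multiset.prod_zero]
    exact LinearMap.det_eq_one_of_finrank_eq_zero h _
  | succ n ih =>
    intro M _ _ _ _ _ h
    have hnt : Nontrivial M := Module.nontrivial_of_finrank_pos (R := F) (by omega)
    obtain ⟨x, χ, hx0, hx⟩ := chr_line F A M
    let N : Submodule A M :=
      { (Submodule.span F {x}) with
        smul_mem' := by
          intro a y hy
          obtain ⟨t, rfl⟩ := Submodule.mem_span_singleton.mp hy
          rw [smul_algebra_smul_comm, hx, smul_smul]
          exact Submodule.smul_mem _ _ (Submodule.mem_span_singleton_self x) }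
    have hNW : N.restrictScalars F = Submodule.span F {x} := rfl
    let e : (M ⧸ N.restrictScalars F) ≃ₗ[F] (M ⧸ N) := Submodule.Quotient.restrictScalarsEquiv F N
    have hfin : FiniteDimensional F (M ⧸ N) := Module.Finite.equiv e
    have h1 : finrank F (N.restrictScalars F) = 1 := by
      rw [hNW]
      exact finrank_span_singleton hx0
    have h2 : finrank F (M ⧸ N) + 1 = finrank F M := by
      rw [← e.finrank_eq, ← h1]
      exact Submodule.finrank_quotient_add_finrank _
    obtain ⟨S, hS1, hS2, hS3⟩ := ih (M ⧸ N) (by omega)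
    refine ⟨χ ::ₘ S, by rw [Multiset.card_cons, hS1, h2], fun a => ?_, ?_⟩
    · rw [Multiset.map_cons, Multiset.prod_cons, ← hS2]
      have hW : N.restrictScalars F ≤ (N.restrictScalars F).comap (Algebra.lsmul F F M a) :=
        fun y hy => N.smul_mem a hy
      rw [LinearMap.det_eq_det_mul_det (N.restrictScalars F) (Algebra.lsmul F F M a) hW]
      congr 1
      · have h3 : (Algebra.lsmul F F M a).restrict hW = χ a • (LinearMap.id : N.restrictScalars F →ₗ[F] _) := by
          ext ⟨y, hy⟩
          obtain ⟨t, rfl⟩ := Submodule.mem_span_singleton.mp (hNW ▸ hy)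
          change a • (t • x) = χ a • (t • x)
          rw [smul_algebra_smul_comm, hx, smul_comm]
        rw [h3, LinearMap.det_smul, h1, pow_one, LinearMap.det_id, mul_one]
    · intro ψ hψ a ha
      rcases Multiset.mem_cons.mp hψ with rfl | hψ
      · have h3 := ha x
        rw [hx] at h3
        exact (smul_eq_zero.mp h3).resolve_right hx0
      · refine hS3 ψ hψ a fun m => ?_
        obtain ⟨m, rfl⟩ := Submodule.Quotient.mk_surjective _ m
        rw [← Submodule.Quotient.mk_smul, ha m, Submodule.Quotient.mk_zero]

/-- characters with multiplicities -/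
theorem chars (F A M : Type) [Field F] [IsAlgClosed F] [CommRing A] [Algebra F A] [AddCommGroup M] [Module F M] [Module A M]
    [IsScalarTower F A M] [FiniteDimensional F M] : ∃ S : Multiset (A →ₐ[F] F), S.card = finrank F M ∧
      (∀ a : A, LinearMap.det (Algebra.lsmul F F M a) = (S.map fun χ => χ a).prod) ∧
      ∀ χ ∈ S, ∀ a : A, (∀ m : M, a • m = 0) → χ a = 0 :=
  chr_main F A (finrank F M) M rfl

end GB
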