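import Mathlib

/-! # GB.Def : the ring of an affine curve with one smooth point at infinity (definitions only, no sorry)

`R` = the functions on a projective curve `B` which are regular outside one smooth point `b_∞`; `deg f` = the order of the pole of `f` at `b_∞`,
`lc f` = its leading coefficient there (with respect to a fixed local parameter).  Everything in this folder is deduced from the axioms `OnePt`. -/

namespace GB

/-- the axioms of pole order and leading coefficient at the point at infinity -/
structure OnePt (K R : Type) [Field K] [CommRing R] [Algebra K R] where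
  /-- the order of the pole at infinity -/
  deg : R → ℕ
  /-- the leading coefficient at infinity -/
  lc : R → K
  deg_zero : deg 0 = 0
  lc_zero : lc 0 = 0
  lc_ne : ∀ {f : R}, f ≠ 0 → lc f ≠ 0
  deg_mul : ∀ {f g : R}, f ≠ 0 → g ≠ 0 → deg (f * g) = deg f + deg g
  lc_mul : ∀ f g : R, lc (f * g) = lc f * lc g
  deg_const : ∀ c : K, deg (algebraMap K R c) = 0
  lc_const : ∀ c : K, lc (algebraMap K R c) = c
  deg_sub : ∀ f g : R, deg (f - g) ≤ max (deg f) (deg g)
  /-- the point at infinity is a smooth rational point: one leading coefficient -/
  drop : ∀ {f g : R}, deg f = deg g → lc f = lc g → f ≠ g → deg (f - g) < deg f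
  /-- all large pole orders occur -/
  big : ∃ N, ∀ m, N ≤ m → ∃ f : R, f ≠ 0 ∧ deg f = m

variable {K R : Type} [Field K] [CommRing R] [Algebra K R]

/-- the pole orders (a semigroup, all but finitely many natural numbers: Weierstrass semigroup) -/
def OnePt.D (P : OnePt K R) : Set ℕ := {j | ∃ f : R, f ≠ 0 ∧ P.deg f = j}

/-- the arithmetic genus = the number of gaps -/
noncomputable def OnePt.g (P : OnePt K R) : ℕ := (P.D)ᶜ.ncard

/-- `f = 0` or `deg f < m` -/
def OnePt.Lt (P : OnePt K R) (m : ℕ) (f : R) : Prop := f = 0 ∨ P.deg f < m

end GB
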