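import Pool.Agent.H99.GB.Ring

/-! # GB.Gap : counting pole orders (60 lines)

`G d = D \ (d + D)` has exactly `d` elements (`d ∈ D`): let all `m ≥ N` be in `D` (`big`).  `G d ⊆ [0, N + d)`, `d + D ⊆ D` (`D_add`), the number of elements of `D` below `N + d` is `N + d - #gaps`, the number of elements of
`d + D` below `N + d` is `N - #gaps` (all gaps are `< N`).  `card_le`: the number of elements of `D` in `[0, m]` is `≥ m + 1 - g`. -/

namespace GB

variable {K R : Type} [Field K] [CommRing R] [Algebra K R] (P : OnePt K R)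

/-- the elements of `D` which are not in `d + D` -/
def OnePt.G (P : OnePt K R) (d : ℕ) : Set ℕ := {j | j ∈ P.D ∧ ∀ i ∈ P.D, j ≠ i + d}

theorem G_fin {d : ℕ} (hd : d ∈ P.D) : (P.G d).Finite := by
  obtain ⟨N, hN⟩ := P.big
  refine (Set.finite_lt_nat (N + d)).subset ?_
  rintro j ⟨_, hj2⟩
  by_contra h
  have h1 : N + d ≤ j := not_lt.1 h
  exact hj2 (j - d) (hN _ (by omega)) (by omega)

private theorem gap_count {N : ℕ} (hN : ∀ m, N ≤ m → m ∈ P.D) (M : ℕ) (hM : N ≤ M) :
    (P.D ∩ Set.Iio M).ncard + P.g = M := by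
  have h1 : P.Dᶜ ⊆ Set.Iio M := by
    intro m hm
    by_contra h
    exact hm (hN m (le_trans hM (not_lt.1 h)))
  have h2 : P.D ∩ Set.Iio M ∪ P.Dᶜ = Set.Iio M := by
    ext m
    constructor
    · rintro (h | h)
      · exact h.2
      · exact h1 h
    · intro h
      by_cases h3 : m ∈ P.D
      · exact Or.inl ⟨h3, h⟩
      · exact Or.inr h3
  have h3 : Disjoint (P.D ∩ Set.Iio M) P.Dᶜ := by
    rw [Set.disjoint_left]
    rintro m ⟨h4, _⟩ h5
    exact h5 h4
  have h4 := Set.ncard_union_eq h3 ((Set.finite_Iio M).subset Set.inter_subset_right) (D_fin P)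
  rw [h2] at h4
  have h5 : (Set.Iio M).ncard = M := by
    rw [← Finset.coe_Iio, Set.ncard_coe_finset, Nat.card_Iio]
  rw [h5] at h4
  exact h4.symm

theorem G_card {d : ℕ} (hd : d ∈ P.D) : (P.G d).ncard = d := by
  obtain ⟨N, hN0⟩ := P.big
  have hN : ∀ m, N ≤ m → m ∈ P.D := hN0
  have h1 := gap_count P hN N le_rfl
  have h2 := gap_count P hN (N + d) (Nat.le_add_right N d)
  have h3 : P.G d ∪ (fun j => j + d) '' (P.D ∩ Set.Iio N) = P.D ∩ Set.Iio (N + d) := by
    ext m
    constructor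
    · rintro (⟨h4, h5⟩ | ⟨j, ⟨h4, h5⟩, rfl⟩)
      · refine ⟨h4, ?_⟩
        by_contra h6
        have h7 : N + d ≤ m := not_lt.1 h6
        exact h5 (m - d) (hN _ (by omega)) (by omega)
      · exact ⟨D_add P h4 hd, Nat.add_lt_add_right h5 d⟩
    · rintro ⟨h4, h5⟩
      by_cases h6 : ∀ i ∈ P.D, m ≠ i + d
      · exact Or.inl ⟨h4, h6⟩
      · right
        push Not at h6
        obtain ⟨i, hi, h7⟩ := h6
        refine ⟨i, ⟨hi, ?_⟩, h7.symm⟩
        have h8 : m < N + d := h5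
        have h9 : i < N := by omega
        exact h9
  have h4 : Disjoint (P.G d) ((fun j => j + d) '' (P.D ∩ Set.Iio N)) := by
    rw [Set.disjoint_left]
    rintro m ⟨_, h5⟩ ⟨j, ⟨h6, _⟩, h7⟩
    exact h5 j h6 h7.symm
  have h5 : (P.D ∩ Set.Iio N).Finite := (Set.finite_Iio N).subset Set.inter_subset_right
  have h6 := Set.ncard_union_eq h4 (G_fin P hd) (h5.image _)
  rw [h3, Set.ncard_image_of_injective _ (fun a b h => Nat.add_right_cancel h)] at h6
  omega

theorem card_le (m : ℕ) : m + 1 ≤ (P.D ∩ Set.Iic m).ncard + P.g := by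
  have h1 : Set.Iic m ⊆ P.D ∩ Set.Iic m ∪ P.Dᶜ := by
    intro j hj
    by_cases h : j ∈ P.D
    · exact Or.inl ⟨h, hj⟩
    · exact Or.inr h
  have h2 : (P.D ∩ Set.Iic m ∪ P.Dᶜ).Finite :=
    ((Set.finite_Iic m).subset Set.inter_subset_right).union (D_fin P)
  have h3 := Set.ncard_le_ncard h1 h2
  have h4 := Set.ncard_union_le (P.D ∩ Set.Iic m) P.Dᶜ
  have h5 : (Set.Iic m).ncard = m + 1 := by
    rw [← Finset.coe_Iic, Set.ncard_coe_finset, Nat.card_Iic]
  rw [h5] at h3
  exact le_trans h3 h4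

end GB
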