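import Pool.Agent.H99.GB.Bas
import Pool.Agent.H99.GB.Gap

/-! # GB.Quo : the quotients `R / h` (120 lines)

`span_lt`: strong induction on `m`: `f ≠ 0`, `j = deg f < m`; if `j = i + deg h` with `i ∈ D` subtract `c • (h * e_i)` (`lead`), otherwise `j ∈ G (deg h)`, subtract `c • r_j`.
`tri`: spanning by `span_lt`; independence: a combination `Σ c_j r_j ≠ 0` has its degree in `G (deg h)` (`lin_deg`, or `lin_deg` for the family `j ↦ r_j` extended by `e_j` to `D`), while a nonzero multiple of `h` has its degree in `deg h + D`.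
`quo_fin`, `quo_finrank`: `tri` with `r_j = e_j`, `G_fin`, `G_card`.  `ideal_fin`: `J` contains some `h ≠ 0`, `R / J` is a quotient of `R / h`. -/

namespace GB

open Module

variable {K R : Type} [Field K] [CommRing R] [Algebra K R] (P : OnePt K R)

theorem span_lt {h : R} (hh : h ≠ 0) {r : P.G (P.deg h) → R} (hr : ∀ j, r j ≠ 0 ∧ P.deg (r j) = j) {m : ℕ} {f : R} (hf : P.Lt m f) :
    ∃ (c : P.G (P.deg h) →₀ K) (q : R), (∀ j : P.G (P.deg h), m ≤ (j : ℕ) → c j = 0) ∧ f = h * q + c.sum fun j a => a • r j := by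
  have := isDomain P
  induction m generalizing f with
  | zero =>
    rcases hf with hf | hf
    · refine ⟨0, 0, fun j _ => rfl, ?_⟩
      rw [hf, mul_zero, Finsupp.sum_zero_index, zero_add]
    · exact absurd hf (Nat.not_lt_zero _)
  | succ m ih =>
    by_cases hm : P.Lt m f
    · obtain ⟨c, q, h1, h2⟩ := ih hm
      exact ⟨c, q, fun j hj => h1 j (by omega), h2⟩
    · have hf0 : f ≠ 0 := fun h0 => hm (Or.inl h0)
      have hd : P.deg f = m := by
        rcases hf with hf | hf
        · exact absurd hf hf0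
        · by_contra hne
          exact hm (Or.inr (by omega))
      by_cases hG : m ∈ P.G (P.deg h)
      · have hlt := lead P hf0 (hr ⟨m, hG⟩).1 (by rw [hd, (hr ⟨m, hG⟩).2])
        rw [hd] at hlt
        obtain ⟨c, q, h1, h2⟩ := ih hlt
        refine ⟨c + Finsupp.single ⟨m, hG⟩ (P.lc f / P.lc (r ⟨m, hG⟩)), q, ?_, ?_⟩
        · intro j hj
          have hne : (⟨m, hG⟩ : P.G (P.deg h)) ≠ j := by
            intro e
            rw [← e] at hj
            have : m + 1 ≤ m := hj
            omega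
          rw [Finsupp.add_apply, h1 j (by omega), Finsupp.single_eq_of_ne hne.symm, add_zero]
        · have h6 : ((Finsupp.single (⟨m, hG⟩ : P.G (P.deg h)) (P.lc f / P.lc (r ⟨m, hG⟩))).sum
              fun j a => a • r j) = (P.lc f / P.lc (r ⟨m, hG⟩)) • r ⟨m, hG⟩ :=
            Finsupp.sum_single_index (zero_smul K (r ⟨m, hG⟩))
          rw [Finsupp.sum_add_index' (fun j => zero_smul K (r j)) (fun j a b => add_smul a b (r j)),
            h6, ← add_assoc, ← h2, sub_add_cancel]
      · have hmD : m ∈ P.D := by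
          rw [← hd]
          exact mem_D P hf0
        have h3 : ∃ i ∈ P.D, m = i + P.deg h := by
          by_contra h4
          push Not at h4
          exact hG ⟨hmD, h4⟩
        obtain ⟨i, ⟨e, he, hei⟩, hi⟩ := h3
        have hhe : h * e ≠ 0 := mul_ne_zero hh he
        have hdeg : P.deg f = P.deg (h * e) := by
          rw [P.deg_mul hh he, hei, hd, hi, add_comm]
        have hlt := lead P hf0 hhe hdeg
        rw [hd] at hlt
        obtain ⟨c, q, h1, h2⟩ := ih hlt
        refine ⟨c, q + (P.lc f / P.lc (h * e)) • e, fun j hj => h1 j (by omega), ?_⟩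
        have h5 : h * ((P.lc f / P.lc (h * e)) • e) = (P.lc f / P.lc (h * e)) • (h * e) :=
          mul_smul_comm _ _ _
        rw [mul_add, h5, add_right_comm, ← h2, sub_add_cancel]

private theorem quo_deg {h : R} {r : P.G (P.deg h) → R} (hr : ∀ j, r j ≠ 0 ∧ P.deg (r j) = j)
    (l : P.G (P.deg h) →₀ K) (hl : l ≠ 0) : ∃ j : P.G (P.deg h), P.deg (l.sum fun i a => a • r i) = j ∧
      (l.sum fun i a => a • r i) ≠ 0 := by
  classical
  have := nontrivial P
  let emb : P.G (P.deg h) ↪ P.D := ⟨fun j => ⟨j, j.2.1⟩, fun a b hab =>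
    Subtype.ext (Subtype.mk.inj hab)⟩
  let r' : P.D → R := fun i => if hi : (i : ℕ) ∈ P.G (P.deg h) then r ⟨i, hi⟩ else P.e i
  have hr' : ∀ i, r' i ≠ 0 ∧ P.deg (r' i) = i := by
    intro i
    by_cases hi : (i : ℕ) ∈ P.G (P.deg h)
    · have e : r' i = r ⟨i, hi⟩ := dif_pos hi
      rw [e]
      exact hr ⟨i, hi⟩
    · have e : r' i = P.e i := dif_neg hi
      rw [e]
      exact ⟨P.e.ne_zero i, deg_e P i⟩
  have hne : l.support.Nonempty := Finsupp.support_nonempty_iff.2 hl
  obtain ⟨j, hj, hmax⟩ := l.support.exists_max_image (fun j => (j : ℕ)) hne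
  have hj0 : l j ≠ 0 := Finsupp.mem_support_iff.1 hj
  have h1 : (Finsupp.embDomain emb l) (emb j) ≠ 0 := by
    rw [Finsupp.embDomain_apply_self]
    exact hj0
  have h2 : ∀ i, emb j < i → (Finsupp.embDomain emb l) i = 0 := by
    intro i hi
    by_contra h3
    have h4 : i ∈ (Finsupp.embDomain emb l).support := Finsupp.mem_support_iff.2 h3
    rw [Finsupp.support_embDomain, Finset.mem_map] at h4
    obtain ⟨j', hj', e⟩ := h4
    have h5 := hmax j' hj'
    rw [← e] at hi
    have h6 : (j : ℕ) < (j' : ℕ) := hi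
    exact absurd h6 (not_lt.2 h5)
  have h3 := lin_deg P hr' (Finsupp.embDomain emb l) h1 h2
  rw [Finsupp.sum_embDomain] at h3
  have h4 : (l.sum fun i a => a • r' (emb i)) = l.sum fun i a => a • r i := by
    refine Finsupp.sum_congr fun i _ => ?_
    have e : r' (emb i) = r i := dif_pos i.2
    rw [e]
  rw [h4, Finsupp.embDomain_apply_self] at h3
  refine ⟨j, h3.1, fun h0 => ?_⟩
  have h5 := h3.2
  rw [h0, P.lc_zero] at h5
  exact mul_ne_zero hj0 (P.lc_ne (hr' (emb j)).1) h5.symm

theorem tri {h : R} (hh : h ≠ 0) {r : P.G (P.deg h) → R} (hr : ∀ j, r j ≠ 0 ∧ P.deg (r j) = j) :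
    ∃ B : Basis (P.G (P.deg h)) K (R ⧸ Ideal.span {h}), ∀ j, B j = Ideal.Quotient.mk (Ideal.span {h}) (r j) := by
  have hsum : ∀ l : P.G (P.deg h) →₀ K, Finsupp.linearCombination K
      (fun j => Ideal.Quotient.mk (Ideal.span {h}) (r j)) l =
      Ideal.Quotient.mkₐ K (Ideal.span {h}) (l.sum fun i a => a • r i) := by
    intro l
    rw [Finsupp.linearCombination_apply, map_finsuppSum]
    refine Finsupp.sum_congr fun i _ => ?_
    rw [map_smul]
    rfl
  have hli : LinearIndependent K (fun j => Ideal.Quotient.mk (Ideal.span {h}) (r j)) := by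
    rw [linearIndependent_iff]
    intro l hl
    by_contra hne
    obtain ⟨j, hj, hj0⟩ := quo_deg P hr l hne
    rw [hsum, Ideal.Quotient.mkₐ_eq_mk, Ideal.Quotient.eq_zero_iff_mem, Ideal.mem_span_singleton] at hl
    obtain ⟨q, hq⟩ := hl
    have hq0 : q ≠ 0 := by
      rintro rfl
      rw [mul_zero] at hq
      exact hj0 hq
    rw [hq, P.deg_mul hh hq0] at hj
    refine j.2.2 (P.deg q) (mem_D P hq0) ?_
    rw [← hj, add_comm]
  have hsp : ⊤ ≤ Submodule.span K (Set.range fun j => Ideal.Quotient.mk (Ideal.span {h}) (r j)) := by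
    rintro x -
    obtain ⟨f, rfl⟩ := Ideal.Quotient.mk_surjective x
    obtain ⟨c, q, -, h2⟩ := span_lt P hh hr (m := P.deg f + 1) (f := f) (Or.inr (Nat.lt_succ_self _))
    have h3 : Ideal.Quotient.mk (Ideal.span {h}) f = Finsupp.linearCombination K
        (fun j => Ideal.Quotient.mk (Ideal.span {h}) (r j)) c := by
      rw [hsum, Ideal.Quotient.mkₐ_eq_mk]
      conv_lhs => rw [h2]
      rw [map_add, map_mul, Ideal.Quotient.eq_zero_iff_mem.2 (Ideal.mem_span_singleton_self h),
        zero_mul, zero_add]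
    rw [h3, ← Finsupp.range_linearCombination]
    exact LinearMap.mem_range_self _ _
  refine ⟨Basis.mk hli hsp, fun j => ?_⟩
  rw [Basis.mk_apply]

private theorem quo_basis (P : OnePt K R) {h : R} (hh : h ≠ 0) :
    Nonempty (Basis (P.G (P.deg h)) K (R ⧸ Ideal.span {h})) := by
  have := nontrivial P
  obtain ⟨B, -⟩ := tri P hh (r := fun j => P.e ⟨j, j.2.1⟩) (fun j => ⟨P.e.ne_zero _, deg_e P _⟩)
  exact ⟨B⟩

theorem quo_fin (P : OnePt K R) {h : R} (hh : h ≠ 0) : FiniteDimensional K (R ⧸ Ideal.span {h}) := by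
  obtain ⟨B⟩ := quo_basis P hh
  have : Finite (P.G (P.deg h)) := (G_fin P (mem_D P hh)).to_subtype
  exact Module.Finite.of_basis B

theorem quo_finrank {h : R} (hh : h ≠ 0) : finrank K (R ⧸ Ideal.span {h}) = P.deg h := by
  obtain ⟨B⟩ := quo_basis P hh
  rw [Module.finrank_eq_nat_card_basis B, Nat.card_coe_set_eq, G_card P (mem_D P hh)]

/-- every nonzero ideal has finite codimension -/
theorem ideal_fin (P : OnePt K R) {J : Ideal R} (hJ : J ≠ ⊥) : FiniteDimensional K (R ⧸ J) := by
  obtain ⟨h, hhJ, hh⟩ := Submodule.exists_mem_ne_zero_of_ne_bot hJ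
  have hle : Ideal.span {h} ≤ J := by
    rw [Ideal.span_le, Set.singleton_subset_iff]
    exact hhJ
  have := quo_fin P hh
  refine Module.Finite.of_surjective (Ideal.Quotient.factorₐ K hle).toLinearMap ?_
  intro x
  obtain ⟨f, rfl⟩ := Ideal.Quotient.mk_surjective x
  exact ⟨Ideal.Quotient.mk _ f, rfl⟩

end GB
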