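import Pool.Agent.H99.GB.Zq

/-! # GB.ZqM : multiplicativity of the zeros, and the zeros of an intersection of kernels (110 lines)

`zq_mul`: `x J ⊆ (x)`; the submodule `(x) / x J` of `A / x J` is isomorphic to `A / J` (`a ↦ x a`; `A` is a domain), the quotient is `A / (x)`: determinants multiply (`LinearMap.det_eq_det_mul_det`), and `uniq`.
`zq_inf`: `a ↦ (b_i a)_i` induces `A / ∩ ker b_i ≅ F^k` (Chinese remainder theorem, `Ideal.quotientInfRingEquivPiQuotient`, or surjectivity by hand), the multiplication by `a` is diagonal with entries `b_i a`; `uniq`. -/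

namespace GB

open Module

variable (F : Type) {A : Type} [Field F] [IsAlgClosed F] [CommRing A] [Algebra F A]

private theorem det_congr {M N : Type} [AddCommGroup M] [Module F M] [Module A M] [IsScalarTower F A M]
    [AddCommGroup N] [Module F N] [Module A N] [IsScalarTower F A N] (e : M ≃ₗ[A] N) (a : A) :
    LinearMap.det (Algebra.lsmul F F M a) = LinearMap.det (Algebra.lsmul F F N a) := by
  rw [← LinearMap.det_conj (Algebra.lsmul F F M a) (e.restrictScalars F)]
  congr 1
  ext n
  simp

private theorem det_sub {M : Type} [AddCommGroup M] [Module F M] [Module A M] [IsScalarTower F A M]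
    [FiniteDimensional F M] (W : Submodule A M) (a : A) :
    LinearMap.det (Algebra.lsmul F F M a) =
      LinearMap.det (Algebra.lsmul F F W a) * LinearMap.det (Algebra.lsmul F F (M ⧸ W) a) := by
  have he : W.restrictScalars F ≤ (W.restrictScalars F).comap (Algebra.lsmul F F M a) := fun m hm => W.smul_mem a hm
  rw [LinearMap.det_eq_det_mul_det (W.restrictScalars F) (Algebra.lsmul F F M a) he]
  rfl

private theorem norm_eq (J : Ideal A) (f : A) :
    Algebra.norm F (Ideal.Quotient.mk J f) = LinearMap.det (Algebra.lsmul F F (A ⧸ J) f) := by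
  rw [Algebra.norm_apply]
  rfl

theorem zq_mul [IsDomain A] {x : A} (hx : x ≠ 0) (J : Ideal A) [FiniteDimensional F (A ⧸ Ideal.span {x})]
    [FiniteDimensional F (A ⧸ J)] : FiniteDimensional F (A ⧸ (Ideal.span {x} * J)) ∧
      zq F (Ideal.span {x} * J) = zq F (Ideal.span {x}) + zq F J := by
  set I : Ideal A := Ideal.span {x} * J with hI
  have hIx : I ≤ Ideal.span {x} := Ideal.mul_le_left
  -- multiplication by `x`
  let φ0 : A →ₗ[A] (A ⧸ I) := (Submodule.mkQ I) ∘ₗ (LinearMap.mulLeft A x)
  have hker : LinearMap.ker φ0 = J := by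
    ext a
    rw [LinearMap.mem_ker]
    show (Submodule.mkQ I) (x * a) = 0 ↔ a ∈ J
    rw [Submodule.mkQ_apply, Submodule.Quotient.mk_eq_zero, hI, Ideal.mem_span_singleton_mul]
    constructor
    · rintro ⟨z, hz, h⟩
      rw [← mul_left_cancel₀ hx h]
      exact hz
    · intro h
      exact ⟨a, h, rfl⟩
  let W : Submodule A (A ⧸ I) := Submodule.map (Submodule.mkQ I) (Ideal.span {x})
  have hrange : LinearMap.range φ0 = W := by
    ext z
    rw [LinearMap.mem_range, Submodule.mem_map]
    constructor
    · rintro ⟨a, rfl⟩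
      exact ⟨x * a, Ideal.mul_mem_right _ _ (Ideal.mem_span_singleton_self x), rfl⟩
    · rintro ⟨b, hb, rfl⟩
      obtain ⟨a, rfl⟩ := Ideal.mem_span_singleton'.1 hb
      exact ⟨a, by show (Submodule.mkQ I) (x * a) = _; rw [mul_comm]⟩
  let e1 : (A ⧸ J) ≃ₗ[A] W :=
    (Submodule.quotEquivOfEq _ _ hker.symm).trans (φ0.quotKerEquivRange.trans (LinearEquiv.ofEq _ _ hrange))
  let e2 : ((A ⧸ I) ⧸ W) ≃ₗ[A] (A ⧸ (Ideal.span {x} : Ideal A)) :=
    Submodule.quotientQuotientEquivQuotient I (Ideal.span {x}) hIx
  have f1 : Module.Finite F W := Module.Finite.equiv (e1.restrictScalars F)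
  have f2 : Module.Finite F ((A ⧸ I) ⧸ W) := Module.Finite.equiv (e2.symm.restrictScalars F)
  have f1' : Module.Finite F (W.restrictScalars F) := f1
  have f2' : Module.Finite F ((A ⧸ I) ⧸ W.restrictScalars F) :=
    Module.Finite.equiv (Submodule.Quotient.restrictScalarsEquiv F W).symm
  have hfd : Module.Finite F (A ⧸ I) := Module.Finite.of_submodule_quotient (W.restrictScalars F)
  refine ⟨hfd, ?_⟩
  have hinf : Infinite F := IsAlgClosed.instInfinite
  refine uniq (K := F) fun f => ?_
  rw [Multiset.map_add, Multiset.prod_add, zq_prod, zq_prod, zq_prod, norm_eq, norm_eq, norm_eq, det_sub F W f,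
    det_congr F e1 f, det_congr F e2 f, mul_comm]

/-- the intersection of the kernels of distinct homomorphisms -/
theorem zq_inf {k : ℕ} {b : Fin k → (A →ₐ[F] F)} (hb : Function.Injective b) :
    FiniteDimensional F (A ⧸ (⨅ i, RingHom.ker (b i) : Ideal A)) ∧
      zq F (⨅ i, RingHom.ker (b i) : Ideal A) = (Finset.univ.val.map b) := by
  classical
  have hsurj : ∀ i, Function.Surjective (b i) := fun i c => ⟨algebraMap F A c, by simp⟩
  have hmax : ∀ i, (RingHom.ker (b i)).IsMaximal := fun i => RingHom.ker_isMaximal_of_surjective (b i) (hsurj i)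
  have hne : ∀ i j, i ≠ j → RingHom.ker (b i) ≠ RingHom.ker (b j) := by
    intro i j hij h
    apply hij
    apply hb
    ext a
    have h1 : a - algebraMap F A (b i a) ∈ RingHom.ker (b i) := by
      rw [RingHom.mem_ker]
      simp
    rw [h, RingHom.mem_ker, map_sub, sub_eq_zero] at h1
    rw [h1]
    simp
  have hcop : Pairwise (Function.onFun IsCoprime fun i => RingHom.ker (b i)) := by
    intro i j hij
    show IsCoprime (RingHom.ker (b i)) (RingHom.ker (b j))
    rw [Ideal.isCoprime_iff_sup_eq]
    exact (hmax i).coprime_of_ne (hmax j) (hne i j hij)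
  let Φ : A →ₐ[F] (Fin k → F) := AlgHom.pi b
  have hΦker : RingHom.ker Φ = ⨅ i, RingHom.ker (b i) := by
    ext a
    rw [RingHom.mem_ker, Ideal.mem_iInf]
    constructor
    · intro h i
      exact congrFun h i
    · intro h
      funext i
      exact h i
  have hΦs : Function.Surjective Φ := by
    intro v
    obtain ⟨a, ha⟩ := Ideal.pi_quotient_surjective hcop
      (fun i => Ideal.Quotient.mk (RingHom.ker (b i)) (algebraMap F A (v i)))
    refine ⟨a, ?_⟩
    funext i
    have h1 := ha i
    rw [Ideal.Quotient.eq, RingHom.mem_ker, map_sub, sub_eq_zero] at h1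
    show b i a = v i
    rw [h1]
    simp
  let e : (A ⧸ (⨅ i, RingHom.ker (b i) : Ideal A)) ≃ₐ[F] (Fin k → F) :=
    (Ideal.quotientEquivAlgOfEq F hΦker.symm).trans (Ideal.quotientKerAlgEquivOfSurjective hΦs)
  have hfd : FiniteDimensional F (A ⧸ (⨅ i, RingHom.ker (b i) : Ideal A)) :=
    Module.Finite.equiv e.symm.toLinearEquiv
  refine ⟨hfd, ?_⟩
  have hinf : Infinite F := IsAlgClosed.instInfinite
  refine uniq (K := F) fun f => ?_
  rw [zq_prod, ← Algebra.norm_eq_of_algEquiv e]
  have h1 : e (Ideal.Quotient.mk _ f) = fun i => b i f := rfl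
  rw [h1, Algebra.norm_eq_matrix_det (Pi.basisFun F (Fin k)), Multiset.map_map]
  have h2 : Algebra.leftMulMatrix (Pi.basisFun F (Fin k)) (fun i => b i f) = Matrix.diagonal fun i => b i f := by
    ext i j
    rw [Algebra.leftMulMatrix_eq_repr_mul]
    simp [Matrix.diagonal_apply, Pi.single_apply]
  rw [h2, Matrix.det_diagonal]
  rfl

end GB
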