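import Pool.Agent.H99.GB.BC
import Pool.Agent.H99.GB.Quo
import Pool.Agent.H99.GB.ZqM

/-! # GB.Zr : the zeros of an element of `F ⊗ R`, as points of the curve over `F` (80 lines)

`zk f` = the zeros of `f ∈ R` over `K`, `zr x` = the zeros of `x ∈ F ⊗ R` over `F`, with multiplicities.  `quo_fin`, `quo_finrank` for `P` and `P.bc F`; `zq_card`, `mem_zq`, `zq_mul` with `J = (y)`
(`Ideal.span_singleton_mul_span_singleton`), `evF_resF`, `resF_evF`. -/

namespace GB

open Module TensorProduct

section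
variable {K R : Type} [Field K] [IsAlgClosed K] [CommRing R] [Algebra K R]

/-- the zeros of `f ∈ R` over `K` with multiplicities -/
noncomputable def zk (K : Type) {R : Type} [Field K] [IsAlgClosed K] [CommRing R] [Algebra K R] (f : R) : Multiset (R →ₐ[K] K) :=
  zq K (Ideal.span {f})

theorem zk_card (P : OnePt K R) {f : R} (hf : f ≠ 0) : (zk K f).card = P.deg f := by
  have := quo_fin P hf
  rw [zk, zq_card, quo_finrank P hf]

theorem mem_zk (P : OnePt K R) {f : R} (hf : f ≠ 0) (c : R →ₐ[K] K) : c ∈ zk K f ↔ c f = 0 := by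
  have := quo_fin P hf
  rw [zk, mem_zq]
  constructor
  · intro h
    exact h f (Ideal.mem_span_singleton_self f)
  · intro h a ha
    obtain ⟨b, rfl⟩ := Ideal.mem_span_singleton.1 ha
    rw [map_mul, h, zero_mul]

theorem zk_mul (P : OnePt K R) {f g : R} (hf : f ≠ 0) (hg : g ≠ 0) : zk K (f * g) = zk K f + zk K g := by
  have := quo_fin P hf
  have := quo_fin P hg
  have := isDomain P
  have h := (zq_mul K hf (Ideal.span {g})).2
  rw [Ideal.span_singleton_mul_span_singleton] at h
  exact h
end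

section
variable {K R F : Type} [Field K] [CommRing R] [Algebra K R] [Field F] [Algebra K F]

/-- a point over `K` as a point over `F` -/
noncomputable def cF (F : Type) [Field F] [Algebra K F] (c : R →ₐ[K] K) : R →ₐ[K] F := (Algebra.ofId K F).comp c

@[simp] theorem cF_apply (c : R →ₐ[K] K) (f : R) : cF F c f = algebraMap K F (c f) := rfl

theorem cF_inj : Function.Injective (cF F : (R →ₐ[K] K) → (R →ₐ[K] F)) := by
  intro c c' h
  refine AlgHom.ext fun f => ?_
  have h1 := congrArg (fun β : R →ₐ[K] F => β f) h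
  simp only [cF_apply] at h1
  exact (algebraMap K F).injective h1

theorem evF_cF (c : R →ₐ[K] K) (f : R) : evF (cF F c) (1 ⊗ₜ f) = algebraMap K F (c f) := by
  simp

variable [IsAlgClosed F]

/-- the zeros of `x ∈ F ⊗ R` -/
noncomputable def zr (x : F ⊗[K] R) : Multiset (R →ₐ[K] F) := (zq F (Ideal.span {x})).map resF

theorem zr_card (P : OnePt K R) {x : F ⊗[K] R} (hx : x ≠ 0) : (zr x).card = (P.bc F).deg x := by
  have := quo_fin (P.bc F) hx
  rw [zr, Multiset.card_map, zq_card, quo_finrank (P.bc F) hx]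

theorem mem_zr (P : OnePt K R) {x : F ⊗[K] R} (hx : x ≠ 0) (β : R →ₐ[K] F) : β ∈ zr x ↔ evF β x = 0 := by
  have := quo_fin (P.bc F) hx
  rw [zr, Multiset.mem_map]
  constructor
  · rintro ⟨χ, hχ, rfl⟩
    rw [evF_resF]
    exact (mem_zq F _ χ).1 hχ x (Ideal.mem_span_singleton_self x)
  · intro h
    refine ⟨evF β, ?_, resF_evF β⟩
    rw [mem_zq]
    intro a ha
    obtain ⟨b, rfl⟩ := Ideal.mem_span_singleton.1 ha
    rw [map_mul, h, zero_mul]

theorem zr_mul (P : OnePt K R) {x y : F ⊗[K] R} (hx : x ≠ 0) (hy : y ≠ 0) : zr (x * y) = zr x + zr y := by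
  have := quo_fin (P.bc F) hx
  have := quo_fin (P.bc F) hy
  have := isDomain (P.bc F)
  have h := (zq_mul F hx (Ideal.span {y})).2
  rw [Ideal.span_singleton_mul_span_singleton] at h
  rw [zr, zr, zr, h, Multiset.map_add]

/-- the product of the values of `f` on the zeros of `x` is the norm of `f` (`zq_prod`) -/
theorem zr_prod (P : OnePt K R) {x : F ⊗[K] R} (hx : x ≠ 0) (f : R) :
    ((zr x).map fun β => β f).prod = Algebra.norm F (Ideal.Quotient.mk (Ideal.span {x}) ((1 : F) ⊗ₜ[K] f)) := by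
  have := quo_fin (P.bc F) hx
  rw [← zq_prod F (Ideal.span {x}) ((1 : F) ⊗ₜ[K] f), zr, Multiset.map_map]
  rfl

end

end GB
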