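import Pool.Agent.H99.GB.Pen
import Pool.Agent.H99.GB.Zr

/-! # GB.FLx : the functions `f_L = (L+1)^2 a^3 - 4 L b^2` (130 lines)

`fL_ne`: linear independence (`(L+1)^2` and `4 L` are not both zero).  `fL_deg`: `deg_pow`, `deg_smul`, `deg_sub`.
`fL_ord`: `reg` says: the multiplicity at a point `c ∈ U` is ultrametric.  The multiplicity of `c` in `zk (a^3)` is three times that in `zk a` (`zk_mul`), so `≥ 12 U(c)`; the same for `b^2`; `zk` does not change under multiplication by a
nonzero constant (`zk_mul`, `zk_card` of a constant is `0`); if `(L+1)^2 = 0` or `L = 0` there is only one term.  Compare multiplicities (`Multiset.le_iff_count`, `classical`).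
`fL_fin`: `b_i f_L = (L+1)^2 (b_i a)^3 - 4 L (b_i b)^2` is a nonzero polynomial in `L` (leading coefficient `(b_i a)^3`). -/

namespace GB

open Module TensorProduct

variable {K R : Type} [Field K] [IsAlgClosed K] [CommRing R] [Algebra K R] {P : OnePt K R} {k r : ℕ}

/-- orders of vanishing at the points of `U` are ultrametric (smooth points) -/
def Reg (K : Type) {R : Type} [Field K] [IsAlgClosed K] [CommRing R] [Algebra K R] (U : Multiset (R →ₐ[K] K)) : Prop :=
  ∀ c ∈ U, ∀ f g : R, f ≠ 0 → g ≠ 0 → f + g ≠ 0 → ∀ j : ℕ, j • ({c} : Multiset (R →ₐ[K] K)) ≤ zk K f →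
    j • ({c} : Multiset (R →ₐ[K] K)) ≤ zk K g → j • ({c} : Multiset (R →ₐ[K] K)) ≤ zk K (f + g)

/-- `(L+1)^2 a^3 - 4 L b^2` -/
noncomputable def fL (a b : R) (L : K) : R := (L + 1) ^ 2 • a ^ 3 - (4 * L) • b ^ 2

private theorem fL_deg_smul_le (P : OnePt K R) (c : K) (f : R) : P.deg (c • f) ≤ P.deg f := by
  by_cases hc : c = 0
  · rw [hc, zero_smul, P.deg_zero]
    exact Nat.zero_le _
  · rw [deg_smul P hc]

private theorem fL_deg_pow_le (P : OnePt K R) (f : R) (n : ℕ) (hn : n ≠ 0) : P.deg (f ^ n) ≤ n * P.deg f := by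
  by_cases hf : f = 0
  · rw [hf, zero_pow hn, P.deg_zero]
    exact Nat.zero_le _
  · rw [deg_pow P hf]

private theorem fL_zk_smul (P : OnePt K R) {c : K} (hc : c ≠ 0) {f : R} (hf : f ≠ 0) : zk K (c • f) = zk K f := by
  have hc' : algebraMap K R c ≠ 0 := by
    intro h
    have h1 := P.lc_const c
    rw [h, P.lc_zero] at h1
    exact hc h1.symm
  have h1 : zk K (algebraMap K R c) = 0 := by
    rw [← Multiset.card_eq_zero, zk_card P hc', P.deg_const]
  rw [Algebra.smul_def, zk_mul P hc' hf, h1, zero_add]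

private theorem fL_zk_pow (P : OnePt K R) {f : R} (hf : f ≠ 0) (n : ℕ) : zk K (f ^ n) = n • zk K f := by
  have := isDomain P
  induction n with
  | zero =>
    have h0 : (1 : R) ≠ 0 := one_ne_zero
    rw [pow_zero, zero_smul, ← Multiset.card_eq_zero, zk_card P h0, deg_one]
  | succ n ih => rw [pow_succ, zk_mul P (pow_ne_zero n hf) hf, ih, succ_nsmul]

variable {a b : R} (hab : ∀ c d : K, c • a ^ 3 = d • b ^ 2 → c = 0 ∧ d = 0)

include hab in
theorem fL_ne [CharZero K] (L : K) : fL a b L ≠ 0 := by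
  intro h
  obtain ⟨h1, h2⟩ := hab _ _ (sub_eq_zero.mp h)
  have h3 : L = 0 := by
    rcases mul_eq_zero.mp h2 with h4 | h4
    · exact absurd h4 (by norm_num)
    · exact h4
  rw [h3] at h1
  norm_num at h1

theorem fL_deg (P : OnePt K R) {m : ℕ} (ha : P.deg a ≤ 4 * m) (hb : P.deg b ≤ 6 * m) (L : K) : P.deg (fL a b L) ≤ 12 * m := by
  unfold fL
  refine (P.deg_sub _ _).trans (max_le ?_ ?_)
  · have h1 := (fL_deg_smul_le P ((L + 1) ^ 2) (a ^ 3)).trans (fL_deg_pow_le P a 3 (by norm_num))
    omega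
  · have h1 := (fL_deg_smul_le P (4 * L) (b ^ 2)).trans (fL_deg_pow_le P b 2 (by norm_num))
    omega

include hab in
theorem fL_ord [CharZero K] (P : OnePt K R) {U : Multiset (R →ₐ[K] K)} (hU : Reg K U) (hUa : 4 • U ≤ zk K a) (hUb : 6 • U ≤ zk K b) (L : K) :
    12 • U ≤ zk K (fL a b L) := by
  classical
  have hR := isDomain P
  have ha : a ≠ 0 := by
    rintro rfl
    have h1 := (hab 1 0 (by simp)).1
    exact one_ne_zero h1
  have hb : b ≠ 0 := by
    rintro rfl
    have h1 := (hab 0 1 (by simp)).2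
    exact one_ne_zero h1
  have ha3 : a ^ 3 ≠ 0 := pow_ne_zero 3 ha
  have hb2 : b ^ 2 ≠ 0 := pow_ne_zero 2 hb
  have hca : ∀ c, 12 * Multiset.count c U ≤ Multiset.count c (zk K (a ^ 3)) := by
    intro c
    have h1 := Multiset.le_iff_count.mp hUa c
    rw [Multiset.count_nsmul] at h1
    rw [fL_zk_pow P ha, Multiset.count_nsmul]
    omega
  have hcb : ∀ c, 12 * Multiset.count c U ≤ Multiset.count c (zk K (b ^ 2)) := by
    intro c
    have h1 := Multiset.le_iff_count.mp hUb c
    rw [Multiset.count_nsmul] at h1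
    rw [fL_zk_pow P hb, Multiset.count_nsmul]
    omega
  have hfe : fL a b L = (L + 1) ^ 2 • a ^ 3 + (-(4 * L)) • b ^ 2 := by
    unfold fL
    rw [neg_smul, ← sub_eq_add_neg]
  have hne := fL_ne hab L
  rw [Multiset.le_iff_count]
  intro c
  rw [Multiset.count_nsmul]
  by_cases hcU : c ∈ U
  · by_cases h1 : (L + 1) ^ 2 = 0
    · by_cases h2 : (-(4 * L)) = 0
      · exfalso
        rw [hfe, h1, h2, zero_smul, zero_smul, add_zero] at hne
        exact hne rfl
      · rw [hfe, h1, zero_smul, zero_add, fL_zk_smul P h2 hb2]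
        exact hcb c
    · by_cases h2 : (-(4 * L)) = 0
      · rw [hfe, h2, zero_smul, add_zero, fL_zk_smul P h1 ha3]
        exact hca c
      · have h3 := hU c hcU ((L + 1) ^ 2 • a ^ 3) ((-(4 * L)) • b ^ 2) (smul_ne_zero h1 ha3) (smul_ne_zero h2 hb2)
          (by rw [← hfe]; exact hne) (12 * Multiset.count c U)
          (by rw [fL_zk_smul P h1 ha3, Multiset.nsmul_singleton, ← Multiset.le_count_iff_replicate_le]; exact hca c)
          (by rw [fL_zk_smul P h2 hb2, Multiset.nsmul_singleton, ← Multiset.le_count_iff_replicate_le]; exact hcb c)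
        rw [← hfe, Multiset.nsmul_singleton, ← Multiset.le_count_iff_replicate_le] at h3
        exact h3
  · rw [Multiset.count_eq_zero_of_notMem hcU, mul_zero]
    exact Nat.zero_le _

theorem fL_fin (E : Pen P k r) (ha0 : ∀ i, E.b i a ≠ 0) : {L : K | ∃ i, E.b i (fL a b L) = 0}.Finite := by
  have h1 : {L : K | ∃ i, E.b i (fL a b L) = 0} = ⋃ i, {L : K | E.b i (fL a b L) = 0} := by
    ext L
    simp
  rw [h1]
  refine Set.finite_iUnion fun i => ?_
  have hp : (Polynomial.C (E.b i a ^ 3) * (Polynomial.X + 1) ^ 2 - Polynomial.C (4 * E.b i b ^ 2) * Polynomial.X :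
      Polynomial K) ≠ 0 := by
    intro h0
    have h2 := congrArg (fun q => Polynomial.eval (-1 : K) q) h0
    have h3 := congrArg (fun q => Polynomial.eval (0 : K) q) h0
    simp only [Polynomial.eval_sub, Polynomial.eval_mul, Polynomial.eval_C, Polynomial.eval_pow, Polynomial.eval_add,
      Polynomial.eval_X, Polynomial.eval_one, Polynomial.eval_zero] at h2 h3
    have h4 : E.b i a ^ 3 = 0 := by linear_combination h3
    exact ha0 i (pow_eq_zero_iff (by norm_num) |>.mp h4)
  refine (Polynomial.finite_setOfPred_isRoot hp).subset fun L hL => ?_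
  have hL' : E.b i (fL a b L) = 0 := hL
  change Polynomial.eval L _ = 0
  simp only [Polynomial.eval_sub, Polynomial.eval_mul, Polynomial.eval_C, Polynomial.eval_pow, Polynomial.eval_add,
      Polynomial.eval_X, Polynomial.eval_one]
  unfold fL at hL'
  rw [map_sub, map_smul, map_smul, map_pow, map_pow, smul_eq_mul, smul_eq_mul] at hL'
  linear_combination hL'

end GB
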