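import Pool.Agent.H99.GB.Red

/-! # GB.Inf : a point which is not integral at a place goes to the point at infinity (120 lines)

`V` = the valuation ring, `f₀ ∈ R` with `β f₀ ∉ V`, `u = (β f₀)⁻¹` reduces to `0`, `d = deg f₀ > 0` (constants are integral).
(1) For `m ≥ m₀` (all degrees `> (m - 1) d` occur) every `r ∈ R` with `deg r ≤ (m + 1) d` is `f₀ r₁ + r₂` with `deg r₁, deg r₂ ≤ m d` (subtract leading terms of degree in `(m d, (m+1) d]`: `c • f₀ e_(j - d)`).
(2) Let `M ⊆ Om K` be the `V`-span of the finitely many `β (e_j) u ^ m₀`, `j ≤ m₀ d`.  By (1) and induction `β r * u ^ m ∈ M` for all `m ≥ m₀`, `deg r ≤ m d` (as `u ∈ V`).  `M` is a finitely generated `V`-module, closed under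
multiplication (`β r u ^ m₀ * β r' u ^ m₀ = β (r r') u ^ (2 m₀)`), contains `1 = β (f₀ ^ m₀) u ^ m₀`: a subring, so its elements are integral over `V` and `M ⊆ V` (`V` is integrally closed).  Hence: `deg r ≤ m d → β r * u ^ m ∈ V` for all `m`
(for `m < m₀` use `r ^ i`, `i m ≥ m₀`, or replace `r` by `f₀ ^ (m₀ - m) r`).
(3) `deg r < m d → β r * u ^ m` reduces to `0`: its `d`-th power is `u * (β (r ^ d) * u ^ (m d - 1))` with `deg (r ^ d) ≤ d (m d - 1)`.
(4) `deg g = deg h = j`: `h ^ d = c f₀ ^ j + lower`, `g ^ d = c' f₀ ^ j + lower` (`lead`), so `β (h ^ d) u ^ j` reduces to `c ≠ 0`; hence `β h ≠ 0` and `(β g / β h)` integral; and `g = (lc g / lc h) h + (deg < j)`; for `deg g < deg h`: `(β g / β h) ^ d =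
(β g ^ d u ^ (deg h)) / (β h ^ d u ^ (deg h))` reduces to `0 / c`. -/

namespace GB

open Module TensorProduct H68.BB

variable {K R : Type} [Field K] [CommRing R] [Algebra K R] {π : Place K (Om K)}

/-- the value of a linear combination with constant coefficients -/
private theorem inf_val_const (π : Place K (Om K)) (c : K) : π.V.valuation (algebraMap K (Om K) c) ≤ 1 := by
  obtain ⟨h, -⟩ := π.const c
  exact (π.V.valuation_le_one_iff _).2 h

private theorem inf_root {x : Om K} {d : ℕ} (hd : 0 < d) (h : Rd π.V π.φ (x ^ d) 0) : Rd π.V π.φ x 0 := by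
  have := π.isLocal
  by_cases hx : x ∈ π.V
  · have h1 : Rd π.V π.φ x (π.φ ⟨x, hx⟩) := Rd.of_mem hx
    have h2 := (h1.pow d).unique h
    rw [pow_eq_zero_iff hd.ne'] at h2
    rw [h2] at h1
    exact h1
  · exfalso
    have h1 : Rd π.V π.φ x⁻¹ 0 := Rd.inv_zero hx
    have hx0 : x ≠ 0 := by
      rintro rfl
      exact hx π.V.zero_mem
    have h2 := (h1.pow d).mul h
    rw [← mul_pow, inv_mul_cancel₀ hx0, one_pow, mul_zero] at h2
    exact one_ne_zero (Rd.one.unique h2)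

private theorem inf_split (P : OnePt K R) {f₀ : R} (hf : f₀ ≠ 0) {N m : ℕ}
    (hN : ∀ j, N ≤ j → j ∈ P.D) (hm : N + P.deg f₀ ≤ m * P.deg f₀ + 1) (k : ℕ) (hk : k ≤ (m + 1) * P.deg f₀ + 1)
    (r : R) (hr : P.Lt k r) : ∃ r₁ r₂ : R, P.Lt (m * P.deg f₀ + 1) r₁ ∧ P.Lt (m * P.deg f₀ + 1) r₂ ∧ r = f₀ * r₁ + r₂ := by
  induction k generalizing r with
  | zero =>
    rcases hr with hr | hr
    · exact ⟨0, 0, Or.inl rfl, Or.inl rfl, by rw [hr, mul_zero, add_zero]⟩
    · exact absurd hr (Nat.not_lt_zero _)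
  | succ k ih =>
    by_cases h1 : P.Lt k r
    · exact ih (by omega) r h1
    · have hr0 : r ≠ 0 := fun h => h1 (Or.inl h)
      have hd : P.deg r = k := by
        rcases hr with hr | hr
        · exact absurd hr hr0
        · by_contra hne
          exact h1 (Or.inr (by omega))
      by_cases h2 : k ≤ m * P.deg f₀
      · exact ⟨0, r, Or.inl rfl, Or.inr (by omega), by rw [mul_zero, zero_add]⟩
      · have h3 : (m + 1) * P.deg f₀ = m * P.deg f₀ + P.deg f₀ := by ring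
        obtain ⟨e, he, hed⟩ := hN (k - P.deg f₀) (by omega)
        have := isDomain P
        have hfe : f₀ * e ≠ 0 := mul_ne_zero hf he
        have hdeg : P.deg r = P.deg (f₀ * e) := by
          rw [P.deg_mul hf he, hed, hd]
          omega
        have hl := lead P hr0 hfe hdeg
        rw [hd] at hl
        obtain ⟨r₁, r₂, h4, h5, h6⟩ := ih (by omega) _ hl
        refine ⟨r₁ + (P.lc r / P.lc (f₀ * e)) • e, r₂, ?_, h5, ?_⟩
        · refine Lt.add P h4 (Lt.smul P (Or.inr ?_) _)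
          rw [hed]
          omega
        · have h7 : f₀ * ((P.lc r / P.lc (f₀ * e)) • e) = (P.lc r / P.lc (f₀ * e)) • (f₀ * e) :=
            mul_smul_comm _ _ _
          rw [mul_add, h7, add_right_comm, ← h6, sub_add_cancel]

private theorem inf_mem (P : OnePt K R) {β : R →ₐ[K] Om K} {f₀ : R} (h0 : β f₀ ∉ π.V) (hf : f₀ ≠ 0)
    (m : ℕ) (r : R) (hr : P.Lt (m * P.deg f₀ + 1) r) : β r * (β f₀)⁻¹ ^ m ∈ π.V := by
  classical
  have hb0 : β f₀ ≠ 0 := by
    intro h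
    rw [h] at h0
    exact h0 π.V.zero_mem
  have hu : (β f₀)⁻¹ ∈ π.V := (π.V.mem_or_inv_mem _).resolve_left h0
  obtain ⟨N, hN⟩ := P.big
  have hND : ∀ j, N ≤ j → j ∈ P.D := fun j hj => hN j hj
  have hd0 : 0 < P.deg f₀ := by
    rcases Nat.eq_zero_or_pos (P.deg f₀) with h | h
    · exfalso
      rw [const_of_deg P h, AlgHom.commutes] at h0
      obtain ⟨h1, -⟩ := π.const (P.lc f₀)
      exact h0 h1
    · exact h
  set d := P.deg f₀ with hd
  set v := π.V.valuation with hv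
  let m₀ : ℕ := N + 1
  have hm₀ : ∀ m, m₀ ≤ m → N + d ≤ m * d + 1 := by
    intro m hm
    have h1 : m₀ * d ≤ m * d := Nat.mul_le_mul_right d hm
    have h2 : m₀ * d = N * d + d := by simp only [m₀]; ring
    have h3 : N ≤ N * d := Nat.le_mul_of_pos_right N hd0
    omega
  -- the finite set of basis elements of degree at most `m₀ d`
  have hfin : {j : P.D | (j : ℕ) ≤ m₀ * d}.Finite := by
    have h1 : {j : P.D | (j : ℕ) ≤ m₀ * d} = (fun j : P.D => (j : ℕ)) ⁻¹' (Set.Iic (m₀ * d)) := rfl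
    rw [h1]
    exact (Set.finite_Iic _).preimage (Subtype.val_injective.injOn)
  have hne : hfin.toFinset.Nonempty := by
    refine ⟨⟨0, zero_mem_D P⟩, ?_⟩
    rw [Set.Finite.mem_toFinset]
    exact Nat.zero_le _
  obtain ⟨j₀, hj₀, hmax⟩ := hfin.toFinset.exists_max_image (fun j => v (β (P.e j) * (β f₀)⁻¹ ^ m₀)) hne
  rw [Set.Finite.mem_toFinset] at hj₀
  have hj₀' : (j₀ : ℕ) ≤ m₀ * d := hj₀
  set C := v (β (P.e j₀) * (β f₀)⁻¹ ^ m₀) with hC
  have hbase : ∀ r : R, P.Lt (m₀ * d + 1) r → v (β r * (β f₀)⁻¹ ^ m₀) ≤ C := by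
    intro r hr
    have h1 : β r * (β f₀)⁻¹ ^ m₀ = ∑ j ∈ (P.e.repr r).support,
        algebraMap K (Om K) (P.e.repr r j) * (β (P.e j) * (β f₀)⁻¹ ^ m₀) := by
      conv_lhs => rw [← P.e.linearCombination_repr r]
      rw [Finsupp.linearCombination_apply, Finsupp.sum, map_sum, Finset.sum_mul]
      refine Finset.sum_congr rfl fun j _ => ?_
      rw [map_smul, Algebra.smul_def, mul_assoc]
    rw [h1]
    refine v.map_sum_le fun j hj => ?_
    rw [map_mul]
    have h2 : j ∈ hfin.toFinset := by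
      rw [Set.Finite.mem_toFinset]
      by_contra h3
      have h4 : ¬ (j : ℕ) ≤ m₀ * d := h3
      exact (Finsupp.mem_support_iff.1 hj) ((lt_iff P _ r).1 hr j (by omega))
    calc v (algebraMap K (Om K) (P.e.repr r j)) * v (β (P.e j) * (β f₀)⁻¹ ^ m₀)
        ≤ 1 * C := mul_le_mul' (inf_val_const π _) (hmax j h2)
      _ = C := one_mul C
  have hstep : ∀ m, m₀ ≤ m → ∀ r : R, P.Lt (m * d + 1) r → v (β r * (β f₀)⁻¹ ^ m) ≤ C := by
    intro m hm
    induction m, hm using Nat.le_induction with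
    | base => exact hbase
    | succ m hm ih =>
      intro r hr
      obtain ⟨r₁, r₂, h1, h2, h3⟩ := inf_split P hf hND (hm₀ m hm) _ le_rfl r hr
      have h4 : β r * (β f₀)⁻¹ ^ (m + 1) = β r₁ * (β f₀)⁻¹ ^ m + (β f₀)⁻¹ * (β r₂ * (β f₀)⁻¹ ^ m) := by
        rw [h3, map_add, map_mul, add_mul, pow_succ]
        congr 1
        · calc β f₀ * β r₁ * ((β f₀)⁻¹ ^ m * (β f₀)⁻¹) = β r₁ * (β f₀)⁻¹ ^ m * (β f₀ * (β f₀)⁻¹) := by ring
            _ = _ := by rw [mul_inv_cancel₀ hb0, mul_one]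
        · ring
      rw [h4]
      refine (v.map_add _ _).trans (max_le (ih r₁ h1) ?_)
      rw [map_mul]
      calc v (β f₀)⁻¹ * v (β r₂ * (β f₀)⁻¹ ^ m) ≤ 1 * C :=
            mul_le_mul' ((π.V.valuation_le_one_iff _).2 hu) (ih r₂ h2)
        _ = C := one_mul C
  have hC1 : 1 ≤ C := by
    have h1 : P.Lt (m₀ * d + 1) (f₀ ^ m₀) := by
      right
      rw [deg_pow P hf]
      exact Nat.lt_succ_self _
    have h2 := hbase _ h1
    rw [map_pow, ← mul_pow, mul_inv_cancel₀ hb0, one_pow, map_one] at h2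
    exact h2
  have hC2 : C * C ≤ C := by
    have := nontrivial P
    have h1 : P.Lt ((m₀ + m₀) * d + 1) (P.e j₀ * P.e j₀) := by
      right
      rw [P.deg_mul (P.e.ne_zero j₀) (P.e.ne_zero j₀), deg_e]
      have : (m₀ + m₀) * d = m₀ * d + m₀ * d := by ring
      omega
    have h2 := hstep (m₀ + m₀) (by omega) _ h1
    have h3 : β (P.e j₀ * P.e j₀) * (β f₀)⁻¹ ^ (m₀ + m₀) =
        (β (P.e j₀) * (β f₀)⁻¹ ^ m₀) * (β (P.e j₀) * (β f₀)⁻¹ ^ m₀) := by
      rw [map_mul, pow_add]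
      ring
    rw [h3, map_mul] at h2
    exact h2
  have hC3 : C ≤ 1 := by
    have h1 : C * C ≤ C * 1 := by rw [mul_one]; exact hC2
    exact le_of_mul_le_mul_left h1 (lt_of_lt_of_le zero_lt_one hC1)
  rw [← π.V.valuation_le_one_iff]
  by_cases hm : m₀ ≤ m
  · exact (hstep m hm r hr).trans hC3
  · have h1 : β r * (β f₀)⁻¹ ^ m = β (f₀ ^ (m₀ - m) * r) * (β f₀)⁻¹ ^ m₀ := by
      have h2 : m₀ = (m₀ - m) + m := by omega
      conv_rhs => rw [h2]
      rw [map_mul, map_pow, pow_add, Nat.add_sub_cancel]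
      calc β r * (β f₀)⁻¹ ^ m = (β f₀ * (β f₀)⁻¹) ^ (m₀ - m) * (β r * (β f₀)⁻¹ ^ m) := by
            rw [mul_inv_cancel₀ hb0, one_pow, one_mul]
        _ = _ := by rw [mul_pow]; ring
    rw [h1]
    refine (hbase _ ?_).trans hC3
    rcases hr with hr | hr
    · left
      rw [hr, mul_zero]
    · by_cases hr0 : r = 0
      · left
        rw [hr0, mul_zero]
      · right
        have := isDomain P
        rw [P.deg_mul (pow_ne_zero _ hf) hr0, deg_pow P hf]
        have h3 : (m₀ - m) * d + m * d = m₀ * d := by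
          rw [← add_mul]
          congr 1
          omega
        have h4 : P.deg f₀ = d := rfl
        rw [h4]
        omega

private theorem inf_dpos (P : OnePt K R) {β : R →ₐ[K] Om K} {f₀ : R} (h0 : β f₀ ∉ π.V) : 0 < P.deg f₀ := by
  rcases Nat.eq_zero_or_pos (P.deg f₀) with h | h
  · exfalso
    rw [const_of_deg P h, AlgHom.commutes] at h0
    obtain ⟨h1, -⟩ := π.const (P.lc f₀)
    exact h0 h1
  · exact h

private theorem inf_fne {β : R →ₐ[K] Om K} {f₀ : R} (h0 : β f₀ ∉ π.V) : f₀ ≠ 0 := by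
  rintro rfl
  rw [map_zero] at h0
  exact h0 π.V.zero_mem

private theorem inf_rd0 (P : OnePt K R) {β : R →ₐ[K] Om K} {f₀ : R} (h0 : β f₀ ∉ π.V) {m : ℕ} {r : R}
    (hr : P.Lt (m * P.deg f₀) r) : Rd π.V π.φ (β r * (β f₀)⁻¹ ^ m) 0 := by
  have := π.isLocal
  have := isDomain P
  have hf := inf_fne h0
  have hd := inf_dpos P h0
  rcases hr with hr | hr
  · rw [hr, map_zero, zero_mul]
    exact Rd.zero
  · by_cases hr0 : r = 0
    · rw [hr0, map_zero, zero_mul]
      exact Rd.zero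
    · refine inf_root hd ?_
      have hmd : m * P.deg f₀ = (m * P.deg f₀ - 1) + 1 := by omega
      have h1 : P.Lt ((m * P.deg f₀ - 1) * P.deg f₀ + 1) (r ^ P.deg f₀) := by
        right
        rw [deg_pow P hr0]
        have h2 : P.deg r ≤ m * P.deg f₀ - 1 := by omega
        have h3 := Nat.mul_le_mul_left (P.deg f₀) h2
        rw [mul_comm (m * P.deg f₀ - 1)]
        omega
      have h2 := inf_mem P h0 hf _ _ h1
      have h3 : (β r * (β f₀)⁻¹ ^ m) ^ P.deg f₀ =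
          (β f₀)⁻¹ * (β (r ^ P.deg f₀) * (β f₀)⁻¹ ^ (m * P.deg f₀ - 1)) := by
        rw [mul_pow, ← pow_mul, map_pow]
        conv_lhs => rw [hmd, pow_succ]
        ring
      rw [h3]
      have h4 := (Rd.inv_zero (V := π.V) (φ := π.φ) h0).mul (Rd.of_mem (φ := π.φ) h2)
      rwa [zero_mul] at h4

private theorem inf_top (P : OnePt K R) {β : R →ₐ[K] Om K} {f₀ : R} (h0 : β f₀ ∉ π.V) {h : R} (hh : h ≠ 0) :
    ∃ c : K, c ≠ 0 ∧ Rd π.V π.φ ((β h) ^ P.deg f₀ * (β f₀)⁻¹ ^ P.deg h) c := by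
  have := isDomain P
  have hf := inf_fne h0
  have hb0 : β f₀ ≠ 0 := by
    intro h
    rw [h] at h0
    exact h0 π.V.zero_mem
  have h1 : h ^ P.deg f₀ ≠ 0 := pow_ne_zero _ hh
  have h2 : f₀ ^ P.deg h ≠ 0 := pow_ne_zero _ hf
  have h3 : P.deg (h ^ P.deg f₀) = P.deg (f₀ ^ P.deg h) := by
    rw [deg_pow P hh, deg_pow P hf, mul_comm]
  have h4 := lead P h1 h2 h3
  refine ⟨P.lc (h ^ P.deg f₀) / P.lc (f₀ ^ P.deg h), div_ne_zero (P.lc_ne h1) (P.lc_ne h2), ?_⟩
  set c := P.lc (h ^ P.deg f₀) / P.lc (f₀ ^ P.deg h) with hc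
  rw [h3, deg_pow P hf] at h4
  have h5 := inf_rd0 P h0 h4
  have h6 : (β h) ^ P.deg f₀ * (β f₀)⁻¹ ^ P.deg h = algebraMap K (Om K) c +
      β (h ^ P.deg f₀ - c • f₀ ^ P.deg h) * (β f₀)⁻¹ ^ P.deg h := by
    rw [map_sub, map_smul, map_pow, map_pow, sub_mul, Algebra.smul_def, mul_assoc, ← mul_pow,
      mul_inv_cancel₀ hb0, one_pow, mul_one]
    ring
  rw [h6]
  have h8 : Rd π.V π.φ (algebraMap K (Om K) c) c := π.const c
  have h7 := h8.add h5
  rwa [add_zero] at h7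

theorem inf_inj (P : OnePt K R) {β : R →ₐ[K] Om K} {f₀ : R} (h0 : β f₀ ∉ π.V) {h : R} (hh : h ≠ 0) : β h ≠ 0 := by
  obtain ⟨c, hc, h1⟩ := inf_top P h0 hh
  have h2 := h1.ne_zero hc
  intro h3
  rw [h3, zero_pow (inf_dpos P h0).ne', zero_mul] at h2
  exact h2 rfl

theorem inf_lt (P : OnePt K R) {β : R →ₐ[K] Om K} {f₀ : R} (h0 : β f₀ ∉ π.V) {g h : R} (hh : h ≠ 0) (hg : P.Lt (P.deg h) g) :
    Rd π.V π.φ (β g / β h) 0 := by
  have := π.isLocal
  have hd := inf_dpos P h0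
  have hb0 : β f₀ ≠ 0 := by
    intro h
    rw [h] at h0
    exact h0 π.V.zero_mem
  by_cases hg0 : g = 0
  · rw [hg0, map_zero, zero_div]
    exact Rd.zero
  · refine inf_root hd ?_
    obtain ⟨c, hc, h1⟩ := inf_top P h0 hh
    have hgd : P.deg g < P.deg h := hg.resolve_left hg0
    have h2 : P.Lt (P.deg h * P.deg f₀) (g ^ P.deg f₀) := by
      right
      rw [deg_pow P hg0, mul_comm (P.deg h)]
      exact Nat.mul_lt_mul_of_pos_left hgd hd
    have h3 := (inf_rd0 P h0 h2).div h1 hc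
    rw [zero_div, map_pow, mul_div_mul_right _ _ (pow_ne_zero _ (inv_ne_zero hb0)), ← div_pow] at h3
    exact h3

theorem inf_eq (P : OnePt K R) {β : R →ₐ[K] Om K} {f₀ : R} (h0 : β f₀ ∉ π.V) {g h : R} (hg : g ≠ 0) (hh : h ≠ 0)
    (hd : P.deg g = P.deg h) : Rd π.V π.φ (β g / β h) (P.lc g / P.lc h) := by
  have h1 := lead P hg hh hd
  rw [hd] at h1
  have h2 := inf_lt P h0 hh h1
  have hbh := inf_inj P h0 hh
  have h3 : β g / β h = algebraMap K (Om K) (P.lc g / P.lc h) + β (g - (P.lc g / P.lc h) • h) / β h := by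
    rw [map_sub, map_smul, Algebra.smul_def, sub_div, mul_div_assoc, div_self hbh, mul_one]
    ring
  rw [h3]
  have h5 : Rd π.V π.φ (algebraMap K (Om K) (P.lc g / P.lc h)) (P.lc g / P.lc h) := π.const _
  have h4 := h5.add h2
  rwa [add_zero] at h4

/-- every nonconstant function is then infinite -/
theorem inf_all (P : OnePt K R) {β : R →ₐ[K] Om K} {f₀ : R} (h0 : β f₀ ∉ π.V) {f : R} (hf : 0 < P.deg f) : β f ∉ π.V := by
  have := π.isLocal
  intro hV
  have hf0 : f ≠ 0 := by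
    rintro rfl
    rw [P.deg_zero] at hf
    exact absurd hf (lt_irrefl _)
  obtain ⟨c, hc, h1⟩ := inf_top P h0 hf0
  have h2 := ((Rd.of_mem (φ := π.φ) hV).pow (P.deg f₀)).mul
    ((Rd.inv_zero (V := π.V) (φ := π.φ) h0).pow (P.deg f))
  rw [zero_pow hf.ne', mul_zero] at h2
  exact hc (h1.unique h2)

/-- coordinates: a scalar `c` such that `c ^ d * β f` reduces to the leading coefficient for `deg f = d`, and to `0` for `deg f < d` -/
theorem inf_scale (P : OnePt K R) {β : R →ₐ[K] Om K} {f₀ : R} (h0 : β f₀ ∉ π.V) : ∃ c : Om K, c ≠ 0 ∧ Rd π.V π.φ c 0 ∧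
    (∀ f : R, f ≠ 0 → Rd π.V π.φ (c ^ P.deg f * β f) (P.lc f)) ∧ ∀ (f : R) (d : ℕ), P.Lt d f → Rd π.V π.φ (c ^ d * β f) 0 := by
  have := isDomain P
  have := nontrivial P
  obtain ⟨N, hN⟩ := P.big
  let a : P.D := ⟨N, hN N le_rfl⟩
  let b : P.D := ⟨N + 1, hN (N + 1) (Nat.le_succ N)⟩
  have ha : P.e a ≠ 0 := P.e.ne_zero a
  have hb : P.e b ≠ 0 := P.e.ne_zero b
  have hda : P.deg (P.e a) = N := deg_e P a
  have hdb : P.deg (P.e b) = N + 1 := deg_e P b
  have hla : P.lc (P.e a) = 1 := lc_e P a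
  have hlb : P.lc (P.e b) = 1 := lc_e P b
  refine ⟨β (P.e a) / β (P.e b), div_ne_zero (inf_inj P h0 ha) (inf_inj P h0 hb), ?_, ?_, ?_⟩
  · refine inf_lt P h0 hb (Or.inr ?_)
    rw [hda, hdb]
    exact Nat.lt_succ_self N
  · intro f hf
    have h1 : (β (P.e a) / β (P.e b)) ^ P.deg f * β f = β (P.e a ^ P.deg f * f) / β (P.e b ^ P.deg f) := by
      rw [map_mul, map_pow, map_pow, div_pow, div_mul_eq_mul_div]
    rw [h1]
    have h2 := inf_eq P h0 (g := P.e a ^ P.deg f * f) (h := P.e b ^ P.deg f)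
      (mul_ne_zero (pow_ne_zero _ ha) hf) (pow_ne_zero _ hb) (by
        rw [P.deg_mul (pow_ne_zero _ ha) hf, deg_pow P ha, deg_pow P hb, hda, hdb]
        ring)
    rw [P.lc_mul, lc_pow, lc_pow, hla, hlb, one_pow, one_mul, div_one] at h2
    exact h2
  · intro f d hf
    have h1 : (β (P.e a) / β (P.e b)) ^ d * β f = β (P.e a ^ d * f) / β (P.e b ^ d) := by
      rw [map_mul, map_pow, map_pow, div_pow, div_mul_eq_mul_div]
    rw [h1]
    refine inf_lt P h0 (pow_ne_zero _ hb) ?_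
    by_cases hf0 : f = 0
    · left
      rw [hf0, mul_zero]
    · right
      have h2 : P.deg f < d := hf.resolve_left hf0
      rw [P.deg_mul (pow_ne_zero _ ha) hf0, deg_pow P ha, deg_pow P hb, hda, hdb]
      have h3 : d * (N + 1) = d * N + d := by ring
      omega

end GB
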