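import Pool.Agent.H99.GB.Nrm
import Pool.Agent.H99.GB.FLx
import Pool.Agent.H71.EG.GDef

/-! # GB.NNx : the norm data of an elliptic surface (180 lines)

`a ≠ 0`, `b ≠ 0`, `a^3`, `b^2` linearly independent over `K`; `deg a ≤ 4 m`, `deg b ≤ 6 m`, orders at least `4 U`, `6 U` at the points of `U`, `n = m - card U`; the multiplicity of the zeros at a point of `U` is ultrametric (`reg`: the points of `U` are smooth).
`A = nf a (zk a - 4 U)`, `B = nf b (zk b - 6 U)` (`classical`), `NU = ∏_U lin`.  `f_L = fL a b L`: `fL_ne`, `fL_deg`, `fL_ord`; `b_i f_L ≠ 0` for all but finitely many `L` (`fL_fin`).  Choose `2k + 1` different such `L_j` and put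
`N = Σ_j C (nf f_(L_j) (zk f_(L_j) - 12 U)) * ℓ_j`, `ℓ_j ∈ K[X]` the Lagrange polynomials (`Lagrange.basis`), of degree `≤ 2k`.
`spec`: for `λ ∈ F^r` both sides are polynomials of degree `≤ 2k` over `F` with the same values at the `L_j` (`nf_eval`, `nf_split`), `card (S λ) = k`.
`pal`, `neg`: take `F = K`; for all `λ ∈ K^r` with `NU(λ) ≠ 0` the evaluated identities hold because the product of the `C c * (X+1)^2 - C d * X` is palindromic with value `∏ d` at `-1`; `NU ≠ 0` and polynomials over the infinite field `K`
which agree where `NU ≠ 0` are equal (`MvPolynomial.funext` for the product with `NU`). -/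

namespace GB

open Module TensorProduct

variable {K R : Type} [Field K] [IsAlgClosed K] [CharZero K] [CommRing R] [Algebra K R] {P : OnePt K R} {k r : ℕ} (E : Pen P k r)

open Classical in
/-- products of palindromic polynomials of degree `2` -/
private theorem pal_prod {F B : Type} [Field F] (S : Multiset B) (c d : B → F) :
    ((S.map fun s => Polynomial.C (c s) * (Polynomial.X + 1) ^ 2 - Polynomial.C (d s) * Polynomial.X).prod).natDegree ≤ 2 * S.card ∧
    Polynomial.reflect (2 * S.card) ((S.map fun s => Polynomial.C (c s) * (Polynomial.X + 1) ^ 2 -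
      Polynomial.C (d s) * Polynomial.X).prod) =
      (S.map fun s => Polynomial.C (c s) * (Polynomial.X + 1) ^ 2 - Polynomial.C (d s) * Polynomial.X).prod := by
  have hd : ∀ s, (Polynomial.C (c s) * (Polynomial.X + 1) ^ 2 - Polynomial.C (d s) * Polynomial.X).natDegree ≤ 2 := by
    intro s
    compute_degree
  have hr : ∀ s, Polynomial.reflect 2 (Polynomial.C (c s) * (Polynomial.X + 1) ^ 2 - Polynomial.C (d s) * Polynomial.X) =
      Polynomial.C (c s) * (Polynomial.X + 1) ^ 2 - Polynomial.C (d s) * Polynomial.X := by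
    intro s
    have h1 : Polynomial.C (c s) * (Polynomial.X + 1) ^ 2 - Polynomial.C (d s) * Polynomial.X =
        Polynomial.C (c s) * Polynomial.X ^ 2 + Polynomial.C (2 * c s - d s) * Polynomial.X ^ 1 +
          Polynomial.C (c s) * Polynomial.X ^ 0 := by
      rw [Polynomial.C_sub, Polynomial.C_mul, show (Polynomial.C (2 : F)) = 2 from rfl]
      ring
    rw [h1, Polynomial.reflect_add, Polynomial.reflect_add, Polynomial.reflect_C_mul_X_pow,
      Polynomial.reflect_C_mul_X_pow, Polynomial.reflect_C_mul_X_pow]
    have e0 : Polynomial.revAt 2 0 = 2 := Polynomial.revAt_le (by norm_num)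
    have e1 : Polynomial.revAt 2 1 = 1 := Polynomial.revAt_le (by norm_num)
    have e2 : Polynomial.revAt 2 2 = 0 := Polynomial.revAt_le (by norm_num)
    rw [e0, e1, e2]
    ring
  induction S using Multiset.induction_on with
  | empty =>
    constructor
    · simp
    · rw [Multiset.map_zero, Multiset.prod_zero, Multiset.card_zero, mul_zero]
      simp
  | cons s S ih =>
    rw [Multiset.map_cons, Multiset.prod_cons, Multiset.card_cons, show 2 * (S.card + 1) = 2 + 2 * S.card by ring]
    constructor
    · exact Polynomial.natDegree_mul_le.trans (Nat.add_le_add (hd s) ih.1)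
    · rw [Polynomial.reflect_mul _ _ (hd s) ih.1, hr, ih.2]

/-- polynomials which agree where `u` does not vanish -/
private theorem mv_cancel {K : Type} [Field K] [Infinite K] {r : ℕ} {p q u : MvPolynomial (Fin r) K} (hu : u ≠ 0)
    (h : ∀ lam : Fin r → K, MvPolynomial.aeval lam p * MvPolynomial.aeval lam u =
      MvPolynomial.aeval lam q * MvPolynomial.aeval lam u) : p = q := by
  apply mul_right_cancel₀ hu
  apply MvPolynomial.funext
  intro lam
  have h1 := h lam
  rw [← map_mul, ← map_mul] at h1
  exact h1

omit [CharZero K] in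
private theorem NU_ne (U : Multiset (R →ₐ[K] K)) : (U.map E.lin).prod ≠ 0 := by
  intro h
  have h1 := congrArg (MvPolynomial.aeval (0 : Fin r → K)) h
  rw [map_multiset_prod, Multiset.map_map, map_zero, Multiset.prod_eq_zero_iff, Multiset.mem_map] at h1
  obtain ⟨c, _, hc⟩ := h1
  rw [Function.comp_apply, lin_eval] at hc
  simp at hc

omit [IsAlgClosed K] [CharZero K] in
private theorem beta_fL {F : Type} [Field F] [Algebra K F] (β : R →ₐ[K] F) (a b : R) (L : K) :
    β (fL a b L) = Polynomial.eval (algebraMap K F L)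
      (Polynomial.C (β a ^ 3) * (Polynomial.X + 1) ^ 2 - Polynomial.C (4 * β b ^ 2) * Polynomial.X) := by
  simp only [Polynomial.eval_sub, Polynomial.eval_mul, Polynomial.eval_C, Polynomial.eval_pow, Polynomial.eval_add,
      Polynomial.eval_X, Polynomial.eval_one]
  unfold fL
  rw [map_sub, map_smul, map_smul, map_pow, map_pow, Algebra.smul_def, Algebra.smul_def, map_pow, map_add, map_one,
    map_mul, map_ofNat]
  ring

theorem exists_ND {m : ℕ} {U : Multiset (R →ₐ[K] K)} (hU : Reg K U) (hUb : ∀ i, E.b i ∉ U) {a b : R}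
    (hab : ∀ c d : K, c • a ^ 3 = d • b ^ 2 → c = 0 ∧ d = 0)
    (ha : P.deg a ≤ 4 * m) (hb : P.deg b ≤ 6 * m) (hUa : 4 • U ≤ zk K a) (hUb' : 6 • U ≤ zk K b)
    (ha0 : ∀ i, E.b i a ≠ 0) (hb0 : ∀ i, E.b i b ≠ 0) :
    ∃ N : H71.EG.ND K r, N.Ok (m - U.card) k ∧ ∀ (F : Type) [Field F] [IsAlgClosed F] [Algebra K F] (lam : Fin r → F),
      ((E.S lam).map fun β => β a).prod = N.vA lam * MvPolynomial.aeval lam (U.map E.lin).prod ^ 4 ∧
      ((E.S lam).map fun β => β b).prod = N.vB lam * MvPolynomial.aeval lam (U.map E.lin).prod ^ 6 ∧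
      ((E.S lam).map fun β => Polynomial.C (β a ^ 3) * (Polynomial.X + 1) ^ 2 - Polynomial.C (4 * β b ^ 2) * Polynomial.X).prod =
        N.vN lam * Polynomial.C (MvPolynomial.aeval lam (U.map E.lin).prod ^ 12) := by
  classical
  have hR := isDomain P
  have hKi : Infinite K := inferInstance
  have ha' : a ≠ 0 := by
    rintro rfl
    exact one_ne_zero (hab 1 0 (by simp)).1
  have hb' : b ≠ 0 := by
    rintro rfl
    exact one_ne_zero (hab 0 1 (by simp)).2
  -- the constants `L_j`
  obtain ⟨T, hTs, hTc⟩ := (fL_fin (a := a) (b := b) (K := K) (R := R) E ha0).infinite_compl.exists_subset_card_eq (2 * k + 1)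
  have hT : ∀ L ∈ T, ∀ i, E.b i (fL a b L) ≠ 0 := fun L hL i hi => hTs hL ⟨i, hi⟩
  have hfne : ∀ L : K, fL a b L ≠ 0 := fun L => fL_ne hab L
  -- the splittings
  have hZa : zk K a = (zk K a - 4 • U) + 4 • U := (tsub_add_cancel_of_le hUa).symm
  have hZb : zk K b = (zk K b - 6 • U) + 6 • U := (tsub_add_cancel_of_le hUb').symm
  have hZf : ∀ L : K, zk K (fL a b L) = (zk K (fL a b L) - 12 • U) + 12 • U := fun L =>
    (tsub_add_cancel_of_le (fL_ord hab P hU hUa hUb' L)).symm
  have hca : (zk K a - 4 • U).card ≤ 4 * (m - U.card) := by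
    have h1 := congrArg Multiset.card hZa
    rw [Multiset.card_add, Multiset.card_nsmul, zk_card P ha'] at h1
    omega
  have hcb : (zk K b - 6 • U).card ≤ 6 * (m - U.card) := by
    have h1 := congrArg Multiset.card hZb
    rw [Multiset.card_add, Multiset.card_nsmul, zk_card P hb'] at h1
    omega
  have hcf : ∀ L : K, (zk K (fL a b L) - 12 • U).card ≤ 12 * (m - U.card) := by
    intro L
    have h1 := congrArg Multiset.card (hZf L)
    have h2 := fL_deg P ha hb L
    rw [Multiset.card_add, Multiset.card_nsmul, zk_card P (hfne L)] at h1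
    omega
  let NU : MvPolynomial (Fin r) K := (U.map E.lin).prod
  let G : K → MvPolynomial (Fin r) K := fun L => E.nf (fL a b L) (zk K (fL a b L) - 12 • U)
  let NN : Polynomial (MvPolynomial (Fin r) K) :=
    ∑ L ∈ T, Polynomial.C (G L) * (Lagrange.basis T id L).map MvPolynomial.C
  have hNUne : NU ^ 12 ≠ 0 := pow_ne_zero _ (NU_ne E U)
  have hinj : Set.InjOn (id : K → K) T := Function.injective_id.injOn
  have hNNdeg : NN.natDegree ≤ 2 * k := by
    apply Polynomial.natDegree_sum_le_of_forall_le
    intro L hL
    refine (Polynomial.natDegree_C_mul_le _ _).trans (Polynomial.natDegree_map_le.trans ?_)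
    rw [Lagrange.natDegree_basis hinj hL, hTc]
    omega
  -- the identities
  have idA : ∀ (F : Type) [Field F] [IsAlgClosed F] [Algebra K F] (lam : Fin r → F),
      ((E.S lam).map fun β => β a).prod = MvPolynomial.aeval lam (E.nf a (zk K a - 4 • U)) * MvPolynomial.aeval lam NU ^ 4 := by
    intro F _ _ _ lam
    rw [← nf_eval E lam ha' ha0, nf_split E hZa, map_mul, map_pow]
  have idB : ∀ (F : Type) [Field F] [IsAlgClosed F] [Algebra K F] (lam : Fin r → F),
      ((E.S lam).map fun β => β b).prod = MvPolynomial.aeval lam (E.nf b (zk K b - 6 • U)) * MvPolynomial.aeval lam NU ^ 6 := by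
    intro F _ _ _ lam
    rw [← nf_eval E lam hb' hb0, nf_split E hZb, map_mul, map_pow]
  have idN : ∀ (F : Type) [Field F] [IsAlgClosed F] [Algebra K F] (lam : Fin r → F),
      ((E.S lam).map fun β => Polynomial.C (β a ^ 3) * (Polynomial.X + 1) ^ 2 - Polynomial.C (4 * β b ^ 2) * Polynomial.X).prod =
        NN.map (MvPolynomial.aeval lam : MvPolynomial (Fin r) K →ₐ[K] F).toRingHom *
          Polynomial.C (MvPolynomial.aeval lam NU ^ 12) := by
    intro F _ _ _ lam
    set φ := (MvPolynomial.aeval lam : MvPolynomial (Fin r) K →ₐ[K] F).toRingHom with hφ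
    have hinj' : Function.Injective (algebraMap K F) := (algebraMap K F).injective
    have hd := (pal_prod (E.S lam) (fun β => β a ^ 3) (fun β => 4 * β b ^ 2)).1
    rw [S_card E lam] at hd
    refine Polynomial.eq_of_degrees_lt_of_eval_finset_eq (T.image (algebraMap K F)) ?_ ?_ ?_
    · rw [Finset.card_image_of_injective _ hinj', hTc]
      refine Polynomial.degree_le_natDegree.trans_lt ?_
      exact_mod_cast Nat.lt_succ_of_le hd
    · rw [Finset.card_image_of_injective _ hinj', hTc]
      refine Polynomial.degree_le_natDegree.trans_lt ?_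
      have h1 : (NN.map φ * Polynomial.C (MvPolynomial.aeval lam NU ^ 12)).natDegree ≤ 2 * k :=
        (Polynomial.natDegree_mul_C_le _ _).trans (Polynomial.natDegree_map_le.trans hNNdeg)
      exact_mod_cast Nat.lt_succ_of_le h1
    · intro x hx
      obtain ⟨L, hL, rfl⟩ := Finset.mem_image.1 hx
      have h1 : Polynomial.eval (algebraMap K F L) ((E.S lam).map fun β => Polynomial.C (β a ^ 3) * (Polynomial.X + 1) ^ 2 -
          Polynomial.C (4 * β b ^ 2) * Polynomial.X).prod = ((E.S lam).map fun β => β (fL a b L)).prod := by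
        rw [Polynomial.eval_multiset_prod, Multiset.map_map]
        congr 1
        apply Multiset.map_congr rfl
        intro β _
        exact (beta_fL β a b L).symm
      rw [h1, ← nf_eval E lam (hfne L) (hT L hL), nf_split E (hZf L), map_mul, map_pow, Polynomial.eval_mul,
        Polynomial.eval_C]
      congr 1
      have h2 : NN.map φ = ∑ L ∈ T, Polynomial.C (φ (G L)) * (Lagrange.basis T id L).map (algebraMap K F) := by
        change (∑ L ∈ T, Polynomial.C (G L) * (Lagrange.basis T id L).map MvPolynomial.C).map φ = _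
        rw [Polynomial.map_sum]
        apply Finset.sum_congr rfl
        intro L' _
        rw [Polynomial.map_mul, Polynomial.map_C, Polynomial.map_map]
        congr 2
        ext c
        simp [hφ]
      rw [h2, Polynomial.eval_finsetSum, Finset.sum_eq_single L]
      · rw [Polynomial.eval_mul, Polynomial.eval_C, Polynomial.eval_map, Polynomial.eval₂_at_apply]
        have h3 := Lagrange.eval_basis_self hinj hL
        rw [id] at h3
        rw [h3, map_one, mul_one]
        rfl
      · intro L' hL' hne
        rw [Polynomial.eval_mul, Polynomial.eval_map, Polynomial.eval₂_at_apply]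
        have h3 := Lagrange.eval_basis_of_ne (v := (id : K → K)) hne hL
        rw [id] at h3
        rw [h3, map_zero, mul_zero]
      · intro h
        exact absurd hL h
  refine ⟨⟨E.nf a (zk K a - 4 • U), E.nf b (zk K b - 6 • U), NN⟩, ⟨(nf_deg E _ _).trans hca, (nf_deg E _ _).trans hcb, ?_,
    hNNdeg, ?_, ?_⟩, fun F _ _ _ lam => ⟨idA F lam, idB F lam, idN F lam⟩⟩
  · intro i
    rw [Polynomial.finsetSum_coeff]
    apply MvPolynomial.totalDegree_finsetSum_le
    intro L _
    rw [Polynomial.coeff_C_mul, Polynomial.coeff_map]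
    refine (MvPolynomial.totalDegree_mul _ _).trans ?_
    rw [MvPolynomial.totalDegree_C, add_zero]
    exact (nf_deg E _ _).trans (hcf L)
  · intro i hi
    apply mv_cancel hNUne
    intro lam
    have h1 := idN K lam
    have h2 := (pal_prod (E.S lam) (fun β => β a ^ 3) (fun β => 4 * β b ^ 2)).2
    rw [S_card E lam, h1] at h2
    have h3 := congrArg (fun q => Polynomial.coeff q i) h2
    simp only [Polynomial.coeff_reflect, Polynomial.coeff_mul_C, Polynomial.coeff_map] at h3
    rw [Polynomial.revAt_le hi] at h3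
    rw [map_pow]
    exact h3
  · apply mv_cancel hNUne
    intro lam
    have h1 := congrArg (Polynomial.eval (-1)) (idN K lam)
    rw [Polynomial.eval_multiset_prod, Multiset.map_map, Polynomial.eval_mul, Polynomial.eval_C] at h1
    have h2 : Polynomial.eval (-1) (NN.map (MvPolynomial.aeval lam : MvPolynomial (Fin r) K →ₐ[K] K).toRingHom) =
        MvPolynomial.aeval lam (NN.eval (-1)) := by
      have h3 := Polynomial.eval₂_at_apply (p := NN) (MvPolynomial.aeval lam : MvPolynomial (Fin r) K →ₐ[K] K).toRingHom (-1)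
      rw [map_neg, map_one, ← Polynomial.eval_map] at h3
      exact h3
    rw [h2] at h1
    have h4 : (Multiset.map ((Polynomial.eval (-1)) ∘ fun β : R →ₐ[K] K => Polynomial.C (β a ^ 3) * (Polynomial.X + 1) ^ 2 -
        Polynomial.C (4 * β b ^ 2) * Polynomial.X) (E.S lam)).prod = (2 ^ k * ((E.S lam).map fun β => β b).prod) ^ 2 := by
      have h5 : (Multiset.map ((Polynomial.eval (-1)) ∘ fun β : R →ₐ[K] K => Polynomial.C (β a ^ 3) * (Polynomial.X + 1) ^ 2 -
          Polynomial.C (4 * β b ^ 2) * Polynomial.X) (E.S lam)) = (E.S lam).map fun β => (2 * β b) ^ 2 := by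
        apply Multiset.map_congr rfl
        intro β _
        simp only [Function.comp_apply, Polynomial.eval_sub, Polynomial.eval_mul, Polynomial.eval_C, Polynomial.eval_pow,
          Polynomial.eval_add, Polynomial.eval_X, Polynomial.eval_one]
        ring
      rw [h5, Multiset.prod_map_pow, Multiset.prod_map_mul, Multiset.map_const', Multiset.prod_replicate, S_card E lam]
    rw [h4, idB K lam] at h1
    simp only [map_mul, map_pow, map_ofNat]
    rw [← h1]
    ring

end GB
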