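import Pool.Agent.H99.GB.PenP

/-! # GB.Nrm : the norm of a function on the moved points as a polynomial in `λ` (80 lines)

`lin c = 1 + Σ val c j X_j`; `nf f Z = ∏_i b_i(f) * ∏_(c ∈ Z) lin c`.
`nf_eval` is `S_prod`.  `nf_split`: `zk f = Z + j • U`.  `nf_deg`: each `lin c` has `totalDegree ≤ 1`.  `lin_zero`: at `λ = 0` all `lin c` are `1`. -/

namespace GB

open Module TensorProduct

variable {K R F : Type} [Field K] [IsAlgClosed K] [CommRing R] [Algebra K R] [Field F] [IsAlgClosed F] [Algebra K F]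
  {P : OnePt K R} {k r : ℕ} (E : Pen P k r)

/-- the linear form of a point -/
noncomputable def Pen.lin (c : R →ₐ[K] K) : MvPolynomial (Fin r) K :=
  1 + ∑ j, MvPolynomial.C (E.val c j) * MvPolynomial.X j

/-- the norm form -/
noncomputable def Pen.nf (f : R) (Z : Multiset (R →ₐ[K] K)) : MvPolynomial (Fin r) K :=
  MvPolynomial.C (∏ i, E.b i f) * (Z.map E.lin).prod

theorem lin_eval (lam : Fin r → F) (c : R →ₐ[K] K) :
    MvPolynomial.aeval lam (E.lin c) = 1 + ∑ j, lam j * algebraMap K F (E.val c j) := by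
  unfold Pen.lin
  rw [map_add, map_one, map_sum]
  congr 1
  refine Finset.sum_congr rfl fun j _ => ?_
  rw [map_mul, MvPolynomial.aeval_C, MvPolynomial.aeval_X, mul_comm]

private theorem nrm_lin_tdeg (c : R →ₐ[K] K) : (E.lin c).totalDegree ≤ 1 := by
  unfold Pen.lin
  refine (MvPolynomial.totalDegree_add _ _).trans ?_
  rw [MvPolynomial.totalDegree_one]
  refine max_le (Nat.zero_le _) ?_
  refine MvPolynomial.totalDegree_finsetSum_le fun j _ => ?_
  refine (MvPolynomial.totalDegree_mul _ _).trans ?_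
  rw [MvPolynomial.totalDegree_C, zero_add]
  exact (MvPolynomial.totalDegree_X _).le

private theorem nrm_aeval_nf (lam : Fin r → F) (f : R) (Z : Multiset (R →ₐ[K] K)) :
    MvPolynomial.aeval lam (E.nf f Z) =
      (∏ i, algebraMap K F (E.b i f)) * (Z.map fun c => MvPolynomial.aeval lam (E.lin c)).prod := by
  unfold Pen.nf
  rw [map_mul, MvPolynomial.aeval_C, map_prod, map_multiset_prod, Multiset.map_map]
  rfl

theorem nf_deg (f : R) (Z : Multiset (R →ₐ[K] K)) : (E.nf f Z).totalDegree ≤ Z.card := by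
  unfold Pen.nf
  refine (MvPolynomial.totalDegree_mul _ _).trans ?_
  rw [MvPolynomial.totalDegree_C, zero_add]
  refine (MvPolynomial.totalDegree_multiset_prod _).trans ?_
  rw [Multiset.map_map]
  have h : ∀ n ∈ Z.map (MvPolynomial.totalDegree ∘ E.lin), n ≤ 1 := by
    intro n hn
    obtain ⟨c, _, rfl⟩ := Multiset.mem_map.1 hn
    exact nrm_lin_tdeg E c
  have h1 := Multiset.sum_le_card_nsmul _ 1 h
  rw [Multiset.card_map, smul_eq_mul, mul_one] at h1
  exact h1

theorem nf_zero (f : R) (Z : Multiset (R →ₐ[K] K)) : MvPolynomial.aeval (0 : Fin r → F) (E.nf f Z) = algebraMap K F (∏ i, E.b i f) := by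
  rw [nrm_aeval_nf, map_prod]
  have h : (Z.map fun c => MvPolynomial.aeval (0 : Fin r → F) (E.lin c)) = Z.map fun _ => (1 : F) := by
    refine Multiset.map_congr rfl fun c _ => ?_
    rw [lin_eval]
    simp
  rw [h, Multiset.map_const', Multiset.prod_replicate, one_pow, mul_one]

theorem nf_eval (lam : Fin r → F) {f : R} (hf0 : f ≠ 0) (hf : ∀ i, E.b i f ≠ 0) :
    MvPolynomial.aeval lam (E.nf f (zk K f)) = ((E.S lam).map fun β => β f).prod := by
  rw [S_prod E lam hf0 hf, nrm_aeval_nf]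
  congr 2
  exact Multiset.map_congr rfl fun c _ => lin_eval E lam c

/-- `NU ^ j` splits off if `f` vanishes to order `j U` -/
theorem nf_split {f : R} {U Z : Multiset (R →ₐ[K] K)} {j : ℕ} (h : zk K f = Z + j • U) :
    E.nf f (zk K f) = E.nf f Z * ((U.map E.lin).prod) ^ j := by
  unfold Pen.nf
  rw [h, Multiset.map_add, Multiset.prod_add, Multiset.map_nsmul, Multiset.prod_nsmul, mul_assoc]

/-- the norm data of `a`, `b` (orders `4 U`, `6 U` at least): `NA`, `NB`, `NU` and the family `NN` of the norms of `(L + 1)^2 a^3 - 4 L b^2` -/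
structure ND (K : Type) [Field K] (n k r : ℕ) where
  NA : MvPolynomial (Fin r) K
  NB : MvPolynomial (Fin r) K
  NN : Polynomial (MvPolynomial (Fin r) K)
  degA : NA.totalDegree ≤ 4 * n
  degB : NB.totalDegree ≤ 6 * n
  degN : ∀ i, (NN.coeff i).totalDegree ≤ 12 * n
  natDeg : NN.natDegree ≤ 2 * k
  pal : ∀ i ≤ 2 * k, NN.coeff (2 * k - i) = NN.coeff i
  neg : NN.eval (-1) = (2 ^ k * NB) ^ 2

end GB
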