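import Pool.Agent.H99.GB.Zr

/-! # GB.Pen : moving `k` points (definitions and first properties, 120 lines)

`I = ∩ ker b_i`, `μ_j : I → R` `R`-linear of negative degree; `al λ x = 1 ⊗ x + Σ λ_j ⊗ μ_j x` for `x ∈ I`.  `al_mul`: `y μ_j x = x μ_j y`.  `al_deg`: `add_lt` for `P.bc F` (`Lt` of `λ_j ⊗ μ_j x`).
`val c j` = the value of the rational function `μ_j x / x` at the point `c`; `val_eq`: independent of `x` (`c y * c (μ x) = c x * c (μ y)`). -/

namespace GB

open Module TensorProduct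

/-- `k` points and `r` functions with poles at them and a zero at infinity -/
structure Pen {K R : Type} [Field K] [CommRing R] [Algebra K R] (P : OnePt K R) (k r : ℕ) where
  b : Fin k → (R →ₐ[K] K)
  inj : Function.Injective b
  μ : Fin r → ((⨅ i, RingHom.ker (b i) : Ideal R) →ₗ[R] R)
  li : LinearIndependent K μ
  neg : ∀ (j : Fin r) (x : (⨅ i, RingHom.ker (b i) : Ideal R)), x ≠ 0 → P.Lt (P.deg (x : R)) (μ j x)

variable {K R F : Type} [Field K] [CommRing R] [Algebra K R] [Field F] [Algebra K F]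
  {P : OnePt K R} {k r : ℕ} (E : Pen P k r)

/-- the ideal of the `k` points -/
abbrev Pen.I : Ideal R := ⨅ i, RingHom.ker (E.b i)

/-- the deformation of `x ∈ I` -/
noncomputable def Pen.al (lam : Fin r → F) (x : E.I) : F ⊗[K] R := 1 ⊗ₜ (x : R) + ∑ j, lam j ⊗ₜ E.μ j x

private theorem mu_mul (j : Fin r) (x y : E.I) : (y : R) * E.μ j x = (x : R) * E.μ j y := by
  have h1 : E.μ j ((y : R) • x) = (y : R) * E.μ j x := by rw [map_smul, smul_eq_mul]
  have h2 : E.μ j ((x : R) • y) = (x : R) * E.μ j y := by rw [map_smul, smul_eq_mul]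
  have h3 : (y : R) • x = (x : R) • y := by
    apply Subtype.ext
    change (y : R) * (x : R) = (x : R) * (y : R)
    exact mul_comm _ _
  rw [← h1, h3, h2]

theorem al_mul (lam : Fin r → F) (x y : E.I) : (1 ⊗ₜ (y : R)) * E.al lam x = (1 ⊗ₜ (x : R)) * E.al lam y := by
  unfold Pen.al
  rw [mul_add, mul_add, Finset.mul_sum, Finset.mul_sum]
  congr 1
  · rw [Algebra.TensorProduct.tmul_mul_tmul, Algebra.TensorProduct.tmul_mul_tmul, mul_comm (y : R)]
  · apply Finset.sum_congr rfl
    intro j _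
    rw [Algebra.TensorProduct.tmul_mul_tmul, Algebra.TensorProduct.tmul_mul_tmul, mu_mul E j x y]

theorem al_smul (lam : Fin r → F) (s : R) (x : E.I) : E.al lam (s • x) = (1 ⊗ₜ s) * E.al lam x := by
  unfold Pen.al
  rw [mul_add, Finset.mul_sum]
  congr 1
  · rw [Algebra.TensorProduct.tmul_mul_tmul, one_mul]
    rfl
  · apply Finset.sum_congr rfl
    intro j _
    rw [Algebra.TensorProduct.tmul_mul_tmul, one_mul, map_smul, smul_eq_mul]

private theorem lt_tmul (P : OnePt K R) {d : ℕ} {m : R} (hm : P.Lt d m) (c : F) : (P.bc F).Lt d (c ⊗ₜ[K] m) := by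
  have h1 : (P.bc F).Lt d ((1 : F) ⊗ₜ[K] m) := by
    rcases hm with h | h
    · left; rw [h, TensorProduct.tmul_zero]
    · right; rw [bc_deg]; exact h
  have h2 : c ⊗ₜ[K] m = c • ((1 : F) ⊗ₜ[K] m) := by
    rw [TensorProduct.smul_tmul', smul_eq_mul, mul_one]
  rw [h2]
  exact Lt.smul (P.bc F) h1 c

private theorem lt_sum (lam : Fin r → F) {x : E.I} (hx : x ≠ 0) (s : Finset (Fin r)) :
    (P.bc F).Lt (P.deg (x : R)) (∑ j ∈ s, lam j ⊗ₜ[K] E.μ j x) := by
  classical
  induction s using Finset.induction_on with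
  | empty => rw [Finset.sum_empty]; exact Lt.zero (P.bc F) _
  | insert a s ha ih =>
    rw [Finset.sum_insert ha]
    exact Lt.add (P.bc F) (lt_tmul P (E.neg a x hx) (lam a)) ih

private theorem al_both (lam : Fin r → F) {x : E.I} (hx : x ≠ 0) :
    (P.bc F).deg (E.al lam x) = P.deg (x : R) ∧ (P.bc F).lc (E.al lam x) = algebraMap K F (P.lc (x : R)) := by
  have h := add_lt (P.bc F) (f := (1 : F) ⊗ₜ[K] (x : R)) (g := ∑ j, lam j ⊗ₜ[K] E.μ j x)
    (by rw [bc_deg]; exact lt_sum E lam hx _)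
  rw [bc_deg, bc_lc] at h
  exact h

theorem al_ne (lam : Fin r → F) {x : E.I} (hx : x ≠ 0) : E.al lam x ≠ 0 := by
  intro h
  have h1 := (al_both E lam hx).2
  rw [h, (P.bc F).lc_zero] at h1
  have h2 : P.lc (x : R) = 0 := by
    apply (algebraMap K F).injective
    rw [map_zero, ← h1]
  exact P.lc_ne (f := (x : R)) (fun h3 => hx (Subtype.ext h3)) h2

theorem al_deg (lam : Fin r → F) {x : E.I} (hx : x ≠ 0) : (P.bc F).deg (E.al lam x) = P.deg (x : R) :=
  (al_both E lam hx).1

theorem al_lc (lam : Fin r → F) {x : E.I} (hx : x ≠ 0) : (P.bc F).lc (E.al lam x) = algebraMap K F (P.lc (x : R)) :=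
  (al_both E lam hx).2

theorem al_gal (σ : F ≃ₐ[K] F) (lam : Fin r → F) (x : E.I) : gal σ (E.al lam x) = E.al (fun j => σ (lam j)) x := by
  unfold Pen.al gal
  rw [map_add, map_sum]
  congr 1
  · rw [Algebra.TensorProduct.map_tmul]
    simp

open Classical in
/-- the value of `μ_j` at the point `c` -/
noncomputable def Pen.val (c : R →ₐ[K] K) (j : Fin r) : K :=
  if h : ∃ x : E.I, c (x : R) ≠ 0 then c (E.μ j h.choose) / c (h.choose : R) else 0

theorem val_eq (c : R →ₐ[K] K) (j : Fin r) {x : E.I} (hx : c (x : R) ≠ 0) : c (E.μ j x) = E.val c j * c (x : R) := by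
  have h : ∃ x : E.I, c (x : R) ≠ 0 := ⟨x, hx⟩
  unfold Pen.val
  rw [dif_pos h]
  have h1 := h.choose_spec
  have h2 := congrArg c (mu_mul E j x h.choose)
  rw [map_mul, map_mul] at h2
  rw [div_mul_eq_mul_div, eq_div_iff h1]
  linear_combination h2

/-- a function which is `1` at a point and `0` at finitely many other points -/
private theorem sep (T : Finset (R →ₐ[K] K)) (c : R →ₐ[K] K) (hc : c ∉ T) : ∃ f : R, c f = 1 ∧ ∀ c' ∈ T, c' f = 0 := by
  classical
  induction T using Finset.induction_on with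
  | empty => exact ⟨1, map_one _, fun c' h => absurd h (Finset.notMem_empty _)⟩
  | insert a T ha ih =>
    rw [Finset.mem_insert, not_or] at hc
    obtain ⟨f, hf, hT⟩ := ih hc.2
    obtain ⟨g, hg⟩ : ∃ g, c g ≠ a g := by
      by_contra h
      push Not at h
      exact hc.1 (AlgHom.ext h)
    have hg' : c g - a g ≠ 0 := sub_ne_zero.2 hg
    refine ⟨f * ((c g - a g)⁻¹ • (g - algebraMap K R (a g))), ?_, ?_⟩
    · rw [map_mul, hf, one_mul, map_smul, map_sub, AlgHom.commutes, smul_eq_mul]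
      exact inv_mul_cancel₀ hg'
    · intro c' h
      rw [Finset.mem_insert] at h
      rcases h with h | h
      · rw [h, map_mul, map_smul, map_sub, AlgHom.commutes]
        simp
      · rw [map_mul, hT c' h, zero_mul]

/-- `I` contains an element which does not vanish at finitely many given points different from the `b_i` -/
theorem exists_x (S : Multiset (R →ₐ[K] K)) (hS : ∀ c ∈ S, ∀ i, c ≠ E.b i) : ∃ x : E.I, ∀ c ∈ S, c (x : R) ≠ 0 := by
  classical
  have h : ∀ c : R →ₐ[K] K, ∃ f : R, c ∈ S → c f = 1 ∧ (∀ i, E.b i f = 0) ∧ ∀ c' ∈ S, c' ≠ c → c' f = 0 := by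
    intro c
    by_cases hc : c ∈ S
    · obtain ⟨f, h1, h2⟩ := sep (Finset.univ.image E.b ∪ S.toFinset.erase c) c (by
        simp only [Finset.mem_union, Finset.mem_image, Finset.mem_univ, true_and, Finset.mem_erase, not_or, not_exists]
        exact ⟨fun i hi => hS c hc i hi.symm, fun hh => hh.1 rfl⟩)
      refine ⟨f, fun _ => ⟨h1, fun i => h2 _ (Finset.mem_union_left _ (Finset.mem_image_of_mem _ (Finset.mem_univ i))),
        fun c' hc' hne => h2 _ (Finset.mem_union_right _ (Finset.mem_erase.2 ⟨hne, Multiset.mem_toFinset.2 hc'⟩))⟩⟩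
    · exact ⟨0, fun h => absurd h hc⟩
  choose f hf using h
  refine ⟨⟨∑ c ∈ S.toFinset, f c, ?_⟩, ?_⟩
  · rw [Submodule.mem_iInf]
    intro i
    rw [RingHom.mem_ker, map_sum]
    exact Finset.sum_eq_zero fun c hc => (hf c (Multiset.mem_toFinset.1 hc)).2.1 i
  · intro c hc
    change c (∑ c ∈ S.toFinset, f c) ≠ 0
    rw [map_sum, Finset.sum_eq_single c (fun c' hc' hne => (hf c' (Multiset.mem_toFinset.1 hc')).2.2 c hc hne.symm)
      (fun h => absurd (Multiset.mem_toFinset.2 hc) h), (hf c hc).1]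
    exact one_ne_zero

/-- the same for one element of `R` -/
theorem exists_f {c : R →ₐ[K] K} (hc : ∀ i, c ≠ E.b i) : ∃ f : R, c f = 0 ∧ ∀ i, E.b i f ≠ 0 := by
  classical
  obtain ⟨f, h1, h2⟩ := sep (Finset.univ.image E.b) c (by
    simp only [Finset.mem_image, Finset.mem_univ, true_and, not_exists]
    exact fun i hi => hc i hi.symm)
  refine ⟨1 - f, by rw [map_sub, map_one, h1, sub_self], fun i => ?_⟩
  rw [map_sub, map_one, h2 _ (Finset.mem_image_of_mem _ (Finset.mem_univ i)), sub_zero]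
  exact one_ne_zero

end GB
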