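import Pool.Agent.H99.GB.ZrC

/-! # GB.ZrG : zeros and automorphisms of `F` over `K` (60 lines)

`uniq`; apply `σ` to `zr_rec` for `x` and compare with `zr_rec` for `gal σ x`: `deg (gal σ x) = deg x`, `lc (gal σ x) = σ (lc x)` (the coordinates of `gal σ x` in the basis `1 ⊗ e_j` are `σ` of those of `x`; `bc_lt`, `bc_repr`), `ε = ±1`,
`evF (cF F c) (gal σ x) = σ (evF (cF F c) x)` (check on `a ⊗ f`).  For `f = 0` both products are `0` (or `1` if there are no zeros: same cardinality, `zr_card`). -/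

namespace GB

open Module TensorProduct

variable {K R F : Type} [Field K] [IsAlgClosed K] [CommRing R] [Algebra K R] [Field F] [IsAlgClosed F] [Algebra K F]

omit [IsAlgClosed K] [IsAlgClosed F] in
theorem gal_repr (P : OnePt K R) (σ : F ≃ₐ[K] F) (x : F ⊗[K] R) (j : P.D) :
    (Algebra.TensorProduct.basis F P.e).repr (gal σ x) j = σ ((Algebra.TensorProduct.basis F P.e).repr x j) := by
  induction x using TensorProduct.induction_on with
  | zero => simp
  | tmul a f =>
    have h1 : gal σ (a ⊗ₜ[K] f) = σ a ⊗ₜ[K] f := by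
      unfold gal
      rw [Algebra.TensorProduct.map_tmul]
      rfl
    rw [h1, Algebra.TensorProduct.basis_repr_tmul, Algebra.TensorProduct.basis_repr_tmul]
    simp only [Finsupp.smul_apply, Finsupp.mapRange_apply, smul_eq_mul, map_mul, AlgEquiv.commutes]
  | add x y hx hy =>
    rw [map_add, map_add, map_add, Finsupp.add_apply, Finsupp.add_apply, hx, hy, map_add]

omit [IsAlgClosed K] [IsAlgClosed F] in
theorem gal_eq_zero (P : OnePt K R) (σ : F ≃ₐ[K] F) {x : F ⊗[K] R} : gal σ x = 0 ↔ x = 0 := by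
  constructor
  · intro h
    apply (Algebra.TensorProduct.basis F P.e).repr.injective
    ext j
    have h1 := gal_repr P σ x j
    rw [h, map_zero, Finsupp.zero_apply] at h1
    rw [map_zero, Finsupp.zero_apply]
    exact (map_eq_zero_iff σ σ.injective).1 h1.symm
  · rintro rfl
    exact map_zero _

theorem gal_ne (P : OnePt K R) (σ : F ≃ₐ[K] F) {x : F ⊗[K] R} (hx : x ≠ 0) : gal σ x ≠ 0 := by
  intro h
  exact hx ((gal_eq_zero P σ).1 h)

theorem gal_deg (P : OnePt K R) (σ : F ≃ₐ[K] F) (x : F ⊗[K] R) : (P.bc F).deg (gal σ x) = (P.bc F).deg x := by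
  by_cases hx : x = 0
  · rw [hx, map_zero]
  have hg := gal_ne P σ hx
  have key : ∀ m : ℕ, (P.bc F).deg (gal σ x) < m ↔ (P.bc F).deg x < m := by
    intro m
    have h1 := bc_lt P F m x
    have h2 := bc_lt P F m (gal σ x)
    have h3 : (P.bc F).Lt m x ↔ (P.bc F).deg x < m := ⟨fun h => h.resolve_left hx, Or.inr⟩
    have h4 : (P.bc F).Lt m (gal σ x) ↔ (P.bc F).deg (gal σ x) < m := ⟨fun h => h.resolve_left hg, Or.inr⟩
    rw [← h3, ← h4, h1, h2]
    refine forall_congr' fun j => imp_congr_right fun _ => ?_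
    rw [gal_repr]
    exact map_eq_zero_iff σ σ.injective
  have h5 := (key ((P.bc F).deg x + 1)).2 (Nat.lt_succ_self _)
  have h6 := (key ((P.bc F).deg (gal σ x) + 1)).1 (Nat.lt_succ_self _)
  omega

theorem gal_lc (P : OnePt K R) (σ : F ≃ₐ[K] F) (x : F ⊗[K] R) : (P.bc F).lc (gal σ x) = σ ((P.bc F).lc x) := by
  by_cases hx : x = 0
  · rw [hx, map_zero, OnePt.lc_zero, map_zero]
  have hg := gal_ne P σ hx
  have hD : (P.bc F).deg x ∈ P.D := by
    rw [← bc_D P F]
    exact ⟨x, hx, rfl⟩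
  have h1 := bc_repr P F hx ⟨_, hD⟩ rfl
  have h2 := bc_repr P F hg ⟨_, hD⟩ (gal_deg P σ x)
  rw [← h1, ← h2, gal_repr]

omit [IsAlgClosed K] [IsAlgClosed F] in
theorem evF_gal (σ : F ≃ₐ[K] F) (c : R →ₐ[K] K) (x : F ⊗[K] R) : evF (cF F c) (gal σ x) = σ (evF (cF F c) x) := by
  induction x using TensorProduct.induction_on with
  | zero => simp
  | tmul a f =>
    have h1 : gal σ (a ⊗ₜ[K] f) = σ a ⊗ₜ[K] f := by
      unfold gal
      rw [Algebra.TensorProduct.map_tmul]
      rfl
    rw [h1, evF_tmul, evF_tmul, cF_apply, map_mul, AlgEquiv.commutes]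
  | add x y hx hy => rw [map_add, map_add, map_add, map_add, hx, hy]

theorem zr_gal (P : OnePt K R) (σ : F ≃ₐ[K] F) {x : F ⊗[K] R} (hx : x ≠ 0) :
    (zr x).map (fun β => (σ : F →ₐ[K] F).comp β) = zr (gal σ x) := by
  have : Infinite K := IsAlgClosed.instInfinite
  have hg := gal_ne P σ hx
  apply uniq
  intro f
  rw [Multiset.map_map]
  by_cases hf : f = 0
  · subst hf
    simp only [map_zero, Multiset.map_const', Multiset.prod_replicate, Function.comp_def]
    rw [zr_card P hx, zr_card P hg, gal_deg]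
  obtain ⟨ε, h0, h⟩ := zr_rec (F := F) P
  have h1 := h f x hf hx
  have h2 := h f (gal σ x) hf hg
  rw [gal_deg, gal_lc] at h2
  have h3 := congrArg σ h1
  have hε : σ (ε (P.deg f) ((P.bc F).deg x)) = ε (P.deg f) ((P.bc F).deg x) := by
    rcases h0 (P.deg f) ((P.bc F).deg x) with h4 | h4
    · rw [h4, map_one]
    · rw [h4, map_neg, map_one]
  rw [map_mul, map_mul, map_mul, map_pow, map_pow, AlgEquiv.commutes, hε, map_multiset_prod, map_multiset_prod,
    Multiset.map_map, Multiset.map_map] at h3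
  have h5 : (Multiset.map (fun c => evF (cF F c) (gal σ x)) (zk K f)) =
      Multiset.map (⇑σ ∘ fun c => evF (cF F c) x) (zk K f) := by
    apply Multiset.map_congr rfl
    intro c _
    exact evF_gal σ c x
  rw [h5] at h2
  have h6 : σ ((P.bc F).lc x) ^ P.deg f ≠ 0 := by
    apply pow_ne_zero
    rw [Ne, map_eq_zero_iff σ σ.injective]
    exact (P.bc F).lc_ne hx
  apply mul_right_cancel₀ h6
  rw [h2]
  exact h3

end GB
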