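import Pool.Agent.H99.GB.PenS
import Pool.Agent.H99.GB.ZrG

/-! # GB.PenP : the product of the values of a function on the moved points (60 lines)

`f ≠ 0` since `b_i f ≠ 0` (`k = 0`: both sides are `1`... if `f = 0` and `k = 0` then `zk K 0` may be anything: assume `f ≠ 0`).  The zeros `c ∈ zk K f` are different from the `b_i`; take `x ∈ I` with `c x ≠ 0` for all of them (`exists_x`).
Take the product of the values of `f` in `S_spec`; `zr_ratio` for `al λ x` and `1 ⊗ x` (`al_deg`, `al_lc`, `bc_deg`, `bc_lc`) and `evF (cF F c) (al λ x) = c x * (1 + Σ λ_j val c j)` (`val_eq`).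
The products of values on `zr (1 ⊗ x) = (zk K x).map (cF F)` may vanish if `f` vanishes at a zero of `x`: no, `c x ≠ 0` for all zeros `c` of `f`. -/

namespace GB

open Module TensorProduct

variable {K R F : Type} [Field K] [IsAlgClosed K] [CommRing R] [Algebra K R] [Field F] [IsAlgClosed F] [Algebra K F]
  {P : OnePt K R} {k r : ℕ} (E : Pen P k r)

omit [IsAlgClosed K] [IsAlgClosed F] in
private theorem pp_ne {x : E.I} (hx : x ≠ 0) : ((1 : F) ⊗ₜ[K] (x : R)) ≠ 0 := by
  intro h
  have hx' : (x : R) ≠ 0 := fun h => hx (Subtype.ext h)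
  have h1 := bc_lc P F (x : R)
  rw [h, (P.bc F).lc_zero] at h1
  exact (P.lc_ne hx') ((algebraMap K F).injective (by rw [← h1, map_zero]))

omit [IsAlgClosed K] [IsAlgClosed F] in
private theorem pp_ev (lam : Fin r → F) (c : R →ₐ[K] K) {x : E.I} (hx : c (x : R) ≠ 0) :
    evF (cF F c) (E.al lam x) = evF (cF F c) ((1 : F) ⊗ₜ[K] (x : R)) *
      (1 + ∑ j, lam j * algebraMap K F (E.val c j)) := by
  unfold Pen.al
  rw [map_add, map_sum, mul_add, mul_one, Finset.mul_sum]
  congr 1
  refine Finset.sum_congr rfl fun j _ => ?_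
  rw [evF_tmul, evF_tmul, cF_apply, cF_apply, val_eq E c j hx, map_mul]
  ring

theorem S_prod (lam : Fin r → F) {f : R} (hf0 : f ≠ 0) (hf : ∀ i, E.b i f ≠ 0) : ((E.S lam).map fun β => β f).prod =
    (∏ i, algebraMap K F (E.b i f)) * ((zk K f).map fun c => 1 + ∑ j, lam j * algebraMap K F (E.val c j)).prod := by
  have hdom : IsDomain R := isDomain P
  -- a nonzero `x ∈ I` without common zeros with `f`
  have hx : ∃ x : E.I, x ≠ 0 ∧ ∀ c ∈ zk K f, c (x : R) ≠ 0 := by
    by_cases hz : zk K f = 0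
    · obtain ⟨x, hx⟩ := I_ne E
      refine ⟨x, hx, fun c hc => ?_⟩
      rw [hz] at hc
      exact absurd hc (Multiset.notMem_zero c)
    · obtain ⟨x, hx⟩ := exists_x E (zk K f) (fun c hc i hi => by
        have h1 := (mem_zk P hf0 c).1 hc
        rw [hi] at h1
        exact hf i h1)
      obtain ⟨c, hc⟩ := Multiset.exists_mem_of_ne_zero hz
      refine ⟨x, fun h => ?_, hx⟩
      have h1 := hx c hc
      rw [h] at h1
      exact h1 (map_zero c)
  obtain ⟨x, hx0, hxc⟩ := hx
  have hx' : (x : R) ≠ 0 := fun h => hx0 (Subtype.ext h)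
  have h1 := congrArg (fun S : Multiset (R →ₐ[K] F) => (S.map fun β => β f).prod) (S_spec E lam hx0)
  simp only [Multiset.map_add, Multiset.prod_add, Multiset.map_map, Function.comp_def, cF_apply] at h1
  have h2 := zr_ratio P hf0 (al_ne E lam hx0) (pp_ne E (F := F) hx0)
    (by rw [al_deg E lam hx0, bc_deg]) (by rw [al_lc E lam hx0, bc_lc])
  have h3 : ((zk K f).map fun c => evF (cF F c) (E.al lam x)).prod =
      ((zk K f).map fun c => evF (cF F c) ((1 : F) ⊗ₜ[K] (x : R))).prod *
      ((zk K f).map fun c => 1 + ∑ j, lam j * algebraMap K F (E.val c j)).prod := by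
    rw [← Multiset.prod_map_mul]
    congr 1
    refine Multiset.map_congr rfl fun c hc => ?_
    exact pp_ev E lam c (hxc c hc)
  have h4 : ((zk K f).map fun c => evF (cF F c) ((1 : F) ⊗ₜ[K] (x : R))).prod ≠ 0 := by
    intro h
    rw [Multiset.prod_eq_zero_iff, Multiset.mem_map] at h
    obtain ⟨c, hc, h5⟩ := h
    rw [evF_cF] at h5
    exact hxc c hc ((algebraMap K F).injective (by rw [h5, map_zero]))
  have h5 : ((zr ((1 : F) ⊗ₜ[K] (x : R))).map fun β => β f).prod ≠ 0 := by
    rw [zr_const P hx', Multiset.map_map]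
    intro h
    rw [Multiset.prod_eq_zero_iff, Multiset.mem_map] at h
    obtain ⟨c, hc, h6⟩ := h
    have h7 : algebraMap K F (c f) = 0 := h6
    have h8 : c f = 0 := (algebraMap K F).injective (by rw [h7, map_zero])
    exact hxc c ((mem_zk P hf0 c).2 h8) ((mem_zk P hx' c).1 hc)
  rw [h3] at h2
  have h6 : ((zr (E.al lam x)).map fun β => β f).prod =
      ((zr ((1 : F) ⊗ₜ[K] (x : R))).map fun β => β f).prod *
      ((zk K f).map fun c => 1 + ∑ j, lam j * algebraMap K F (E.val c j)).prod := by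
    apply mul_right_cancel₀ h4
    rw [h2]
    ring
  rw [h6] at h1
  apply mul_left_cancel₀ h5
  rw [← h1, Finset.prod_eq_multiset_prod]
  ring

/-- the moved points and automorphisms of `F` over `K` (`S_spec`, `zr_gal`, `al_gal`; cancel `zr (1 ⊗ x)`) -/
theorem S_gal (σ : F ≃ₐ[K] F) (lam : Fin r → F) :
    (E.S lam).map (fun β => (σ : F →ₐ[K] F).comp β) = E.S (fun j => σ (lam j)) := by
  obtain ⟨x, hx⟩ := I_ne E
  have h1 := congrArg (Multiset.map fun β => (σ : F →ₐ[K] F).comp β) (S_spec E lam hx)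
  have h2 := S_spec E (fun j => σ (lam j)) hx
  rw [Multiset.map_add, Multiset.map_add, zr_gal P σ (al_ne E lam hx), zr_gal P σ (pp_ne E (F := F) hx),
    al_gal, Multiset.map_map] at h1
  have h3 : gal σ ((1 : F) ⊗ₜ[K] (x : R)) = (1 : F) ⊗ₜ[K] (x : R) := by
    unfold gal
    rw [Algebra.TensorProduct.map_tmul, map_one]
    rfl
  have h4 : ((fun β : R →ₐ[K] F => (σ : F →ₐ[K] F).comp β) ∘ fun i => cF F (E.b i)) =
      fun i => cF F (E.b i) := by
    funext i
    apply AlgHom.ext
    intro f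
    exact σ.commutes _
  rw [h3, h4, h2] at h1
  exact (add_left_cancel h1).symm

/-- no move (`al 0 x = 1 ⊗ x`) -/
theorem S_zero : E.S (0 : Fin r → F) = Finset.univ.val.map (fun i => cF F (E.b i)) := by
  obtain ⟨x, hx⟩ := I_ne E
  have h1 := S_spec E (0 : Fin r → F) hx
  have h2 : E.al (0 : Fin r → F) x = (1 : F) ⊗ₜ[K] (x : R) := by
    unfold Pen.al
    simp
  rw [h2] at h1
  exact (add_left_cancel h1).symm

end GB
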