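import Pool.Agent.H67.KH.Roots

/-! # GB.Rts : roots of a polynomial whose reduction has smaller degree; interpolation (100 lines)

`roots_drop`: induction on the degree of `p` (over `Om K`, it splits).  If `p` has a root `r ∉ V`, `p = (X - r) q`; then `p = (1 - r⁻¹ X) (-r q)`, and `q₁ = -r q` has integral coefficients which reduce to those of `p'`
(compare coefficients from the bottom: `p_i = q₁_i - r⁻¹ q₁_(i-1)`), since `r⁻¹` reduces to `0` (`Rd.inv_zero`); apply the induction hypothesis to `q₁`.  If all roots are integral, say `r` reduces to `r'`: `p = (X - r) q`, `q` has integral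
coefficients (Gauss, or synthetic division from the top: `q_(i-1) = p_i + r q_i`), they reduce to `q'` with `p' = (X - r') q'`.
(In the second case one can also quote `H67.KH.roots_rd` if the degrees are equal.)
`coeff_rd`: choose `N + 1` different constants `c_j ∈ K` (`K` infinite), `N ≥` both degrees; the coefficients of a polynomial of degree `≤ N` are fixed `K`-linear combinations of its values at the `c_j`
(`Lagrange.interpolate` or the inverse Vandermonde matrix). -/

namespace GB

open H68.BB Polynomial

variable {K : Type} [Field K] [IsAlgClosed K] {π : Place K (Om K)}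

private theorem rts_first {p : (Om K)[X]} {p' : K[X]} (h : ∀ i, Rd π.V π.φ (p.coeff i) (p'.coeff i)) {r : Om K}
    (hr : r ∉ π.V) {q : (Om K)[X]} (hq : p = (X - C r) * q) (i : ℕ) :
    Rd π.V π.φ ((C (-r) * q).coeff i) (p'.coeff i) := by
  have := π.isLocal
  have hr0 : r ≠ 0 := by
    rintro rfl
    exact hr π.V.zero_mem
  have hinv : Rd π.V π.φ r⁻¹ 0 := Rd.inv_zero hr
  induction i with
  | zero =>
    have h1 : (C (-r) * q).coeff 0 = p.coeff 0 := by
      rw [hq, coeff_C_mul, mul_coeff_zero, coeff_sub, coeff_X_zero, coeff_C_zero, zero_sub]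
    rw [h1]
    exact h 0
  | succ i ih =>
    have h1 : (C (-r) * q).coeff (i + 1) = p.coeff (i + 1) + r⁻¹ * (C (-r) * q).coeff i := by
      rw [hq, coeff_C_mul, coeff_C_mul, sub_mul, coeff_sub, coeff_X_mul, coeff_C_mul]
      field_simp
      ring
    rw [h1]
    have h2 := (h (i + 1)).add (hinv.mul ih)
    rwa [zero_mul, add_zero] at h2

private theorem rts_aux (n : ℕ) : ∀ (p : (Om K)[X]) (p' : K[X]), p.natDegree ≤ n →
    (∀ i, Rd π.V π.φ (p.coeff i) (p'.coeff i)) → p' ≠ 0 →
    ∃ S T : Multiset (Om K), p.roots = S + T ∧ Multiset.Rel (Rd π.V π.φ) S p'.roots ∧ ∀ r ∈ T, r ∉ π.V := by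
  induction n with
  | zero =>
    intro p p' hn h h0
    have hp : p.roots = 0 := by
      rw [eq_C_of_natDegree_eq_zero (Nat.le_zero.1 hn), roots_C]
    have hp' : p'.roots = 0 := by
      have h1 : p' = C (p'.coeff 0) := by
        ext i
        rcases Nat.eq_zero_or_pos i with hi | hi
        · rw [hi, coeff_C_zero]
        · rw [coeff_C, if_neg hi.ne']
          have h2 := h i
          rw [coeff_eq_zero_of_natDegree_lt (by omega)] at h2
          exact h2.unique Rd.zero
      rw [h1, roots_C]
    exact ⟨0, 0, by rw [hp, add_zero], by rw [hp']; exact Multiset.Rel.zero, fun r hr => absurd hr (Multiset.notMem_zero r)⟩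
  | succ n ih =>
    intro p p' hn h h0
    have hinj : Function.Injective π.V.subtype := Subtype.val_injective
    have hp0 : p ≠ 0 := by
      rintro rfl
      apply h0
      ext i
      have h2 := h i
      rw [coeff_zero] at h2 ⊢
      exact h2.unique Rd.zero
    by_cases hdeg : p.natDegree ≤ n
    · exact ih p p' hdeg h h0
    have hd : p.degree ≠ 0 := by
      intro hh
      have := natDegree_eq_of_degree_eq_some (n := 0) hh
      omega
    obtain ⟨r, hr⟩ := IsAlgClosed.exists_root _ hd
    by_cases hrV : r ∈ π.V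
    · -- an integral root
      have hl : p ∈ Polynomial.lifts π.V.subtype := by
        rw [Polynomial.lifts_iff_coeff_lifts]
        intro i
        exact ⟨⟨p.coeff i, (h i).mem⟩, rfl⟩
      obtain ⟨P, hP⟩ := (Polynomial.mem_lifts _).1 hl
      have hP' : P.map π.φ = p' := by
        ext i
        rw [coeff_map]
        have h1 : Rd π.V π.φ (p.coeff i) (π.φ (P.coeff i)) := by
          rw [← hP, coeff_map]
          exact ⟨(P.coeff i).2, rfl⟩
        exact h1.unique (h i)
      obtain ⟨R, hR⟩ : ∃ R : π.V, (R : Om K) = r := ⟨⟨r, hrV⟩, rfl⟩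
      have hroot : P.IsRoot R := by
        apply hinj
        have h1 : π.V.subtype (P.eval R) = (P.map π.V.subtype).eval (π.V.subtype R) :=
          (eval_map_apply _ _).symm
        rw [h1, map_zero, hP]
        change p.eval (R : Om K) = 0
        rw [hR]
        exact hr
      obtain ⟨Q, hQ⟩ := dvd_iff_isRoot.2 hroot
      have e1 : p = (X - C r) * Q.map π.V.subtype := by
        rw [← hP, hQ, Polynomial.map_mul, Polynomial.map_sub, map_X, map_C, ← hR]
        rfl
      have e2 : p' = (X - C (π.φ R)) * Q.map π.φ := by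
        rw [← hP', hQ, Polynomial.map_mul, Polynomial.map_sub, map_X, map_C]
      have hQ0 : Q.map π.φ ≠ 0 := by
        intro hh
        rw [hh, mul_zero] at e2
        exact h0 e2
      have hQ1 : Q.map π.V.subtype ≠ 0 := by
        intro hh
        rw [hh, mul_zero] at e1
        exact hp0 e1
      have hd' : (Q.map π.V.subtype).natDegree ≤ n := by
        have h2 := congrArg natDegree e1
        rw [natDegree_mul (X_sub_C_ne_zero _) hQ1, natDegree_X_sub_C] at h2
        omega
      obtain ⟨S, T, h1, h2, h3⟩ := ih (Q.map π.V.subtype) (Q.map π.φ) hd'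
        (fun i => by
          rw [coeff_map, coeff_map]
          exact ⟨(Q.coeff i).2, rfl⟩) hQ0
      refine ⟨r ::ₘ S, T, ?_, ?_, h3⟩
      · rw [e1, roots_mul (mul_ne_zero (X_sub_C_ne_zero _) hQ1), roots_X_sub_C, h1, Multiset.singleton_add,
          Multiset.cons_add]
      · rw [e2, roots_mul (mul_ne_zero (X_sub_C_ne_zero _) hQ0), roots_X_sub_C, Multiset.singleton_add]
        refine Multiset.Rel.cons ?_ h2
        rw [← hR]
        exact ⟨R.2, rfl⟩
    · -- a root at infinity
      obtain ⟨q, hq⟩ := dvd_iff_isRoot.2 hr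
      have hr0 : r ≠ 0 := by
        rintro rfl
        exact hrV π.V.zero_mem
      have hq0 : q ≠ 0 := by
        rintro rfl
        rw [mul_zero] at hq
        exact hp0 hq
      have hd' : (C (-r) * q).natDegree ≤ n := by
        have h2 := congrArg natDegree hq
        rw [natDegree_mul (X_sub_C_ne_zero _) hq0, natDegree_X_sub_C] at h2
        refine (natDegree_C_mul_le _ _).trans ?_
        omega
      obtain ⟨S, T, h1, h2, h3⟩ := ih (C (-r) * q) p' hd' (rts_first h hrV hq) h0
      rw [roots_C_mul _ (neg_ne_zero.2 hr0)] at h1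
      refine ⟨S, r ::ₘ T, ?_, h2, ?_⟩
      · rw [hq, roots_mul (mul_ne_zero (X_sub_C_ne_zero _) hq0), roots_X_sub_C, h1, Multiset.singleton_add,
          Multiset.add_cons]
      · intro s hs
        rcases Multiset.mem_cons.1 hs with hs | hs
        · rw [hs]
          exact hrV
        · exact h3 s hs

theorem roots_drop {p : (Om K)[X]} {p' : K[X]} (h : ∀ i, Rd π.V π.φ (p.coeff i) (p'.coeff i)) (h0 : p' ≠ 0) :
    ∃ S T : Multiset (Om K), p.roots = S + T ∧ Multiset.Rel (Rd π.V π.φ) S p'.roots ∧ ∀ r ∈ T, r ∉ π.V :=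
  rts_aux p.natDegree p p' le_rfl h h0

omit [IsAlgClosed K] in
private theorem rts_basis [DecidableEq K] (s : Finset K) (c : K) :
    Lagrange.basis s (fun c : K => (cst c : Om K)) c = (Lagrange.basis s (fun c : K => c) c).map (algebraMap K (Om K)) := by
  unfold Lagrange.basis
  rw [Polynomial.map_prod]
  refine Finset.prod_congr rfl fun d _ => ?_
  unfold Lagrange.basisDivisor
  rw [Polynomial.map_mul, Polynomial.map_sub, map_X, map_C, map_C, map_inv₀ (algebraMap K (Om K)), map_sub (algebraMap K (Om K))]

omit [IsAlgClosed K] in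
private theorem rts_sum {ι : Type} (s : Finset ι) {f : ι → Om K} {g : ι → K} (h : ∀ i ∈ s, Rd π.V π.φ (f i) (g i)) :
    Rd π.V π.φ (∑ i ∈ s, f i) (∑ i ∈ s, g i) := by
  classical
  induction s using Finset.induction_on with
  | empty => rw [Finset.sum_empty, Finset.sum_empty]; exact Rd.zero
  | insert a s ha ih =>
    rw [Finset.sum_insert ha, Finset.sum_insert ha]
    exact (h a (Finset.mem_insert_self a s)).add (ih fun i hi => h i (Finset.mem_insert_of_mem hi))

omit [IsAlgClosed K] in
theorem coeff_rd [Infinite K] {p : (Om K)[X]} {p' : K[X]} (h : ∀ c : K, Rd π.V π.φ (p.eval (cst c)) (p'.eval c)) (i : ℕ) :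
    Rd π.V π.φ (p.coeff i) (p'.coeff i) := by
  classical
  obtain ⟨s, hs⟩ := Infinite.exists_subset_card_eq K (max p.natDegree p'.natDegree + 1)
  have h1 : p.degree < s.card := by
    refine (degree_le_natDegree).trans_lt ?_
    rw [hs]
    exact_mod_cast Nat.lt_succ_of_le (le_max_left _ _)
  have h2 : p'.degree < s.card := by
    refine (degree_le_natDegree).trans_lt ?_
    rw [hs]
    exact_mod_cast Nat.lt_succ_of_le (le_max_right _ _)
  have e1 := Lagrange.eq_interpolate_of_eval_eq (s := s) (v := fun c : K => (cst c : Om K)) (f := p)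
    (fun c => p.eval (cst c)) (fun a _ b _ hab => (algebraMap K (Om K)).injective hab) h1 (fun _ _ => rfl)
  have e2 := Lagrange.eq_interpolate_of_eval_eq (s := s) (v := fun c : K => c) (f := p')
    (fun c => p'.eval c) (fun a _ b _ hab => hab) h2 (fun _ _ => rfl)
  rw [e1, e2, Lagrange.interpolate_apply, Lagrange.interpolate_apply, finsetSum_coeff, finsetSum_coeff]
  refine rts_sum s fun c _ => ?_
  rw [coeff_C_mul, coeff_C_mul, rts_basis, coeff_map]
  exact (h c).mul (π.const _)

end GB
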