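import Pool.Agent.H99.GB.Quo

/-! # GB.QDet : triangular determinants in `R / h` (50 lines)

`B.det v = (B.toMatrix v).det`, `B.toMatrix v i j = B.repr (v j) i`.  `r'_j - (lc r'_j / lc r_j) • r_j` is `Lt j` (`lead`), so modulo `h` it is a combination of the `r_i` with `i < j` (`span_lt`): the matrix is upper triangular with diagonal
entries `lc r'_j / lc r_j` (`Matrix.det_of_isUpperTriangular`). -/

namespace GB

open Module

variable {K R : Type} [Field K] [CommRing R] [Algebra K R] (P : OnePt K R)

theorem tri_det {h : R} (hh : h ≠ 0) {r r' : P.G (P.deg h) → R} (hr : ∀ j, r j ≠ 0 ∧ P.deg (r j) = j)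
    (hr' : ∀ j, r' j ≠ 0 ∧ P.deg (r' j) = j) [Fintype (P.G (P.deg h))]
    (B : Basis (P.G (P.deg h)) K (R ⧸ Ideal.span {h})) (hB : ∀ j, B j = Ideal.Quotient.mk (Ideal.span {h}) (r j)) :
    B.det (fun j => Ideal.Quotient.mk (Ideal.span {h}) (r' j)) = ∏ j, P.lc (r' j) / P.lc (r j) := by
  have key : ∀ j : P.G (P.deg h), ∃ c : P.G (P.deg h) →₀ K, (∀ i : P.G (P.deg h), (j : ℕ) ≤ (i : ℕ) → c i = 0) ∧
      B.repr (Ideal.Quotient.mk (Ideal.span {h}) (r' j)) =
        Finsupp.single j (P.lc (r' j) / P.lc (r j)) + c := by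
    intro j
    have hl : P.Lt (j : ℕ) (r' j - (P.lc (r' j) / P.lc (r j)) • r j) := by
      have h1 := lead P (hr' j).1 (hr j).1 ((hr' j).2.trans (hr j).2.symm)
      rwa [(hr' j).2] at h1
    obtain ⟨c, q, hc, hf⟩ := span_lt P hh hr hl
    refine ⟨c, hc, ?_⟩
    have h2 : r' j = h * q + ((P.lc (r' j) / P.lc (r j)) • r j + c.sum fun i a => a • r i) := by
      linear_combination hf
    have h3 : Ideal.Quotient.mk (Ideal.span {h}) (h * q) = 0 := by
      rw [Ideal.Quotient.eq_zero_iff_mem]
      exact Ideal.mul_mem_right _ _ (Ideal.mem_span_singleton_self h)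
    have hsm : ∀ (a : K) (x : R), Ideal.Quotient.mk (Ideal.span {h}) (a • x) =
        a • Ideal.Quotient.mk (Ideal.span {h}) x := fun a x => rfl
    have h4 : Ideal.Quotient.mk (Ideal.span {h}) (r' j) =
        (P.lc (r' j) / P.lc (r j)) • B j + c.sum fun i a => a • B i := by
      conv_lhs => rw [h2]
      rw [map_add, h3, zero_add, map_add, hsm, ← hB j]
      congr 1
      simp only [Finsupp.sum, map_sum]
      refine Finset.sum_congr rfl fun i _ => ?_
      rw [hsm, ← hB i]
    rw [h4, map_add, map_smul, B.repr_self, Finsupp.smul_single, smul_eq_mul, mul_one]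
    congr 1
    have h5 : (c.sum fun i a => a • B i) = B.repr.symm c := by
      rw [Basis.repr_symm_apply]
      rfl
    rw [h5, LinearEquiv.apply_symm_apply]
  choose c hc hrep using key
  have hent : ∀ i j : P.G (P.deg h), B.toMatrix (fun j => Ideal.Quotient.mk (Ideal.span {h}) (r' j)) i j =
      (Finsupp.single j (P.lc (r' j) / P.lc (r j)) + c j) i := by
    intro i j
    rw [Basis.toMatrix_apply, hrep j]
  rw [Basis.det_apply]
  have htri : (B.toMatrix (fun j => Ideal.Quotient.mk (Ideal.span {h}) (r' j))).BlockTriangular id := by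
    intro i j hij
    have hij' : j < i := hij
    have hne : i ≠ j := ne_of_gt hij'
    rw [hent, Finsupp.add_apply, hc j i (le_of_lt hij'), Finsupp.single_apply, if_neg (Ne.symm hne), add_zero]
  have hdet := Matrix.det_of_isUpperTriangular htri
  have e1 : ∀ j, B.toMatrix (fun j => Ideal.Quotient.mk (Ideal.span {h}) (r' j)) j j =
      P.lc (r' j) / P.lc (r j) := by
    intro j
    rw [hent, Finsupp.add_apply, hc j j le_rfl, Finsupp.single_eq_same, add_zero]
  rw [Finset.prod_congr rfl (fun j _ => e1 j)] at hdet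
  convert hdet

end GB
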