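import Pool.Agent.H99.GB.QDet

/-! # GB.Rec : Weil reciprocity (150 lines)

PROOF.  `d = deg f`, `e = deg h`, `Q = R / (f h)`, `C = G (d + e)`.  `C = (d + G e) ⊔ G d` (bijection `π₁ : G e ⊕ G d ≃ C`, `inl i ↦ i + d`, `inr j ↦ j`) and `C = G e ⊔ (e + G d)` (bijection
`π₂ : G e ⊕ G d ≃ C`, `inl i ↦ i`, `inr j ↦ j + e`).  Families `v₁, v₂ : C → R` with `v₁ (π₁ (inl i)) = f * e_i`, `v₁ (π₁ (inr j)) = e_j`, `v₂ (π₂ (inl i)) = e_i`, `v₂ (π₂ (inr j)) = h * e_j`: both have `deg (v j) = j`,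
so they give bases `B₁, B₂` of `Q` (`tri`), and `B₁.det v₂ = lc h ^ d / lc f ^ e` (`tri_det`, `G_card`).  Let `θ : G e ⊕ G d → Q`, `inl i ↦ f * e_i`, `inr j ↦ h * e_j`.  In the basis `B₁ ∘ π₁` the matrix of `θ` is
`[[1, *], [0, H]]` with `H` the matrix of multiplication by `h` on `R / f` in the basis `e_j` (`j ∈ G d`) (`h e_j = Σ H_(ij) e_i + f u`, and `u` modulo `h` is a combination of the `e_i`, `i ∈ G e`), so its
determinant is `norm (h | R / f)` (`Algebra.norm_eq_matrix_det`, `Matrix.det_fromBlocks_zero₂₁`).  In the basis `B₂ ∘ π₂` it is `[[F, 0], [*, 1]]`, determinant `norm (f | R / h)`.  Finally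
`det_(B₁ π₁) θ = det_(B₁ π₁) (B₂ π₂) * det_(B₂ π₂) θ` (`Basis.toMatrix_mul_toMatrix`) and `det_(B₁ π₁) (B₂ π₂) = sign (π₂.symm.trans π₁) * B₁.det v₂` (up to the direction; `Matrix.det_permute`), where the sign depends only on
`D`, `d`, `e`.  (For `d` or `e` not in `D` put `ε d e = 1`.) -/

namespace GB

open Module

variable {K R : Type} [Field K] [CommRing R] [Algebra K R]

private theorem gA {P : OnePt K R} {d e i : ℕ} (hd : d ∈ P.D) (hi : i ∈ P.G e) :
    i + d ∈ P.G (d + e) :=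
  ⟨D_add P hi.1 hd, fun i' hi' h => hi.2 i' hi' (by omega)⟩

private theorem gB {P : OnePt K R} {d e j : ℕ} (he : e ∈ P.D) (hj : j ∈ P.G d) :
    j ∈ P.G (d + e) :=
  ⟨hj.1, fun i hi h => hj.2 (i + e) (D_add P hi he) (by omega)⟩

private theorem gC {P : OnePt K R} {d e j : ℕ} (hj : j ∈ P.G (d + e)) :
    (∃ i ∈ P.G e, i + d = j) ∨ j ∈ P.G d := by
  by_cases h : ∃ i ∈ P.D, j = i + d
  · obtain ⟨i, hi, rfl⟩ := h
    left
    exact ⟨i, ⟨hi, fun i' hi' h => hj.2 i' hi' (by omega)⟩, rfl⟩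
  · right
    exact ⟨hj.1, fun i hi h' => h ⟨i, hi, h'⟩⟩

private theorem gA' {P : OnePt K R} {d e i : ℕ} (he : e ∈ P.D) (hi : i ∈ P.G d) :
    i + e ∈ P.G (d + e) := by
  rw [add_comm d e]
  exact gA he hi

private theorem gB' {P : OnePt K R} {d e j : ℕ} (hd : d ∈ P.D) (hj : j ∈ P.G e) :
    j ∈ P.G (d + e) := by
  rw [add_comm d e]
  exact gB hd hj

private theorem gC' {P : OnePt K R} {d e j : ℕ} (hj : j ∈ P.G (d + e)) :
    (∃ i ∈ P.G d, i + e = j) ∨ j ∈ P.G e := by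
  rw [add_comm d e] at hj
  exact gC hj

private noncomputable def pi1 {P : OnePt K R} {d e : ℕ} (hd : d ∈ P.D) (he : e ∈ P.D) :
    P.G e ⊕ P.G d ≃ P.G (d + e) :=
  Equiv.ofBijective (Sum.elim (fun i => ⟨i + d, gA hd i.2⟩) (fun j => ⟨j, gB he j.2⟩)) (by
    constructor
    · rintro (i | j) (i' | j') h
      · have h1 : (i : ℕ) + d = i' + d := congrArg Subtype.val h
        congr 1
        exact Subtype.ext (by omega)
      · exfalso
        have h1 : (i : ℕ) + d = j' := congrArg Subtype.val h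
        exact j'.2.2 i i.2.1 h1.symm
      · exfalso
        have h1 : (j : ℕ) = i' + d := congrArg Subtype.val h
        exact j.2.2 i' i'.2.1 h1
      · have h0 := congrArg Subtype.val h
        have h1 : (j : ℕ) = j' := h0
        congr 1
        exact Subtype.ext h1
    · rintro ⟨j, hj⟩
      rcases gC hj with ⟨i, hi, h⟩ | h
      · exact ⟨Sum.inl ⟨i, hi⟩, Subtype.ext h⟩
      · exact ⟨Sum.inr ⟨j, h⟩, rfl⟩)

private noncomputable def pi2 {P : OnePt K R} {d e : ℕ} (hd : d ∈ P.D) (he : e ∈ P.D) :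
    P.G e ⊕ P.G d ≃ P.G (d + e) :=
  Equiv.ofBijective (Sum.elim (fun i => ⟨i, gB' hd i.2⟩) (fun j => ⟨j + e, gA' he j.2⟩)) (by
    constructor
    · rintro (i | j) (i' | j') h
      · have h0 := congrArg Subtype.val h
        have h1 : (i : ℕ) = i' := h0
        congr 1
        exact Subtype.ext h1
      · exfalso
        have h1 : (i : ℕ) = j' + e := congrArg Subtype.val h
        exact i.2.2 j' j'.2.1 h1
      · exfalso
        have h1 : (j : ℕ) + e = i' := congrArg Subtype.val h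
        exact i'.2.2 j j.2.1 h1.symm
      · have h1 : (j : ℕ) + e = j' + e := congrArg Subtype.val h
        congr 1
        exact Subtype.ext (by omega)
    · rintro ⟨j, hj⟩
      rcases gC' hj with ⟨i, hi, h⟩ | h
      · exact ⟨Sum.inr ⟨i, hi⟩, Subtype.ext h⟩
      · exact ⟨Sum.inl ⟨j, h⟩, rfl⟩)

/-- the sign -/
private noncomputable def sg {P : OnePt K R} {d e : ℕ} (hd : d ∈ P.D) (he : e ∈ P.D) : ℤˣ :=
  haveI : Fintype (P.G (d + e)) := (G_fin P (D_add P hd he)).fintype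
  Equiv.Perm.sign ((pi2 hd he).symm.trans (pi1 hd he))

private theorem tri' (P : OnePt K R) {m : ℕ} {h : R} (hh : h ≠ 0) (hm : P.deg h = m)
    {r : P.G m → R} (hr : ∀ j, r j ≠ 0 ∧ P.deg (r j) = j) :
    ∃ B : Basis (P.G m) K (R ⧸ Ideal.span {h}),
      ∀ j, B j = Ideal.Quotient.mk (Ideal.span {h}) (r j) := by
  subst hm
  exact tri P hh hr

private theorem tri_det' (P : OnePt K R) {m : ℕ} {h : R} (hh : h ≠ 0) (hm : P.deg h = m)
    {r r' : P.G m → R} (hr : ∀ j, r j ≠ 0 ∧ P.deg (r j) = j)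
    (hr' : ∀ j, r' j ≠ 0 ∧ P.deg (r' j) = j) [Fintype (P.G m)]
    (B : Basis (P.G m) K (R ⧸ Ideal.span {h}))
    (hB : ∀ j, B j = Ideal.Quotient.mk (Ideal.span {h}) (r j)) :
    B.det (fun j => Ideal.Quotient.mk (Ideal.span {h}) (r' j)) =
      ∏ j, P.lc (r' j) / P.lc (r j) := by
  subst hm
  exact tri_det P hh hr hr' B hB

private theorem block1 {ι κ Q A : Type} [Fintype ι] [Fintype κ] [DecidableEq ι] [DecidableEq κ]
    [CommRing Q] [Algebra K Q] [CommRing A] [Algebra K A] (b : Basis (ι ⊕ κ) K Q)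
    (c : Basis κ K A) (q : Q →ₐ[K] A) (h1 : ∀ i, q (b (Sum.inl i)) = 0)
    (h2 : ∀ j, q (b (Sum.inr j)) = c j) (x : Q) (θ : ι ⊕ κ → Q)
    (hθ1 : ∀ i, θ (Sum.inl i) = b (Sum.inl i)) (hθ2 : ∀ j, θ (Sum.inr j) = x * b (Sum.inr j)) :
    (b.toMatrix θ).det = Algebra.norm K (q x) := by
  have key : ∀ (y : Q) (j : κ), b.repr y (Sum.inr j) = c.repr (q y) j := by
    intro y j
    have : b.coord (Sum.inr j) = (c.coord j).comp q.toLinearMap := by
      apply b.ext
      rintro (i | j')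
      · rw [LinearMap.comp_apply, AlgHom.toLinearMap_apply, h1, map_zero, Basis.coord_apply,
          Basis.repr_self, Finsupp.single_eq_of_ne (by simp)]
      · rw [LinearMap.comp_apply, AlgHom.toLinearMap_apply, h2, Basis.coord_apply,
          Basis.coord_apply, Basis.repr_self, Basis.repr_self]
        by_cases hj : j' = j
        · subst hj
          rw [Finsupp.single_eq_same, Finsupp.single_eq_same]
        · rw [Finsupp.single_eq_of_ne (fun h => hj (Sum.inr.inj h).symm),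
            Finsupp.single_eq_of_ne (fun h => hj h.symm)]
    exact LinearMap.congr_fun this y
  have hM : b.toMatrix θ = Matrix.fromBlocks 1 (Matrix.of fun i j => b.repr (θ (Sum.inr j)) (Sum.inl i))
      0 (Algebra.leftMulMatrix c (q x)) := by
    ext (i | j) (i' | j')
    · rw [Basis.toMatrix_apply, hθ1, Basis.repr_self, Matrix.fromBlocks_apply₁₁]
      by_cases hi : i = i'
      · subst hi
        rw [Finsupp.single_eq_same, Matrix.one_apply_eq]
      · rw [Finsupp.single_eq_of_ne (fun h => hi (Sum.inl.inj h)), Matrix.one_apply_ne hi]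
    · rw [Basis.toMatrix_apply, Matrix.fromBlocks_apply₁₂, Matrix.of_apply]
    · rw [Basis.toMatrix_apply, hθ1, key, h1, map_zero, Matrix.fromBlocks_apply₂₁]
      rfl
    · rw [Basis.toMatrix_apply, hθ2, key, map_mul, h2, Matrix.fromBlocks_apply₂₂,
        Algebra.leftMulMatrix_eq_repr_mul]
  rw [hM, Matrix.det_fromBlocks_zero₂₁, Matrix.det_one, one_mul, Algebra.norm_eq_matrix_det c]

private theorem block2 {ι κ Q A : Type} [Fintype ι] [Fintype κ] [DecidableEq ι] [DecidableEq κ]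
    [CommRing Q] [Algebra K Q] [CommRing A] [Algebra K A] (b : Basis (ι ⊕ κ) K Q)
    (c : Basis ι K A) (q : Q →ₐ[K] A) (h1 : ∀ j, q (b (Sum.inr j)) = 0)
    (h2 : ∀ i, q (b (Sum.inl i)) = c i) (x : Q) (θ : ι ⊕ κ → Q)
    (hθ1 : ∀ j, θ (Sum.inr j) = b (Sum.inr j)) (hθ2 : ∀ i, θ (Sum.inl i) = x * b (Sum.inl i)) :
    (b.toMatrix θ).det = Algebra.norm K (q x) := by
  have key : ∀ (y : Q) (j : ι), b.repr y (Sum.inl j) = c.repr (q y) j := by
    intro y j
    have : b.coord (Sum.inl j) = (c.coord j).comp q.toLinearMap := by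
      apply b.ext
      rintro (j' | i)
      · rw [LinearMap.comp_apply, AlgHom.toLinearMap_apply, h2, Basis.coord_apply,
          Basis.coord_apply, Basis.repr_self, Basis.repr_self]
        by_cases hj : j' = j
        · subst hj
          rw [Finsupp.single_eq_same, Finsupp.single_eq_same]
        · rw [Finsupp.single_eq_of_ne (fun h => hj (Sum.inl.inj h).symm),
            Finsupp.single_eq_of_ne (fun h => hj h.symm)]
      · rw [LinearMap.comp_apply, AlgHom.toLinearMap_apply, h1, map_zero, Basis.coord_apply,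
          Basis.repr_self, Finsupp.single_eq_of_ne (by simp)]
    exact LinearMap.congr_fun this y
  have hM : b.toMatrix θ = Matrix.fromBlocks (Algebra.leftMulMatrix c (q x)) 0
      (Matrix.of fun i j => b.repr (θ (Sum.inl j)) (Sum.inr i)) 1 := by
    ext (j | i) (j' | i')
    · rw [Basis.toMatrix_apply, hθ2, key, map_mul, h2, Matrix.fromBlocks_apply₁₁,
        Algebra.leftMulMatrix_eq_repr_mul]
    · rw [Basis.toMatrix_apply, hθ1, key, h1, map_zero, Matrix.fromBlocks_apply₁₂]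
      rfl
    · rw [Basis.toMatrix_apply, Matrix.fromBlocks_apply₂₁, Matrix.of_apply]
    · rw [Basis.toMatrix_apply, hθ1, Basis.repr_self, Matrix.fromBlocks_apply₂₂]
      by_cases hi : i = i'
      · subst hi
        rw [Finsupp.single_eq_same, Matrix.one_apply_eq]
      · rw [Finsupp.single_eq_of_ne (fun h => hi (Sum.inr.inj h)), Matrix.one_apply_ne hi]
  rw [hM, Matrix.det_fromBlocks_zero₁₂, Matrix.det_one, mul_one, Algebra.norm_eq_matrix_det c]

private theorem e_ne (P : OnePt K R) (j : P.D) : P.e j ≠ 0 := by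
  intro h
  have h1 := lc_e P j
  rw [h, P.lc_zero] at h1
  exact zero_ne_one h1

private theorem prod_lc {P : OnePt K R} {d e : ℕ} (hd : d ∈ P.D) (he : e ∈ P.D)
    [Fintype (P.G (d + e))] (π : P.G e ⊕ P.G d ≃ P.G (d + e)) (u : P.G e ⊕ P.G d → R) {x y : K}
    (h1 : ∀ i, P.lc (u (Sum.inl i)) = x) (h2 : ∀ j, P.lc (u (Sum.inr j)) = y) :
    ∏ j, P.lc (u (π.symm j)) = x ^ e * y ^ d := by
  have : Fintype (P.G e) := (G_fin P he).fintype
  have : Fintype (P.G d) := (G_fin P hd).fintype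
  rw [← Equiv.prod_comp π, Fintype.prod_sum_type]
  simp only [Equiv.symm_apply_apply, h1, h2, Finset.prod_const, Finset.card_univ]
  rw [← Nat.card_eq_fintype_card, ← Nat.card_eq_fintype_card]
  have c1 : Nat.card (P.G e) = e := G_card P he
  have c2 : Nat.card (P.G d) = d := G_card P hd
  rw [c1, c2]

private theorem core (P : OnePt K R) {d e : ℕ} {f h : R} (hf : f ≠ 0) (hh : h ≠ 0)
    (hdf : P.deg f = d) (hdh : P.deg h = e) (hd : d ∈ P.D) (he : e ∈ P.D) :
    Algebra.norm K (Ideal.Quotient.mk (Ideal.span {f}) h) * P.lc f ^ e =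
      (((sg hd he : ℤˣ) : ℤ) : K) * P.lc h ^ d *
        Algebra.norm K (Ideal.Quotient.mk (Ideal.span {h}) f) := by
  have : IsDomain R := isDomain P
  have i1 : Fintype (P.G (d + e)) := (G_fin P (D_add P hd he)).fintype
  have i2 : Fintype (P.G e) := (G_fin P he).fintype
  have i3 : Fintype (P.G d) := (G_fin P hd).fintype
  have hfh : f * h ≠ 0 := mul_ne_zero hf hh
  have hdeg : P.deg (f * h) = d + e := by rw [P.deg_mul hf hh, hdf, hdh]
  obtain ⟨u1, hu1l, hu1r⟩ : ∃ u1 : P.G e ⊕ P.G d → R, (∀ i, u1 (Sum.inl i) = f * P.e ⟨i, i.2.1⟩) ∧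
      ∀ j, u1 (Sum.inr j) = P.e ⟨j, j.2.1⟩ :=
    ⟨Sum.elim (fun i => f * P.e ⟨i, i.2.1⟩) (fun j => P.e ⟨j, j.2.1⟩), fun _ => rfl, fun _ => rfl⟩
  obtain ⟨u2, hu2l, hu2r⟩ : ∃ u2 : P.G e ⊕ P.G d → R, (∀ i, u2 (Sum.inl i) = P.e ⟨i, i.2.1⟩) ∧
      ∀ j, u2 (Sum.inr j) = h * P.e ⟨j, j.2.1⟩ :=
    ⟨Sum.elim (fun i => P.e ⟨i, i.2.1⟩) (fun j => h * P.e ⟨j, j.2.1⟩), fun _ => rfl, fun _ => rfl⟩
  have hv1 : ∀ j : P.G (d + e), u1 ((pi1 hd he).symm j) ≠ 0 ∧
      P.deg (u1 ((pi1 hd he).symm j)) = j := by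
    intro j
    obtain ⟨x, rfl⟩ := (pi1 hd he).surjective j
    rw [Equiv.symm_apply_apply]
    rcases x with i | j
    · rw [hu1l]
      refine ⟨mul_ne_zero hf (e_ne P _), ?_⟩
      rw [P.deg_mul hf (e_ne P _), hdf, deg_e]
      exact add_comm _ _
    · rw [hu1r]
      exact ⟨e_ne P _, deg_e P _⟩
  have hv2 : ∀ j : P.G (d + e), u2 ((pi2 hd he).symm j) ≠ 0 ∧
      P.deg (u2 ((pi2 hd he).symm j)) = j := by
    intro j
    obtain ⟨x, rfl⟩ := (pi2 hd he).surjective j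
    rw [Equiv.symm_apply_apply]
    rcases x with i | j
    · rw [hu2l]
      exact ⟨e_ne P _, deg_e P _⟩
    · rw [hu2r]
      refine ⟨mul_ne_zero hh (e_ne P _), ?_⟩
      rw [P.deg_mul hh (e_ne P _), hdh, deg_e]
      exact add_comm _ _
  obtain ⟨B1, hB1⟩ := tri' P hfh hdeg hv1
  obtain ⟨B2, hB2⟩ := tri' P hfh hdeg hv2
  have hdet := tri_det' P hfh hdeg hv1 hv2 B1 hB1
  rw [Finset.prod_div_distrib,
    prod_lc hd he (pi2 hd he) u2 (x := 1) (y := P.lc h) (fun i => by rw [hu2l, lc_e])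
      (fun j => by rw [hu2r, P.lc_mul, lc_e, mul_one]),
    prod_lc hd he (pi1 hd he) u1 (x := P.lc f) (y := 1)
      (fun i => by rw [hu1l, P.lc_mul, lc_e, mul_one]) (fun j => by rw [hu1r, lc_e]),
    one_pow, one_pow, one_mul, mul_one] at hdet
  have hB2' : (fun j => Ideal.Quotient.mk (Ideal.span {f * h}) (u2 ((pi2 hd he).symm j))) = B2 := by
    funext j
    exact (hB2 j).symm
  rw [hB2', Basis.det_apply] at hdet
  -- the bases of the factors
  obtain ⟨Bf, hBf⟩ := tri' P hf hdf (r := fun j => P.e ⟨j, j.2.1⟩) (fun j => ⟨e_ne P _, deg_e P _⟩)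
  obtain ⟨Bh, hBh⟩ := tri' P hh hdh (r := fun j => P.e ⟨j, j.2.1⟩) (fun j => ⟨e_ne P _, deg_e P _⟩)
  have hlef : Ideal.span {f * h} ≤ Ideal.span {f} :=
    Ideal.span_singleton_le_span_singleton.2 (dvd_mul_right f h)
  have hleh : Ideal.span {f * h} ≤ Ideal.span {h} :=
    Ideal.span_singleton_le_span_singleton.2 (dvd_mul_left h f)
  obtain ⟨b1, hb1⟩ : ∃ b1 : Basis (P.G e ⊕ P.G d) K (R ⧸ Ideal.span {f * h}),
      b1 = B1.reindex (pi1 hd he).symm := ⟨_, rfl⟩
  obtain ⟨b2, hb2⟩ : ∃ b2 : Basis (P.G e ⊕ P.G d) K (R ⧸ Ideal.span {f * h}),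
      b2 = B2.reindex (pi2 hd he).symm := ⟨_, rfl⟩
  have hb1x : ∀ x, b1 x = Ideal.Quotient.mk (Ideal.span {f * h}) (u1 x) := by
    intro x
    rw [hb1, Basis.reindex_apply, Equiv.symm_symm, hB1, Equiv.symm_apply_apply]
  have hb2x : ∀ x, b2 x = Ideal.Quotient.mk (Ideal.span {f * h}) (u2 x) := by
    intro x
    rw [hb2, Basis.reindex_apply, Equiv.symm_symm, hB2, Equiv.symm_apply_apply]
  obtain ⟨θ, hθl, hθr⟩ : ∃ θ : P.G e ⊕ P.G d → R ⧸ Ideal.span {f * h},
      (∀ i, θ (Sum.inl i) = Ideal.Quotient.mk (Ideal.span {f * h}) (f * P.e ⟨i, i.2.1⟩)) ∧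
      ∀ j, θ (Sum.inr j) = Ideal.Quotient.mk (Ideal.span {f * h}) (h * P.e ⟨j, j.2.1⟩) :=
    ⟨Sum.elim (fun i => Ideal.Quotient.mk (Ideal.span {f * h}) (f * P.e ⟨i, i.2.1⟩))
      (fun j => Ideal.Quotient.mk (Ideal.span {f * h}) (h * P.e ⟨j, j.2.1⟩)),
      fun _ => rfl, fun _ => rfl⟩
  have hd1 : (b1.toMatrix θ).det = Algebra.norm K (Ideal.Quotient.mk (Ideal.span {f}) h) := by
    refine block1 b1 Bf (Ideal.Quotient.factorₐ K hlef) (fun i => ?_) (fun j => ?_)
      (Ideal.Quotient.mk (Ideal.span {f * h}) h) θ (fun i => ?_) (fun j => ?_)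
    · rw [hb1x, hu1l]
      change Ideal.Quotient.mk (Ideal.span {f}) (f * P.e ⟨i, i.2.1⟩) = 0
      rw [Ideal.Quotient.eq_zero_iff_mem]
      exact Ideal.mul_mem_right _ _ (Ideal.mem_span_singleton_self f)
    · rw [hb1x, hu1r, hBf]
      rfl
    · rw [hθl, hb1x, hu1l]
    · rw [hθr, hb1x, hu1r, map_mul]
  have hd2 : (b2.toMatrix θ).det = Algebra.norm K (Ideal.Quotient.mk (Ideal.span {h}) f) := by
    refine block2 b2 Bh (Ideal.Quotient.factorₐ K hleh) (fun j => ?_) (fun i => ?_)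
      (Ideal.Quotient.mk (Ideal.span {f * h}) f) θ (fun j => ?_) (fun i => ?_)
    · rw [hb2x, hu2r]
      change Ideal.Quotient.mk (Ideal.span {h}) (h * P.e ⟨j, j.2.1⟩) = 0
      rw [Ideal.Quotient.eq_zero_iff_mem]
      exact Ideal.mul_mem_right _ _ (Ideal.mem_span_singleton_self h)
    · rw [hb2x, hu2l, hBh]
      rfl
    · rw [hθr, hb2x, hu2r]
    · rw [hθl, hb2x, hu2l, map_mul]
  have hsub : b1.toMatrix b2 = (B1.toMatrix B2).submatrix (pi1 hd he) (pi2 hd he) := by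
    ext x y
    rw [Matrix.submatrix_apply, Basis.toMatrix_apply, Basis.toMatrix_apply, hb1, hb2,
      Basis.reindex_apply, Basis.repr_reindex_apply, Equiv.symm_symm, Equiv.symm_symm]
  have hperm : (b1.toMatrix b2).det = (((sg hd he : ℤˣ) : ℤ) : K) * (B1.toMatrix B2).det := by
    have e1 : (B1.toMatrix B2).submatrix (pi1 hd he) (pi2 hd he) =
        (((B1.toMatrix B2).submatrix ((pi2 hd he).symm.trans (pi1 hd he)) id).submatrix
          (pi2 hd he) (pi2 hd he)) := by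
      ext x y
      simp only [Matrix.submatrix_apply, Equiv.trans_apply, Equiv.symm_apply_apply, id]
    rw [hsub, e1, Matrix.det_submatrix_equiv_self, Matrix.det_permute]
    have hi : i1 = (G_fin P (D_add P hd he)).fintype := Subsingleton.elim _ _
    subst hi
    rfl
  have hmul := congrArg Matrix.det (Basis.toMatrix_mul_toMatrix b1 b2 θ)
  rw [Matrix.det_mul, hd1, hd2, hperm, hdet] at hmul
  have hlf : P.lc f ^ e ≠ 0 := pow_ne_zero _ (P.lc_ne hf)
  rw [← hmul]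
  field_simp

theorem reciprocity (P : OnePt K R) : ∃ ε : ℕ → ℕ → K, (∀ d e, ε d e = 1 ∨ ε d e = -1) ∧ ∀ f h : R, f ≠ 0 → h ≠ 0 →
    Algebra.norm K (Ideal.Quotient.mk (Ideal.span {h}) f) * P.lc h ^ P.deg f =
      ε (P.deg f) (P.deg h) * P.lc f ^ P.deg h * Algebra.norm K (Ideal.Quotient.mk (Ideal.span {f}) h) := by
  classical
  refine ⟨fun d e => if h : d ∈ P.D ∧ e ∈ P.D then (((sg h.1 h.2 : ℤˣ) : ℤ) : K) else 1,
    fun d e => ?_, fun f h hf hh => ?_⟩
  · by_cases hde : d ∈ P.D ∧ e ∈ P.D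
    · simp only [dif_pos hde]
      rcases Int.units_eq_one_or (sg hde.1 hde.2) with h1 | h1
      · left
        rw [h1]
        simp
      · right
        rw [h1]
        simp
    · left
      simp only [dif_neg hde]
  · have hd := mem_D P hf
    have he := mem_D P hh
    have hc := core P hf hh rfl rfl hd he
    simp only [dif_pos (And.intro hd he)]
    have hs : (((sg hd he : ℤˣ) : ℤ) : K) * (((sg hd he : ℤˣ) : ℤ) : K) = 1 := by
      rcases Int.units_eq_one_or (sg hd he) with h1 | h1 <;> rw [h1] <;> simp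
    calc Algebra.norm K (Ideal.Quotient.mk (Ideal.span {h}) f) * P.lc h ^ P.deg f
        = ((((sg hd he : ℤˣ) : ℤ) : K) * (((sg hd he : ℤˣ) : ℤ) : K)) *
          (Algebra.norm K (Ideal.Quotient.mk (Ideal.span {h}) f) * P.lc h ^ P.deg f) := by
          rw [hs, one_mul]
      _ = (((sg hd he : ℤˣ) : ℤ) : K) * ((((sg hd he : ℤˣ) : ℤ) : K) * P.lc h ^ P.deg f *
          Algebra.norm K (Ideal.Quotient.mk (Ideal.span {h}) f)) := by ring
      _ = _ := by rw [← hc]; ring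

end GB
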