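import Pool.Agent.H99.GB.Zr
import Pool.Agent.H99.GB.QDet
import Pool.Agent.H99.GB.Rec

/-! # GB.ZrC : zeros of an element of `R`, and Weil reciprocity for zeros (120 lines)

`zr_const`: by `uniq` it is enough that `norm (1 ⊗ g | F ⊗ R / (1 ⊗ f))` = `algebraMap (norm (g | R / f))` for all `g ∈ R`: the bases `mk (e_j)`, `mk (1 ⊗ e_j)` (`j ∈ G (deg f)`; `tri` for `P` and `P.bc F`, `bc_D`, `bc_deg`) have the same matrix of the
multiplication by `g` (`g e_j = Σ M_(ij) e_i + f u_j` in `R` gives the same in `F ⊗ R`), or use `Algebra.norm` and base change of `R / f`.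
`zr_rec`: `reciprocity` for `P.bc F` and the elements `1 ⊗ f`, `x`; `zr_prod`; and `norm (x | F ⊗ R / (1 ⊗ f)) = ∏_(χ ∈ zq F (1 ⊗ f)) χ x` (`zq_prod`), `χ = evF (resF χ)`, `zr_const`.  `zk_rec` is `reciprocity` with `zq_prod`. -/

namespace GB

open Module TensorProduct

variable {K R F : Type} [Field K] [IsAlgClosed K] [CommRing R] [Algebra K R] [Field F] [IsAlgClosed F] [Algebra K F]

omit [IsAlgClosed K] [IsAlgClosed F] in
private theorem one_tmul_ne (P : OnePt K R) {f : R} (hf : f ≠ 0) : (1 : F) ⊗ₜ[K] f ≠ 0 := by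
  intro h
  have h1 := bc_lc P F f
  rw [h, (P.bc F).lc_zero] at h1
  have h2 : P.lc f = 0 := by
    apply (algebraMap K F).injective
    rw [map_zero, ← h1]
  exact P.lc_ne hf h2

omit [IsAlgClosed K] [IsAlgClosed F] in
private theorem norm_bc (P : OnePt K R) {f : R} (hf : f ≠ 0) (g : R) :
    Algebra.norm F (Ideal.Quotient.mk (Ideal.span {(1 : F) ⊗ₜ[K] f}) ((1 : F) ⊗ₜ[K] g)) =
      algebraMap K F (Algebra.norm K (Ideal.Quotient.mk (Ideal.span {f}) g)) := by
  have := quo_fin P hf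
  have hI : (Ideal.span {f}).map (Algebra.TensorProduct.includeRight (A := F) (R := K)) = Ideal.span {(1 : F) ⊗ₜ[K] f} := by
    rw [Ideal.map_span, Set.image_singleton]
    rfl
  rw [← hI]
  have h1 := Algebra.norm_eq_of_algEquiv (Algebra.TensorProduct.tensorQuotientEquiv (R := K) F R F (Ideal.span {f}))
    ((1 : F) ⊗ₜ[K] (Ideal.Quotient.mk (Ideal.span {f}) g))
  have h2 : Algebra.TensorProduct.tensorQuotientEquiv (R := K) F R F (Ideal.span {f})
      ((1 : F) ⊗ₜ[K] (Ideal.Quotient.mk (Ideal.span {f}) g)) =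
      Ideal.Quotient.mk ((Ideal.span {f}).map (Algebra.TensorProduct.includeRight (A := F) (R := K))) ((1 : F) ⊗ₜ[K] g) := rfl
  rw [h2] at h1
  rw [h1, Algebra.norm_apply, Algebra.norm_apply, ← LinearMap.det_baseChange]
  congr 1
  apply TensorProduct.AlgebraTensorModule.ext
  intro a b
  simp

theorem zr_const (P : OnePt K R) {f : R} (hf : f ≠ 0) : zr ((1 : F) ⊗ₜ[K] f) = (zk K f).map (cF F) := by
  have := quo_fin P hf
  apply uniq
  intro g
  rw [zr_prod P (one_tmul_ne P hf) g, norm_bc P hf g, Multiset.map_map]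
  have h : (Multiset.map ((fun β : R →ₐ[K] F => β g) ∘ cF F) (zk K f)) = ((zk K f).map fun c => c g).map (algebraMap K F) := by
    rw [Multiset.map_map]
    rfl
  rw [h, Multiset.prod_hom, zk, zq_prod]

/-- Weil reciprocity over `K` -/
theorem zk_rec (P : OnePt K R) : ∃ ε : ℕ → ℕ → K, (∀ d e, ε d e = 1 ∨ ε d e = -1) ∧ ∀ (f x : R), f ≠ 0 → x ≠ 0 →
    ((zk K x).map fun b => b f).prod * P.lc x ^ P.deg f =
      ε (P.deg f) (P.deg x) * P.lc f ^ P.deg x * ((zk K f).map fun c => c x).prod := by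
  obtain ⟨ε, h0, h⟩ := reciprocity P
  refine ⟨ε, h0, fun f x hf hx => ?_⟩
  have := quo_fin P hf
  have := quo_fin P hx
  rw [zk, zk, zq_prod, zq_prod]
  exact h f x hf hx

/-- Weil reciprocity for zeros -/
theorem zr_rec (P : OnePt K R) : ∃ ε : ℕ → ℕ → F, (∀ d e, ε d e = 1 ∨ ε d e = -1) ∧ ∀ (f : R) (x : F ⊗[K] R), f ≠ 0 → x ≠ 0 →
    ((zr x).map fun β => β f).prod * (P.bc F).lc x ^ P.deg f =
      ε (P.deg f) ((P.bc F).deg x) * algebraMap K F (P.lc f) ^ (P.bc F).deg x * ((zk K f).map fun c => evF (cF F c) x).prod := by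
  obtain ⟨ε, h0, h⟩ := reciprocity (P.bc F)
  refine ⟨ε, h0, fun f x hf hx => ?_⟩
  have hf' : (1 : F) ⊗ₜ[K] f ≠ 0 := one_tmul_ne P hf
  have := quo_fin (P.bc F) hf'
  have h1 := h ((1 : F) ⊗ₜ[K] f) x hf' hx
  rw [bc_deg, bc_lc, ← zr_prod P hx f] at h1
  rw [h1]
  congr 1
  have h2 : ((zk K f).map fun c => evF (cF F c) x) = (zq F (Ideal.span {(1 : F) ⊗ₜ[K] f})).map fun χ => χ x := by
    have h3 : ((zr ((1 : F) ⊗ₜ[K] f)).map fun β => evF β x) = (zk K f).map fun c => evF (cF F c) x := by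
      rw [zr_const P hf, Multiset.map_map]
      rfl
    rw [← h3, zr, Multiset.map_map]
    apply Multiset.map_congr rfl
    intro χ _
    simp only [Function.comp_apply, evF_resF]
  rw [h2, zq_prod]

/-- two elements with the same degree and the same leading coefficient: the ratio of the values of `f` on their zeros is the ratio of their values on the zeros of `f` -/
theorem zr_ratio (P : OnePt K R) {f : R} (hf : f ≠ 0) {x y : F ⊗[K] R} (hx : x ≠ 0) (hy : y ≠ 0)
    (hd : (P.bc F).deg x = (P.bc F).deg y) (hl : (P.bc F).lc x = (P.bc F).lc y) :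
    ((zr x).map fun β => β f).prod * ((zk K f).map fun c => evF (cF F c) y).prod =
      ((zr y).map fun β => β f).prod * ((zk K f).map fun c => evF (cF F c) x).prod := by
  obtain ⟨ε, h0, h⟩ := zr_rec (F := F) P
  have h1 := h f x hf hx
  have h2 := h f y hf hy
  rw [hd, hl] at h1
  have h3 : (P.bc F).lc y ^ P.deg f ≠ 0 := pow_ne_zero _ ((P.bc F).lc_ne hy)
  apply mul_right_cancel₀ h3
  calc _ = (((zr x).map fun β => β f).prod * (P.bc F).lc y ^ P.deg f) * ((zk K f).map fun c => evF (cF F c) y).prod := by ring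
    _ = (((zr y).map fun β => β f).prod * (P.bc F).lc y ^ P.deg f) * ((zk K f).map fun c => evF (cF F c) x).prod := by
      rw [h1, h2]; ring
    _ = _ := by ring

end GB
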