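import Pool.Agent.H99.GB.Inf
import Pool.Agent.H99.GB.ZrC
import Pool.Agent.H99.GB.Rts

/-! # GB.ZrRd : specialisation of the zeros of an element of `Om K ⊗ R` (150 lines)

`x` reduces to `x' ≠ 0`.  Fix `f ∈ R` with `deg f > 0`.  For `c ∈ K` put `f_c = f - c` (`deg f_c = deg f`, `lc f_c = lc f`).  `zr_rec` for `x` and `f_c`, and `zk_rec` for `x'` and `f_c`:
`lc x ^ deg f * ∏_(β ∈ zr x) (β f - c) = ε₁ * lc f ^ deg x * N(c)`, `lc x' ^ deg f * ∏_(b ∈ zk x') (b f - c) = ε₂ * lc f ^ deg x' * N'(c)` with `N(c) = ∏_(z ∈ zk f_c) evF z x`, which reduces to `N'(c) = ∏_(z ∈ zk f_c) z x'` (`RdR.ev`, `rdP_cF`).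
So the polynomial `p = C (lc x ^ deg f) * ∏ (C (β f) - X)` and `p' = C (nonzero constant) * ∏ (C (b f) - X)` satisfy the hypothesis of `coeff_rd`; `roots_drop` says: exactly `deg x'` of the values `β f` (`β ∈ zr x`) are integral, and they
reduce to the multiset of the `b f`.  Let `S` = the `β ∈ zr x` with all values integral, `T` = the others; `inf_all`: for `β ∈ T` and every `f` of positive degree `β f ∉ V`.  So `card S = deg x'`; `S` reduces to a multiset `S'` of points over `K`
(`exists_rdP`), and `∏_(S') b f = ∏_(zk x') b f` for all `f` (roots of `p'`; `deg f = 0`: constants), so `S' = zk x'` by `uniq`.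
(If there is no `f` of positive degree ... there is one by `big`.) -/

namespace GB

open Module TensorProduct H68.BB

variable {K R : Type} [Field K] [IsAlgClosed K] [CommRing R] [Algebra K R] {π : Place K (Om K)}

private theorem zd_eval {F : Type} [Field F] (a : F) (M : Multiset F) (c : F) :
    (Polynomial.C (a * (-1) ^ Multiset.card M) *
      (M.map (fun r => Polynomial.X - Polynomial.C r)).prod).eval c =
      a * (M.map (fun r => r - c)).prod := by
  rw [Polynomial.eval_mul, Polynomial.eval_C, Polynomial.eval_multiset_prod, Multiset.map_map,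
    mul_assoc]
  congr 1
  induction M using Multiset.induction_on with
  | empty => simp
  | cons r M ih =>
    rw [Multiset.map_cons, Multiset.prod_cons, Multiset.map_cons, Multiset.prod_cons,
      Multiset.card_cons, ← ih]
    simp only [Function.comp_apply, Polynomial.eval_sub, Polynomial.eval_X, Polynomial.eval_C]
    ring

private theorem zd_roots {F : Type} [Field F] {a : F} (ha : a ≠ 0) (M : Multiset F) :
    (Polynomial.C (a * (-1) ^ Multiset.card M) *
      (M.map (fun r => Polynomial.X - Polynomial.C r)).prod).roots = M := by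
  rw [Polynomial.roots_C_mul _ (mul_ne_zero ha (pow_ne_zero _ (neg_ne_zero.mpr one_ne_zero))),
    Polynomial.roots_multiset_prod_X_sub_C]

omit [IsAlgClosed K] in
private theorem zd_prod {A : Type} (Z : Multiset A) {g : A → Om K} {g' : A → K}
    (h : ∀ z ∈ Z, Rd π.V π.φ (g z) (g' z)) :
    Rd π.V π.φ (Z.map g).prod (Z.map g').prod := by
  induction Z using Multiset.induction_on with
  | empty =>
    rw [Multiset.map_zero, Multiset.map_zero, Multiset.prod_zero, Multiset.prod_zero]
    exact Rd.one
  | cons z Z ih =>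
    rw [Multiset.map_cons, Multiset.map_cons, Multiset.prod_cons, Multiset.prod_cons]
    exact (h z (Multiset.mem_cons_self z Z)).mul
      (ih (fun w hw => h w (Multiset.mem_cons_of_mem hw)))

private theorem zd_func {A B : Type} {r : A → B → Prop} (hr : ∀ a b b', r a b → r a b' → b = b')
    (M : Multiset A) : ∀ N N' : Multiset B, Multiset.Rel r M N → Multiset.Rel r M N' → N = N' := by
  induction M using Multiset.induction_on with
  | empty =>
    intro N N' h h'
    rw [Multiset.rel_zero_left] at h h'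
    rw [h, h']
  | cons a M ih =>
    intro N N' h h'
    rw [Multiset.rel_cons_left] at h h'
    obtain ⟨b, bs, h1, h2, h3⟩ := h
    obtain ⟨b', bs', h1', h2', h3'⟩ := h'
    rw [h3, h3', hr a b b' h1 h1', ih bs bs' h2 h2']

omit [IsAlgClosed K] in
private theorem zd_lift (S : Multiset (R →ₐ[K] Om K)) (h : ∀ β ∈ S, ∀ f : R, β f ∈ π.V) :
    ∃ S' : Multiset (R →ₐ[K] K), Multiset.Rel (RdP π) S S' := by
  induction S using Multiset.induction_on with
  | empty => exact ⟨0, Multiset.Rel.zero⟩
  | cons β S ih =>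
    obtain ⟨S', hS'⟩ := ih (fun γ hγ => h γ (Multiset.mem_cons_of_mem hγ))
    obtain ⟨b, hb⟩ := exists_rdP (h β (Multiset.mem_cons_self β S))
    exact ⟨b ::ₘ S', Multiset.Rel.cons hb hS'⟩

omit [IsAlgClosed K] in
private theorem zd_shift (P : OnePt K R) {f : R} (hf : 0 < P.deg f) (c : K) :
    P.deg (f - algebraMap K R c) = P.deg f ∧ P.lc (f - algebraMap K R c) = P.lc f := by
  rw [sub_eq_add_neg]
  apply add_lt
  rw [← map_neg]
  right
  rw [P.deg_const]
  exact hf

/-- the values of one function of positive degree -/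
private theorem zd_val (P : OnePt K R) {x : Om K ⊗[K] R} {x' : R} (hx : RdR π P x x') (hx' : x' ≠ 0)
    (h0 : x ≠ 0) {f : R} (hf : 0 < P.deg f) :
    ∃ S T : Multiset (Om K), ((zr x).map fun β => β f) = S + T ∧
      Multiset.Rel (Rd π.V π.φ) S ((zk K x').map fun b => b f) ∧ ∀ r ∈ T, r ∉ π.V := by
  obtain ⟨ε, hε, h1⟩ := zr_rec (F := Om K) P
  obtain ⟨ε', hε', h2⟩ := zk_rec P
  have hf0 : f ≠ 0 := by
    rintro rfl
    rw [P.deg_zero] at hf
    exact lt_irrefl _ hf
  have hfc : ∀ c : K, f - algebraMap K R c ≠ 0 := by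
    intro c h
    have h3 := (zd_shift P hf c).1
    rw [h, P.deg_zero] at h3
    omega
  have hne1 : ∀ d e, ε d e ≠ 0 := by
    intro d e
    rcases hε d e with h | h <;> rw [h] <;> simp
  have hne2 : ∀ d e, ε' d e ≠ 0 := by
    intro d e
    rcases hε' d e with h | h <;> rw [h] <;> simp
  have hA : (P.bc (Om K)).lc x ≠ 0 := (P.bc (Om K)).lc_ne h0
  have hA' : P.lc x' ≠ 0 := P.lc_ne hx'
  have hL : P.lc f ≠ 0 := P.lc_ne hf0
  have hL' : algebraMap K (Om K) (P.lc f) ≠ 0 := (map_ne_zero _).mpr hL
  set E : Om K := ε (P.deg f) ((P.bc (Om K)).deg x) *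
    algebraMap K (Om K) (P.lc f) ^ (P.bc (Om K)).deg x with hE
  have hE0 : E ≠ 0 := mul_ne_zero (hne1 _ _) (pow_ne_zero _ hL')
  set E' : K := ε' (P.deg f) (P.deg x') * P.lc f ^ P.deg x' with hE'
  have hE0' : E' ≠ 0 := mul_ne_zero (hne2 _ _) (pow_ne_zero _ hL)
  set a : Om K := (P.bc (Om K)).lc x ^ P.deg f * E⁻¹ with ha
  have ha0 : a ≠ 0 := mul_ne_zero (pow_ne_zero _ hA) (inv_ne_zero hE0)
  set a' : K := P.lc x' ^ P.deg f * E'⁻¹ with ha'
  have ha0' : a' ≠ 0 := mul_ne_zero (pow_ne_zero _ hA') (inv_ne_zero hE0')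
  set M : Multiset (Om K) := (zr x).map fun β => β f with hM
  set M' : Multiset K := (zk K x').map fun b => b f with hM'
  set p : Polynomial (Om K) := Polynomial.C (a * (-1) ^ Multiset.card M) *
      (M.map (fun r => Polynomial.X - Polynomial.C r)).prod with hp
  set p' : Polynomial K := Polynomial.C (a' * (-1) ^ Multiset.card M') *
      (M'.map (fun r => Polynomial.X - Polynomial.C r)).prod with hp'
  have hev : ∀ c : K, Rd π.V π.φ (p.eval (cst c)) (p'.eval c) := by
    intro c
    have e1 : p.eval (cst c) =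
        ((zk K (f - algebraMap K R c)).map fun z => evF (cF (Om K) z) x).prod := by
      rw [hp, zd_eval, hM, Multiset.map_map]
      have h3 := h1 (f - algebraMap K R c) x (hfc c) h0
      rw [(zd_shift P hf c).1, (zd_shift P hf c).2, ← hE] at h3
      have h4 : ((zr x).map fun β => β (f - algebraMap K R c)) =
          (zr x).map ((fun r => r - cst c) ∘ fun β => β f) := by
        refine Multiset.map_congr rfl (fun β _ => ?_)
        simp
      rw [h4] at h3
      rw [ha]
      calc _ = E⁻¹ * (((zr x).map ((fun r => r - cst c) ∘ fun β => β f)).prod *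
            (P.bc (Om K)).lc x ^ P.deg f) := by ring
        _ = _ := by
          rw [h3, ← mul_assoc, inv_mul_cancel₀ hE0, one_mul]
    have e2 : p'.eval c = ((zk K (f - algebraMap K R c)).map fun z => z x').prod := by
      rw [hp', zd_eval, hM', Multiset.map_map]
      have h3 := h2 (f - algebraMap K R c) x' (hfc c) hx'
      rw [(zd_shift P hf c).1, (zd_shift P hf c).2, ← hE'] at h3
      have h4 : ((zk K x').map fun b => b (f - algebraMap K R c)) =
          (zk K x').map ((fun r => r - c) ∘ fun b => b f) := by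
        refine Multiset.map_congr rfl (fun b _ => ?_)
        simp
      rw [h4] at h3
      rw [ha']
      calc _ = E'⁻¹ * (((zk K x').map ((fun r => r - c) ∘ fun b => b f)).prod *
            P.lc x' ^ P.deg f) := by ring
        _ = _ := by
          rw [h3, ← mul_assoc, inv_mul_cancel₀ hE0', one_mul]
    rw [e1, e2]
    exact zd_prod _ (fun z _ => hx.ev (rdP_cF z))
  have hinf : Infinite K := IsAlgClosed.instInfinite
  have hp0 : p' ≠ 0 := by
    rw [hp']
    refine mul_ne_zero ?_ ?_
    · rw [Ne, Polynomial.C_eq_zero]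
      exact mul_ne_zero ha0' (pow_ne_zero _ (neg_ne_zero.mpr one_ne_zero))
    · exact (Polynomial.monic_multiset_prod_of_monic _ _
        (fun r _ => Polynomial.monic_X_sub_C r)).ne_zero
  obtain ⟨S, T, h3, h4, h5⟩ := roots_drop (fun i => coeff_rd hev i) hp0
  rw [hp, zd_roots ha0] at h3
  rw [hp', zd_roots ha0'] at h4
  exact ⟨S, T, h3, h4, h5⟩

theorem zr_rd (P : OnePt K R) {x : Om K ⊗[K] R} {x' : R} (hx : RdR π P x x') (hx' : x' ≠ 0) (h0 : x ≠ 0) :
    ∃ S T : Multiset (R →ₐ[K] Om K), zr x = S + T ∧ Multiset.Rel (RdP π) S (zk K x') ∧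
      ∀ β ∈ T, ∀ f : R, 0 < P.deg f → β f ∉ π.V := by
  classical
  set S := (zr x).filter (fun β => ∀ f : R, β f ∈ π.V) with hS
  set T := (zr x).filter (fun β => ¬ ∀ f : R, β f ∈ π.V) with hT
  have hST : zr x = S + T := (Multiset.filter_add_not _ _).symm
  have hSV : ∀ β ∈ S, ∀ f : R, β f ∈ π.V := fun β hβ => (Multiset.mem_filter.mp hβ).2
  have hTV : ∀ β ∈ T, ∀ f : R, 0 < P.deg f → β f ∉ π.V := by
    intro β hβ f hf
    have h := (Multiset.mem_filter.mp hβ).2
    push Not at h
    obtain ⟨f₀, hf₀⟩ := h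
    exact inf_all P hf₀ hf
  obtain ⟨S', hS'⟩ := zd_lift S hSV
  have key : ∀ f : R, 0 < P.deg f → (S'.map fun b => b f) = (zk K x').map fun b => b f := by
    intro f hf
    obtain ⟨A, B, h1, h2, h3⟩ := zd_val P hx hx' h0 hf
    rw [hST, Multiset.map_add] at h1
    have h4 : (S.map fun β => β f) = A := by
      have h5 := congrArg (Multiset.filter (fun r => r ∈ π.V)) h1
      rw [Multiset.filter_add, Multiset.filter_add] at h5
      have h6 : Multiset.filter (fun r => r ∈ π.V) (S.map fun β => β f) = S.map fun β => β f := by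
        rw [Multiset.filter_eq_self]
        intro r hr
        obtain ⟨β, hβ, rfl⟩ := Multiset.mem_map.mp hr
        exact hSV β hβ f
      have h7 : Multiset.filter (fun r => r ∈ π.V) (T.map fun β => β f) = 0 := by
        rw [Multiset.filter_eq_nil]
        intro r hr
        obtain ⟨β, hβ, rfl⟩ := Multiset.mem_map.mp hr
        exact hTV β hβ f hf
      have h8 : Multiset.filter (fun r => r ∈ π.V) A = A := by
        rw [Multiset.filter_eq_self]
        intro r hr
        obtain ⟨r', _, hr'⟩ := Multiset.exists_mem_of_rel_of_mem h2 hr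
        exact hr'.mem
      have h9 : Multiset.filter (fun r => r ∈ π.V) B = 0 := by
        rw [Multiset.filter_eq_nil]
        exact h3
      rw [h6, h7, h8, h9, add_zero, add_zero] at h5
      exact h5
    have h10 : Multiset.Rel (Rd π.V π.φ) (S.map fun β => β f) (S'.map fun b => b f) := by
      rw [Multiset.rel_map]
      exact hS'.mono (fun β _ b _ h => h f)
    rw [← h4] at h2
    exact zd_func (fun a b b' h h' => h.unique h') _ _ _ h10 h2
  have hcard : Multiset.card S' = Multiset.card (zk K x') := by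
    obtain ⟨N, hN⟩ := P.big
    obtain ⟨f, _, hf⟩ := hN (N + 1) (Nat.le_succ N)
    have h := congrArg Multiset.card (key f (by omega))
    rwa [Multiset.card_map, Multiset.card_map] at h
  have hinf : Infinite K := IsAlgClosed.instInfinite
  have hfin : S' = zk K x' := by
    apply uniq (K := K) (F := K)
    intro f
    rcases Nat.eq_zero_or_pos (P.deg f) with hf | hf
    · have hc := const_of_deg P hf
      have h : ∀ Z : Multiset (R →ₐ[K] K), (Z.map fun b => b f).prod = P.lc f ^ Multiset.card Z := by
        intro Z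
        have : (Z.map fun b => b f) = Z.map (fun _ => P.lc f) := by
          refine Multiset.map_congr rfl (fun b _ => ?_)
          conv_lhs => rw [hc]
          rw [b.commutes]
          rfl
        rw [this, Multiset.map_const', Multiset.prod_replicate]
      rw [h, h, hcard]
    · rw [key f hf]
  rw [hfin] at hS'
  exact ⟨S, T, hST, hS', hTV⟩

/-- if the degree does not drop, all zeros reduce to the zeros of the reduction -/
theorem zr_rd_eq (P : OnePt K R) {x : Om K ⊗[K] R} {x' : R} (hx : RdR π P x x') (hx' : x' ≠ 0) (h0 : x ≠ 0)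
    (hd : (P.bc (Om K)).deg x = P.deg x') : Multiset.Rel (RdP π) (zr x) (zk K x') := by
  obtain ⟨S, T, h1, h2, _⟩ := zr_rd P hx hx' h0
  have h3 : T = 0 := by
    have h4 := congrArg Multiset.card h1
    rw [zr_card P h0, Multiset.card_add, Multiset.card_eq_card_of_rel h2, zk_card P hx', hd] at h4
    exact Multiset.card_eq_zero.1 (by omega)
  rw [h1, h3, add_zero]
  exact h2

end GB
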