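import Pool.Agent.H99.GB.PenP
import Pool.Agent.H99.GB.ZrRd

/-! # GB.PenR : the moved points at a place (100 lines)

`S_rd` (`λ` reduces to `0`): `al λ x` reduces to `x` (`RdR.add`, `RdR.tmul`, `RdR.sum`), the degree does not drop (`al_deg`), so `zr (al λ x)` reduces to `zk K x` (`zr_rd_eq`), `zr (1 ⊗ x) = (zk K x).map (cF)` reduces to `zk K x` too (`rdP_cF`); in
`S_spec` all elements of the left hand side are integral, so all elements of `S λ` are; `Multiset.Rel` of the two sides, the reductions are unique (`RdP.unique`): `zk K x + b = zk K x + S'`, cancel.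
`S_unb` (`λ = τ • λ¹`, `λ¹ ∈ K^r` not zero, `τ ∉ V`): `μ = Σ λ¹_j μ_j ≠ 0` (`li`); choose `x ∈ I` with `μ x ≠ 0` and a point `c` with `c (μ x) ≠ 0`, `c x ≠ 0` (infinitely many points: for `h ∈ R` of positive degree every `h - a`, `a ∈ K`, has a zero,
`zk_card`, and `μ x * x` has only finitely many zeros, `mem_zk`); then `c ≠ b_i` and `v = Σ λ¹_j val c j ≠ 0`.  `f` with `c f = 0`, `b_i f ≠ 0` (`exists_f`).  In `S_prod` every factor `1 + τ v_(c')` is `1` or not in `V`, and the factor of `c` is not in `V`, so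
the product is not in `V` (the inverse of a non-integral element reduces to `0`), hence some `β f ∉ V`. -/

namespace GB

open Module TensorProduct H68.BB

variable {K R : Type} [Field K] [IsAlgClosed K] [CommRing R] [Algebra K R] {π : Place K (Om K)}
  {P : OnePt K R} {k r : ℕ} (E : Pen P k r)

private theorem rel_uniq {α β : Type} {q : α → β → Prop} (hq : ∀ x a b, q x a → q x b → a = b)
    {s : Multiset α} : ∀ {a b : Multiset β}, Multiset.Rel q s a → Multiset.Rel q s b → a = b := by
  induction s using Multiset.induction with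
  | empty =>
    intro a b ha hb
    rw [Multiset.rel_zero_left.1 ha, Multiset.rel_zero_left.1 hb]
  | cons x s ih =>
    intro a b ha hb
    obtain ⟨a1, a2, h1, h2, rfl⟩ := Multiset.rel_cons_left.1 ha
    obtain ⟨b1, b2, h3, h4, rfl⟩ := Multiset.rel_cons_left.1 hb
    rw [hq x a1 b1 h1 h3, ih h2 h4]

private theorem rel_self_map {α β : Type} {q : α → β → Prop} (f : β → α) (hf : ∀ b, q (f b) b)
    (s : Multiset β) : Multiset.Rel q (s.map f) s := by
  rw [Multiset.rel_map_left]
  exact Multiset.rel_refl_of_refl_on fun b _ => hf b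

omit [IsAlgClosed K] in
private theorem al_rd {lam : Fin r → Om K} (h : ∀ j, Rd π.V π.φ (lam j) 0) (x : E.I) :
    RdR π P (E.al lam x) (x : R) := by
  have h1 : RdR π P (∑ j, lam j ⊗ₜ[K] E.μ j x) (∑ j, (0 : K) • E.μ j x) :=
    RdR.sum Finset.univ fun j _ => RdR.tmul (h j) (E.μ j x)
  have h2 := RdR.add (RdR.one_tmul (π := π) (P := P) (x : R)) h1
  have h3 : (x : R) + ∑ j, (0 : K) • E.μ j x = (x : R) := by
    simp
  rw [h3] at h2
  exact h2

theorem S_rd {lam : Fin r → Om K} (h : ∀ j, Rd π.V π.φ (lam j) 0) : Multiset.Rel (RdP π) (E.S lam) (Finset.univ.val.map E.b) := by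
  obtain ⟨x, hx⟩ := I_ne E
  have hx' : (x : R) ≠ 0 := fun h0 => hx (Subtype.ext h0)
  have h1 := zr_rd_eq P (al_rd E h x) hx' (al_ne E lam hx) (al_deg E lam hx)
  have h2 : Multiset.Rel (RdP π) (Finset.univ.val.map (fun i => cF (Om K) (E.b i)))
      (Finset.univ.val.map E.b) := by
    have h3 := rel_self_map (q := RdP π) (cF (Om K)) (fun b => rdP_cF b)
      (Finset.univ.val.map E.b)
    rw [Multiset.map_map] at h3
    exact h3
  have h3 := h1.add h2
  rw [S_spec E lam hx, Multiset.rel_add_left] at h3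
  obtain ⟨u, v, hu, hv, huv⟩ := h3
  have h4 : Multiset.Rel (RdP π) (zr ((1 : Om K) ⊗ₜ[K] (x : R))) (zk K (x : R)) := by
    rw [zr_const P hx']
    exact rel_self_map _ (fun b => rdP_cF b) _
  have h5 : u = zk K (x : R) := rel_uniq (fun _ _ _ => RdP.unique) hu h4
  rw [h5] at huv
  rw [add_left_cancel huv]
  exact hv

private theorem exists_pt {g : R} (hg : g ≠ 0) (P : OnePt K R) : ∃ c : R →ₐ[K] K, c g ≠ 0 := by
  classical
  obtain ⟨N, hN⟩ := P.big
  obtain ⟨h, hh, hd⟩ := hN (N + 1) (Nat.le_succ N)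
  obtain ⟨a, ha⟩ := Infinite.exists_notMem_finset ((zk K g).map fun c => c h).toFinset
  have hdeg : P.deg (h + algebraMap K R (-a)) = P.deg h := by
    refine (add_lt P ?_).1
    right
    rw [P.deg_const, hd]
    exact Nat.succ_pos N
  have hne : h + algebraMap K R (-a) ≠ 0 := by
    intro h0
    rw [h0, P.deg_zero, hd] at hdeg
    omega
  have hcard := zk_card P hne
  have hpos : 0 < (zk K (h + algebraMap K R (-a))).card := by
    rw [hcard, hdeg, hd]
    exact Nat.succ_pos N
  obtain ⟨c, hc⟩ := Multiset.card_pos_iff_exists_mem.1 hpos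
  refine ⟨c, fun h0 => ha ?_⟩
  rw [mem_zk P hne, map_add, AlgHom.commutes] at hc
  have hca : c h = a := by
    have : c h + -a = 0 := hc
    rwa [← sub_eq_add_neg, sub_eq_zero] at this
  rw [Multiset.mem_toFinset, Multiset.mem_map]
  exact ⟨c, (mem_zk P hg c).2 h0, hca⟩

omit [IsAlgClosed K] in
private theorem prod_not {s : Multiset K} {τ : Om K} (hτ : τ ∉ π.V) {w : K} (hw : w ∈ s) (hw0 : w ≠ 0) :
    (s.map fun w => 1 + τ * algebraMap K (Om K) w).prod ∉ π.V := by
  classical
  have : IsLocalHom π.φ := π.isLocal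
  have hnot : ∀ w : K, w ≠ 0 → (1 + τ * algebraMap K (Om K) w) ∉ π.V := by
    intro w hw0 hm
    have h1 : τ * algebraMap K (Om K) w ∈ π.V := by
      have := sub_mem hm π.V.one_mem
      rwa [add_sub_cancel_left] at this
    have h2 : algebraMap K (Om K) w⁻¹ ∈ π.V := (π.const w⁻¹).choose
    have h3 := π.V.mul_mem _ _ h1 h2
    rw [mul_assoc, ← map_mul, mul_inv_cancel₀ hw0, map_one, mul_one] at h3
    exact hτ h3
  have hne : ∀ w : K, 1 + τ * algebraMap K (Om K) w ≠ 0 := by
    intro w h0
    by_cases hw0 : w = 0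
    · rw [hw0, map_zero, mul_zero, add_zero] at h0
      exact one_ne_zero h0
    · apply hnot w hw0
      rw [h0]
      exact π.V.zero_mem
  have hrd : ∀ s : Multiset K, Rd π.V π.φ ((s.map fun w => 1 + τ * algebraMap K (Om K) w).prod)⁻¹
      (s.map fun w => if w = 0 then (1 : K) else 0).prod := by
    intro s
    induction s using Multiset.induction with
    | empty =>
      rw [Multiset.map_zero, Multiset.map_zero, Multiset.prod_zero, Multiset.prod_zero, inv_one]
      exact Rd.one
    | cons w s ih =>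
      rw [Multiset.map_cons, Multiset.map_cons, Multiset.prod_cons, Multiset.prod_cons, mul_inv]
      refine Rd.mul ?_ ih
      split_ifs with h0
      · rw [h0, map_zero, mul_zero, add_zero, inv_one]
        exact Rd.one
      · exact Rd.inv_zero (hnot w h0)
  have h0 : (s.map fun w => if w = 0 then (1 : K) else 0).prod = 0 := by
    apply Multiset.prod_eq_zero
    rw [Multiset.mem_map]
    exact ⟨w, hw, if_neg hw0⟩
  have h1 := hrd s
  rw [h0] at h1
  refine Rd.not_mem h1 ?_
  rw [Ne, Multiset.prod_eq_zero_iff, Multiset.mem_map]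
  rintro ⟨w, _, hw⟩
  exact hne w hw

theorem S_unb {lam : Fin r → K} (h : lam ≠ 0) {τ : Om K} (hτ : τ ∉ π.V) :
    ∃ β ∈ E.S (fun j => τ * algebraMap K (Om K) (lam j)), ∃ f : R, β f ∉ π.V := by
  classical
  have := isDomain P
  have : IsLocalHom π.φ := π.isLocal
  have hμ : ∑ j, lam j • E.μ j ≠ 0 := by
    intro h0
    exact h (funext fun j => (Fintype.linearIndependent_iff.1 E.li lam h0 j))
  obtain ⟨x, hx⟩ : ∃ x : E.I, (∑ j, lam j • E.μ j) x ≠ 0 := by
    by_contra hn
    push Not at hn
    exact hμ (LinearMap.ext hn)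
  have hμx : ((∑ j, lam j • E.μ j) x : R) = ∑ j, lam j • E.μ j x := by
    simp [LinearMap.sum_apply]
  have hx0 : (x : R) ≠ 0 := by
    intro h0
    apply hx
    have : x = 0 := Subtype.ext h0
    rw [this, map_zero]
  obtain ⟨c, hc⟩ := exists_pt (mul_ne_zero hx hx0) P
  rw [map_mul] at hc
  have hc1 : c ((∑ j, lam j • E.μ j) x) ≠ 0 := left_ne_zero_of_mul hc
  have hc2 : c (x : R) ≠ 0 := right_ne_zero_of_mul hc
  have hcb : ∀ i, c ≠ E.b i := by
    intro i hi
    apply hc2
    rw [hi]
    have := x.2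
    rw [Ideal.mem_iInf] at this
    exact this i
  have hv : ∑ j, lam j * E.val c j ≠ 0 := by
    intro h0
    apply hc1
    rw [hμx, map_sum]
    have : ∑ j, c (lam j • E.μ j x) = (∑ j, lam j * E.val c j) * c (x : R) := by
      rw [Finset.sum_mul]
      refine Finset.sum_congr rfl fun j _ => ?_
      rw [map_smul, val_eq E c j hc2, smul_eq_mul, mul_assoc]
    rw [this, h0, zero_mul]
  obtain ⟨f, hf1, hf2⟩ := exists_f E hcb
  have hf0 : f ≠ 0 := by
    rintro rfl
    have hk : ∀ i : Fin k, False := fun i => hf2 i (map_zero _)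
    have h1I : (1 : R) ∈ E.I := by
      rw [Ideal.mem_iInf]
      exact fun i => (hk i).elim
    have h10 : (⟨1, h1I⟩ : E.I) ≠ 0 := by
      intro h0
      exact one_ne_zero (congrArg (fun z : E.I => (z : R)) h0)
    apply hx
    rw [hμx]
    refine Finset.sum_eq_zero fun j _ => ?_
    have hz : E.μ j ⟨1, h1I⟩ = 0 := by
      rcases E.neg j ⟨1, h1I⟩ h10 with h0 | h0
      · exact h0
      · have : P.deg (1 : R) = 0 := deg_one P
        change P.deg (E.μ j ⟨1, h1I⟩) < P.deg (1 : R) at h0
        rw [this] at h0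
        exact absurd h0 (Nat.not_lt_zero _)
    have hxe : x = (x : R) • (⟨1, h1I⟩ : E.I) := by
      apply Subtype.ext
      change (x : R) = (x : R) • (1 : R)
      rw [smul_eq_mul, mul_one]
    rw [hxe, map_smul, hz, smul_zero, smul_zero]
  by_contra hall
  push Not at hall
  have hprod := S_prod E (fun j => τ * algebraMap K (Om K) (lam j)) hf0 hf2
  have hL : ((E.S fun j => τ * algebraMap K (Om K) (lam j)).map fun β => β f).prod ∈ π.V := by
    refine multiset_prod_mem _ ?_
    intro a ha
    obtain ⟨β, hβ, rfl⟩ := Multiset.mem_map.1 ha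
    exact hall β hβ f
  have hR : ((zk K f).map fun c => 1 + ∑ j, (τ * algebraMap K (Om K) (lam j)) *
      algebraMap K (Om K) (E.val c j)).prod ∉ π.V := by
    have h1 : ((zk K f).map fun c => 1 + ∑ j, (τ * algebraMap K (Om K) (lam j)) *
        algebraMap K (Om K) (E.val c j)) =
        ((zk K f).map fun c => ∑ j, lam j * E.val c j).map
          fun w => 1 + τ * algebraMap K (Om K) w := by
      rw [Multiset.map_map]
      refine Multiset.map_congr rfl fun c _ => ?_
      rw [Function.comp_apply, map_sum, Finset.mul_sum]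
      congr 1
      refine Finset.sum_congr rfl fun j _ => ?_
      rw [map_mul, mul_assoc]
    rw [h1]
    exact prod_not hτ (Multiset.mem_map.2 ⟨c, (mem_zk P hf0 c).2 hf1, rfl⟩) hv
  rw [hprod, ← map_prod] at hL
  have hA : ∏ i, E.b i f ≠ 0 := Finset.prod_ne_zero_iff.2 fun i _ => hf2 i
  have hA' : algebraMap K (Om K) (∏ i, E.b i f)⁻¹ ∈ π.V := (π.const _).choose
  have h3 := π.V.mul_mem _ _ hA' hL
  rw [← mul_assoc, ← map_mul, inv_mul_cancel₀ hA, map_one, one_mul] at h3
  exact hR h3

end GB
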