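import Pool.Agent.H99.GB.Pen

/-! # GB.PenS : the moved points (120 lines)

Fix `x₀ ∈ I`, `x₀ ≠ 0`.  `J` = the ideal of all `w ∈ F ⊗ R` with `(1 ⊗ x₀) w ∈ (al λ x₀) * I_F`, `I_F = Ideal.map includeRight I`.  Then `(1 ⊗ x₀) J = (al λ x₀) I_F`: for `z = Σ (c ⊗ y)`, `y ∈ I`, `al λ x₀ * (1 ⊗ y) = (1 ⊗ x₀) * al λ y` (`al_mul`), so
every element of the right hand side is divisible by `1 ⊗ x₀`.  `F ⊗ R` is a domain (`isDomain (P.bc F)`), all nonzero ideals have finite codimension (`ideal_fin (P.bc F)`).  `zq_mul` twice: `zq (1 ⊗ x₀) + zq J = zq (al λ x₀) + zq I_F`, and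
`zq I_F` = the points `evF (cF F (b i))` (`zq_inf`; `I_F = ∩ ker (evF (cF F (b i)))`: both have codimension `k`, or directly).  `S = (zq J).map resF`.
For the other `x ∈ I`: `zr (1 ⊗ x₀) + zr (al λ x) = zr (al λ (x₀ x)) = zr (1 ⊗ x) + zr (al λ x₀)` (`zr_mul`, `al_mul`), cancel. -/

namespace GB

open Module TensorProduct

variable {K R F : Type} [Field K] [IsAlgClosed K] [CommRing R] [Algebra K R] [Field F] [IsAlgClosed F] [Algebra K F]
  {P : OnePt K R} {k r : ℕ} (E : Pen P k r)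

omit [IsAlgClosed K] [IsAlgClosed F] in
private theorem ps_h (i j : Fin k) (hij : i ≠ j) : ∃ h : R, E.b i h = 1 ∧ E.b j h = 0 := by
  have h1 : ∃ g : R, E.b i g ≠ E.b j g := by
    by_contra hcon
    push Not at hcon
    exact hij (E.inj (AlgHom.ext hcon))
  obtain ⟨g, hg⟩ := h1
  have h2 : E.b i g - E.b j g ≠ 0 := sub_ne_zero.mpr hg
  refine ⟨(E.b i g - E.b j g)⁻¹ • (g - algebraMap K R (E.b j g)), ?_, ?_⟩
  · rw [map_smul, map_sub, AlgHom.commutes, Algebra.algebraMap_self, RingHom.id_apply, smul_eq_mul,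
      inv_mul_cancel₀ h2]
  · rw [map_smul, map_sub, AlgHom.commutes, Algebra.algebraMap_self, RingHom.id_apply, sub_self,
      smul_zero]

omit [IsAlgClosed K] [IsAlgClosed F] in
private theorem ps_e : ∃ e : Fin k → R, ∀ i j, E.b j (e i) = if j = i then 1 else 0 := by
  classical
  have h1 : ∀ i j : Fin k, ∃ h : R, E.b i h = 1 ∧ (i ≠ j → E.b j h = 0) := by
    intro i j
    by_cases hij : i = j
    · exact ⟨1, map_one _, fun h => absurd hij h⟩
    · obtain ⟨h, h2, h3⟩ := ps_h E i j hij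
      exact ⟨h, h2, fun _ => h3⟩
  choose h h2 h3 using h1
  refine ⟨fun i => ∏ j, h i j, fun i j => ?_⟩
  rw [map_prod]
  split_ifs with hij
  · subst hij
    exact Finset.prod_eq_one fun l _ => h2 j l
  · exact Finset.prod_eq_zero (Finset.mem_univ j) (h3 i j (Ne.symm hij))

omit [IsAlgClosed K] [IsAlgClosed F] in
private theorem mem_I {x : R} : x ∈ E.I ↔ ∀ i, E.b i x = 0 := by
  unfold Pen.I
  rw [Ideal.mem_iInf]
  exact Iff.rfl

omit [IsAlgClosed K] [IsAlgClosed F] in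
private theorem ps_div (lam : Fin r → F) (x₀ : E.I) {e : Fin k → R}
    (he : ∀ i j, E.b j (e i) = if j = i then 1 else 0) (z : F ⊗[K] R) :
    ∃ w, E.al lam x₀ * (z - ∑ i, (evF (cF F (E.b i)) z) ⊗ₜ[K] e i) = ((1 : F) ⊗ₜ[K] (x₀ : R)) * w := by
  induction z using TensorProduct.induction_on with
  | zero =>
    refine ⟨0, ?_⟩
    simp
  | tmul c f =>
    have hy : f - ∑ i, E.b i f • e i ∈ E.I := by
      rw [mem_I]
      intro j
      rw [map_sub, map_sum]
      have h1 : ∀ i, E.b j (E.b i f • e i) = if j = i then E.b i f else 0 := by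
        intro i
        rw [map_smul, he, smul_eq_mul]
        split_ifs <;> simp
      rw [Finset.sum_congr rfl (fun i _ => h1 i), Finset.sum_ite_eq, if_pos (Finset.mem_univ _),
        sub_self]
    have h1 : c ⊗ₜ[K] f - ∑ i, (evF (cF F (E.b i)) (c ⊗ₜ[K] f)) ⊗ₜ[K] e i =
        c ⊗ₜ[K] (f - ∑ i, E.b i f • e i) := by
      rw [TensorProduct.tmul_sub, TensorProduct.tmul_sum]
      congr 1
      refine Finset.sum_congr rfl fun i _ => ?_
      rw [evF_tmul, cF_apply, TensorProduct.tmul_smul, TensorProduct.smul_tmul', Algebra.smul_def,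
        mul_comm]
    refine ⟨(c ⊗ₜ[K] (1 : R)) * E.al lam ⟨_, hy⟩, ?_⟩
    rw [h1]
    have h2 := al_mul E lam x₀ ⟨_, hy⟩
    have h3 : c ⊗ₜ[K] (f - ∑ i, E.b i f • e i) =
        (c ⊗ₜ[K] (1 : R)) * ((1 : F) ⊗ₜ[K] (f - ∑ i, E.b i f • e i)) := by
      rw [Algebra.TensorProduct.tmul_mul_tmul, mul_one, one_mul]
    rw [h3]
    have h4 : E.al lam x₀ * ((c ⊗ₜ[K] (1 : R)) * ((1 : F) ⊗ₜ[K] (f - ∑ i, E.b i f • e i))) =
        (c ⊗ₜ[K] (1 : R)) * (((1 : F) ⊗ₜ[K] (f - ∑ i, E.b i f • e i)) * E.al lam x₀) := by ring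
    rw [h4]
    have h5 : ((1 : F) ⊗ₜ[K] (f - ∑ i, E.b i f • e i)) * E.al lam x₀ =
        ((1 : F) ⊗ₜ[K] (x₀ : R)) * E.al lam ⟨_, hy⟩ := h2
    rw [h5]
    ring
  | add z z' hz hz' =>
    obtain ⟨w, hw⟩ := hz
    obtain ⟨w', hw'⟩ := hz'
    refine ⟨w + w', ?_⟩
    rw [mul_add, ← hw, ← hw', ← mul_add]
    congr 1
    have h1 : ∀ i, evF (cF F (E.b i)) (z + z') ⊗ₜ[K] e i =
        evF (cF F (E.b i)) z ⊗ₜ[K] e i + evF (cF F (E.b i)) z' ⊗ₜ[K] e i := by
      intro i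
      rw [map_add, TensorProduct.add_tmul]
    rw [Finset.sum_congr rfl (fun i _ => h1 i), Finset.sum_add_distrib]
    ring

private theorem exists_S0 (lam : Fin r → F) {x₀ : E.I} (hx₀ : x₀ ≠ 0) : ∃ S : Multiset (R →ₐ[K] F),
    zr (E.al lam x₀) + Finset.univ.val.map (fun i => cF F (E.b i)) = zr ((1 : F) ⊗ₜ[K] (x₀ : R)) + S := by
  have hdom : IsDomain (F ⊗[K] R) := isDomain (P.bc F)
  obtain ⟨e, he⟩ := ps_e E
  set a : F ⊗[K] R := E.al lam x₀ with ha
  set m : F ⊗[K] R := (1 : F) ⊗ₜ[K] (x₀ : R) with hm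
  have ha0 : a ≠ 0 := al_ne E lam hx₀
  have hx0' : (x₀ : R) ≠ 0 := fun h => hx₀ (Subtype.ext h)
  have hm0 : m ≠ 0 := by
    intro h
    have h1 := bc_lc P F (x₀ : R)
    rw [← hm, h, (P.bc F).lc_zero] at h1
    have h2 := P.lc_ne hx0'
    exact h2 ((algebraMap K F).injective (by rw [← h1, map_zero]))
  set c : Fin k → (F ⊗[K] R →ₐ[F] F) := fun i => evF (cF F (E.b i)) with hc
  have hcinj : Function.Injective c := by
    intro i j hij
    have h1 : resF (c i) = resF (c j) := by rw [hij]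
    simp only [hc, resF_evF] at h1
    exact E.inj (cF_inj h1)
  set IF : Ideal (F ⊗[K] R) := ⨅ i, RingHom.ker (c i) with hIF
  have hmemIF : ∀ z, z ∈ IF ↔ ∀ i, c i z = 0 := by
    intro z
    rw [hIF, Ideal.mem_iInf]
    exact Iff.rfl
  obtain ⟨hfin, hzq⟩ := zq_inf F hcinj
  have hmIF : m ∈ IF := by
    rw [hmemIF]
    intro i
    have h1 : E.b i (x₀ : R) = 0 := (mem_I E).1 x₀.2 i
    simp only [hc, hm, evF_tmul, cF_apply, h1, map_zero, mul_zero]
  let J : Ideal (F ⊗[K] R) := Submodule.comap (LinearMap.mulLeft (F ⊗[K] R) m) (Ideal.span {a} * IF)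
  have hJmem : ∀ w, w ∈ J ↔ m * w ∈ Ideal.span {a} * IF := fun w => Iff.rfl
  have hdiv : ∀ z ∈ IF, ∃ w, a * z = m * w := by
    intro z hz
    obtain ⟨w, hw⟩ := ps_div E lam x₀ he z
    refine ⟨w, ?_⟩
    rw [← hw]
    have h1 : ∑ i, (evF (cF F (E.b i)) z) ⊗ₜ[K] e i = 0 := by
      refine Finset.sum_eq_zero fun i _ => ?_
      have h2 : evF (cF F (E.b i)) z = 0 := (hmemIF z).1 hz i
      rw [h2, TensorProduct.zero_tmul]
    rw [h1, sub_zero]
  have hJ : Ideal.span {m} * J = Ideal.span {a} * IF := by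
    apply le_antisymm
    · rw [Ideal.span_singleton_mul_le_iff]
      intro w hw
      exact hw
    · rw [Ideal.span_singleton_mul_le_iff]
      intro z hz
      obtain ⟨w, hw⟩ := hdiv z hz
      rw [hw]
      refine Ideal.mul_mem_mul (Ideal.mem_span_singleton_self _) ?_
      rw [hJmem, ← hw]
      exact Ideal.mul_mem_mul (Ideal.mem_span_singleton_self _) hz
  have hJ0 : J ≠ ⊥ := by
    intro h
    rw [h, Ideal.mul_bot] at hJ
    have h1 : a * m ∈ Ideal.span {a} * IF := Ideal.mul_mem_mul (Ideal.mem_span_singleton_self _) hmIF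
    rw [← hJ, Ideal.mem_bot] at h1
    exact mul_ne_zero ha0 hm0 h1
  have f1 : FiniteDimensional F ((F ⊗[K] R) ⧸ J) := ideal_fin (P.bc F) hJ0
  have f2 : FiniteDimensional F ((F ⊗[K] R) ⧸ Ideal.span {a}) := quo_fin (P.bc F) ha0
  have f3 : FiniteDimensional F ((F ⊗[K] R) ⧸ Ideal.span {m}) := quo_fin (P.bc F) hm0
  have e1 := (zq_mul F hm0 J).2
  have e2 := (zq_mul F ha0 IF).2
  rw [hJ, e2, hzq] at e1
  refine ⟨(zq F J).map resF, ?_⟩
  have e3 := congrArg (Multiset.map resF) e1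
  rw [Multiset.map_add, Multiset.map_add, Multiset.map_map] at e3
  have e4 : (resF ∘ c : Fin k → (R →ₐ[K] F)) = fun i => cF F (E.b i) := by
    funext i
    simp only [hc, Function.comp_apply, resF_evF]
  rw [e4] at e3
  exact e3

theorem exists_S (lam : Fin r → F) : ∃ S : Multiset (R →ₐ[K] F), ∀ x : E.I, x ≠ 0 →
    zr (E.al lam x) + Finset.univ.val.map (fun i => cF F (E.b i)) = zr ((1 : F) ⊗ₜ[K] (x : R)) + S := by
  by_cases hex : ∃ x₀ : E.I, x₀ ≠ 0
  · obtain ⟨x₀, hx₀⟩ := hex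
    obtain ⟨S, hS⟩ := exists_S0 E lam hx₀
    refine ⟨S, fun x hx => ?_⟩
    have hne : ∀ y : E.I, y ≠ 0 → ((1 : F) ⊗ₜ[K] (y : R)) ≠ 0 := by
      intro y hy h
      have h1 := bc_lc P F (y : R)
      rw [h, (P.bc F).lc_zero] at h1
      have h2 := P.lc_ne (fun h => hy (Subtype.ext h) : (y : R) ≠ 0)
      exact h2 ((algebraMap K F).injective (by rw [← h1, map_zero]))
    have h1 := zr_mul P (hne x₀ hx₀) (al_ne E lam hx)
    have h2 := zr_mul P (hne x hx) (al_ne E lam hx₀)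
    rw [al_mul E lam x x₀, h2] at h1
    -- h1 : zr (1 ⊗ x) + zr (al x₀) = zr (1 ⊗ x₀) + zr (al x)
    apply add_left_cancel (a := zr ((1 : F) ⊗ₜ[K] (x₀ : R)))
    rw [← add_assoc, ← h1, add_assoc, hS, ← add_assoc, ← add_assoc,
      add_comm (zr ((1 : F) ⊗ₜ[K] (x : R))) (zr ((1 : F) ⊗ₜ[K] (x₀ : R)))]
  · push Not at hex
    exact ⟨0, fun x hx => absurd (hex x) hx⟩

/-- the moved points -/
noncomputable def Pen.S (lam : Fin r → F) : Multiset (R →ₐ[K] F) := (exists_S E lam).choose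

theorem S_spec (lam : Fin r → F) {x : E.I} (hx : x ≠ 0) :
    zr (E.al lam x) + Finset.univ.val.map (fun i => cF F (E.b i)) = zr ((1 : F) ⊗ₜ[K] (x : R)) + E.S lam :=
  (exists_S E lam).choose_spec x hx

theorem I_ne : ∃ x : E.I, x ≠ 0 := by
  have hdom : IsDomain R := isDomain P
  obtain ⟨N, hN⟩ := P.big
  obtain ⟨g, hg0, hg⟩ := hN (N + 1) (Nat.le_succ N)
  have h1 : ∀ c : K, g - algebraMap K R c ≠ 0 := by
    intro c h
    have h2 : g = algebraMap K R c := sub_eq_zero.mp h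
    rw [h2, P.deg_const] at hg
    omega
  refine ⟨⟨∏ i, (g - algebraMap K R (E.b i g)), ?_⟩, ?_⟩
  · rw [mem_I]
    intro i
    rw [map_prod]
    refine Finset.prod_eq_zero (Finset.mem_univ i) ?_
    rw [map_sub, AlgHom.commutes, Algebra.algebraMap_self, RingHom.id_apply, sub_self]
  · intro h
    have h2 : ∏ i, (g - algebraMap K R (E.b i g)) = 0 := congrArg Subtype.val h
    rw [Finset.prod_eq_zero_iff] at h2
    obtain ⟨i, _, hi⟩ := h2
    exact h1 _ hi

theorem S_card (lam : Fin r → F) : (E.S lam).card = k := by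
  obtain ⟨x, hx⟩ := I_ne E
  have h1 := congrArg Multiset.card (S_spec E lam hx)
  have hx' : (x : R) ≠ 0 := fun h => hx (Subtype.ext h)
  have hne : ((1 : F) ⊗ₜ[K] (x : R)) ≠ 0 := by
    intro h
    have h1 := bc_lc P F (x : R)
    rw [h, (P.bc F).lc_zero] at h1
    exact (P.lc_ne hx') ((algebraMap K F).injective (by rw [← h1, map_zero]))
  rw [Multiset.card_add, Multiset.card_add, zr_card P (al_ne E lam hx), zr_card P hne, al_deg E lam hx,
    bc_deg, Multiset.card_map] at h1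
  have h2 : Multiset.card (Finset.univ : Finset (Fin k)).val = k := by
    rw [Finset.card_val, Finset.card_univ, Fintype.card_fin]
  rw [h2] at h1
  omega

end GB
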