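import Pool.Agent.H99.GB.Quo

/-! # GB.PolN : a function with a pole at one given point only (70 lines)

Take `q ≠ 0` in `ker b`, `A = R / q` is a finite-dimensional `K`-algebra (`quo_fin`), `m` = the image of `ker b`, a proper ideal (`b` factors through `A`).
There is `h ∉ q R` with `(ker b) h ⊆ q R`: `A` is artinian/noetherian, `m ^ e = m ^ (e+1)` for some `e`; Nakayama (`Submodule.exists_sub_one_mem_and_smul_eq_zero_of_fg_of_le_smul`) gives `c ∈ A`, `c - 1 ∈ m`, `c m ^ e = 0`; `c ∉ m`; take the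
smallest `e'` with `c m ^ e' = 0` (`e' ≥ 1` since `c ≠ 0`) and `h̄ ∈ c m ^ (e' - 1)`, `h̄ ≠ 0`.  Put `ν x` = the `y` with `q y = h x`.  (If `ν x = r x` for all `x ∈ ker b` then `q r x = h x` for `x = q`, `h = q r`, contradiction.) -/

namespace GB

open Module

variable {K R : Type} [Field K] [CommRing R] [Algebra K R]

/-- in an artinian ring every maximal ideal kills a nonzero element -/
private theorem exists_kill {A : Type} [CommRing A] [IsArtinianRing A] (m : Ideal A)
    (hm : m.IsPrime) : ∃ x : A, x ≠ 0 ∧ ∀ y ∈ m, y * x = 0 := by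
  have hmem : m ∈ (Module.annihilator A A).minimalPrimes := by
    refine ⟨⟨hm, ?_⟩, ?_⟩
    · intro y hy
      have h1 : y • (1 : A) = 0 := Module.mem_annihilator.mp hy 1
      rw [smul_eq_mul, mul_one] at h1
      rw [h1]
      exact m.zero_mem
    · rintro p ⟨hp, -⟩ hpm
      have hmax : p.IsMaximal := IsArtinianRing.isMaximal_of_isPrime p
      exact (hmax.eq_of_le hm.ne_top hpm).ge
  have h1 := Module.associatedPrimes.minimalPrimes_annihilator_subset_associatedPrimes A A hmem
  obtain ⟨-, x, hx⟩ := isAssociatedPrime_iff.mp (AssociatedPrimes.mem_iff.mp h1)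
  refine ⟨x, ?_, ?_⟩
  · rintro rfl
    apply hm.ne_top
    rw [hx, Ideal.eq_top_iff_one, Submodule.mem_colon_singleton]
    simp
  · intro y hy
    rw [hx, Submodule.mem_colon_singleton] at hy
    simpa using hy

theorem exists_nu (P : OnePt K R) (b : R →ₐ[K] K) : ∃ ν : (RingHom.ker b : Ideal R) →ₗ[R] R, ∀ r : R, ∃ x, ν x ≠ r * (x : R) := by
  have := isDomain P
  obtain ⟨N, hN⟩ := P.big
  obtain ⟨f, hf, hdeg⟩ := hN (N + 1) (Nat.le_succ N)
  set q : R := f - algebraMap K R (b f) with hq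
  have hbq : b q = 0 := by
    rw [hq, map_sub, AlgHom.commutes, Algebra.algebraMap_self_apply, sub_self]
  have hq0 : q ≠ 0 := by
    intro h0
    rw [sub_eq_zero.mp h0, P.deg_const] at hdeg
    omega
  have := quo_fin P hq0
  have : IsArtinianRing (R ⧸ Ideal.span {q}) := IsArtinianRing.of_finite K _
  let b' : (R ⧸ Ideal.span {q}) →ₐ[K] K := Ideal.Quotient.liftₐ (Ideal.span {q}) b (by
    intro a ha
    obtain ⟨c, rfl⟩ := Ideal.mem_span_singleton'.mp ha
    rw [map_mul, hbq, mul_zero])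
  obtain ⟨x, hx0, hx⟩ := exists_kill (RingHom.ker b') (RingHom.ker_isPrime b')
  obtain ⟨h, rfl⟩ := Ideal.Quotient.mk_surjective x
  have hh : ∀ r : R, h ≠ q * r := by
    rintro r rfl
    apply hx0
    rw [Ideal.Quotient.eq_zero_iff_mem]
    exact Ideal.mul_mem_right _ _ (Ideal.mem_span_singleton_self q)
  have hdiv : ∀ y : (RingHom.ker b : Ideal R), ∃ z : R, q * z = h * (y : R) := by
    intro y
    have h1 := hx (Ideal.Quotient.mk _ (y : R)) (by
      rw [RingHom.mem_ker]
      exact RingHom.mem_ker.mp y.2)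
    rw [← map_mul, Ideal.Quotient.eq_zero_iff_mem] at h1
    obtain ⟨c, hc⟩ := Ideal.mem_span_singleton'.mp h1
    exact ⟨c, by rw [mul_comm q c, hc, mul_comm]⟩
  choose ν hν using hdiv
  refine ⟨{ toFun := ν, map_add' := ?_, map_smul' := ?_ }, ?_⟩
  · intro y z
    apply mul_left_cancel₀ hq0
    rw [hν, mul_add, hν, hν, Submodule.coe_add, mul_add]
  · intro r y
    apply mul_left_cancel₀ hq0
    rw [hν, RingHom.id_apply, smul_eq_mul, mul_left_comm, hν, Submodule.coe_smul, smul_eq_mul]
    ring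
  · intro r
    refine ⟨⟨q, RingHom.mem_ker.mpr hbq⟩, ?_⟩
    intro h0
    have h1 := hν ⟨q, RingHom.mem_ker.mpr hbq⟩
    have h2 : ν ⟨q, RingHom.mem_ker.mpr hbq⟩ = r * q := h0
    rw [h2] at h1
    apply hh r
    apply mul_right_cancel₀ hq0
    linear_combination -h1

end GB
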