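import Pool.Agent.H99.GB.PolN

/-! # GB.Pole : functions with poles at `k` points and a zero at infinity: dimension `≥ k - g` (150 lines)

`I = ∩ ker b_i`.  An `R`-linear map `μ : I → R` is the multiplication by the rational function `μ x / x`.
(1) `ν_i : ker b_i → R` from `exists_nu`.
(2) The restrictions of `ν_1, …, ν_k` to `I` are linearly independent modulo the multiplications by elements of `R`: if `Σ c_i ν_i = r` on `I`, take `y ∈ ∩_(i ≠ j) ker b_i`, `y ∉ ker b_j`, `y = b_j(y) + y'`, `y' ∈ ker b_j`; for `x ∈ I`: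
`y Σ c_i ν_i x = r y x`, and `y ν_i` (`i ≠ j`), `y' ν_j` are multiplications by elements of `R` (`ν_i y`, `ν_j y'`), so `c_j b_j(y) ν_j` is a multiplication on `I`, hence on `ker b_j` (compare at `x z` with `x ∈ I`, `x ≠ 0`), so `c_j = 0`.
(3) Fix `x₀ ∈ I`, `x₀ ≠ 0` and `m` with `deg (ν_i x₀) ≤ m + deg x₀`.  `U` = the span of the `ν_i x₀` and of `x₀ e_j` (`j ∈ D`, `j ≤ m`) in `R`: its dimension is `k + #(D ∩ [0, m]) ≥ k + m + 1 - g` (`card_le`).  All elements have degree `≤ m + deg x₀`, so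
the elements of degree `< deg x₀` form a subspace of dimension `≥ k - g` (the coordinates `P.e.repr · j`, `deg x₀ ≤ j ≤ deg x₀ + m`, are at most `m + 1` linear conditions, `lt_iff`).  Every element of this subspace is `μ x₀` for a unique `μ`, and
`deg (μ x) + deg x₀ = deg (μ x₀) + deg x` (`x₀ μ x = x μ x₀`).  (`k ≤ g`: take `r = 0`.) -/

namespace GB

open Module

variable {K R : Type} [Field K] [CommRing R] [Algebra K R]

private theorem pole_sep {k : ℕ} {b : Fin k → (R →ₐ[K] K)} (hb : Function.Injective b) (j : Fin k) :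
    ∃ y : R, b j y ≠ 0 ∧ ∀ i, i ≠ j → b i y = 0 := by
  have h1 : ∀ i : Fin k, ∃ w : R, b j w ≠ 0 ∧ (i ≠ j → b i w = 0) := by
    intro i
    by_cases hij : i = j
    · exact ⟨1, by simp, fun h => absurd hij h⟩
    · have hne : b i ≠ b j := fun h => hij (hb h)
      obtain ⟨z, hz⟩ : ∃ z, b i z ≠ b j z := by
        by_contra hcon
        push Not at hcon
        exact hne (AlgHom.ext hcon)
      refine ⟨z - algebraMap K R (b i z), ?_, fun _ => ?_⟩
      · rw [map_sub, AlgHom.commutes, Algebra.algebraMap_self_apply]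
        exact sub_ne_zero.mpr (Ne.symm hz)
      · rw [map_sub, AlgHom.commutes, Algebra.algebraMap_self_apply, sub_self]
  choose w hw using h1
  refine ⟨∏ i, w i, ?_, fun i hi => ?_⟩
  · rw [map_prod]
    exact Finset.prod_ne_zero_iff.mpr fun i _ => (hw i).1
  · rw [map_prod]
    exact Finset.prod_eq_zero (Finset.mem_univ i) ((hw i).2 hi)

private theorem pole_ne (P : OnePt K R) {k : ℕ} (b : Fin k → (R →ₐ[K] K)) :
    ∃ x : R, x ≠ 0 ∧ ∀ i, b i x = 0 := by
  have := isDomain P
  obtain ⟨N, hN⟩ := P.big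
  obtain ⟨f, hf, hdeg⟩ := hN (N + 1) (Nat.le_succ N)
  refine ⟨∏ i, (f - algebraMap K R (b i f)), ?_, fun i => ?_⟩
  · refine Finset.prod_ne_zero_iff.mpr fun i _ h0 => ?_
    rw [sub_eq_zero.mp h0, P.deg_const] at hdeg
    omega
  · rw [map_prod]
    refine Finset.prod_eq_zero (Finset.mem_univ i) ?_
    rw [map_sub, AlgHom.commutes, Algebra.algebraMap_self_apply, sub_self]

private theorem pole_comm {J : Ideal R} (f : J →ₗ[R] R) (x y : J) : (x : R) * f y = (y : R) * f x := by
  have h1 := f.map_smul (x : R) y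
  have h2 := f.map_smul (y : R) x
  have h3 : (x : R) • y = (y : R) • x := by
    ext
    simp [mul_comm]
  rw [h3, h2] at h1
  simpa [smul_eq_mul] using h1.symm

private theorem pole_ind (P : OnePt K R) {k : ℕ} {b : Fin k → (R →ₐ[K] K)} (hb : Function.Injective b)
    {ν : ∀ i, (RingHom.ker (b i) : Ideal R) →ₗ[R] R} (hν : ∀ i, ∀ r : R, ∃ x, ν i x ≠ r * (x : R))
    (hle : ∀ i, (⨅ i, RingHom.ker (b i) : Ideal R) ≤ RingHom.ker (b i))
    (c : Fin k → K) (r : R)
    (h : ∀ x : (⨅ i, RingHom.ker (b i) : Ideal R), ∑ i, c i • ν i ⟨x, hle i x.2⟩ = r * (x : R)) (j : Fin k) : c j = 0 := by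
  classical
  have := isDomain P
  by_contra hcj
  obtain ⟨y, hyj, hy⟩ := pole_sep hb j
  obtain ⟨x₀, hx₀, hx₀b⟩ := pole_ne P b
  have hx₀I : x₀ ∈ (⨅ i, RingHom.ker (b i) : Ideal R) := by
    rw [Ideal.mem_iInf]
    exact fun i => RingHom.mem_ker.mpr (hx₀b i)
  -- the elements `y` (for `i ≠ j`) and `y - b j y` (for `j`)
  let u : ∀ i, (RingHom.ker (b i) : Ideal R) := fun i =>
    ⟨y - algebraMap K R (b i y), by
      rw [RingHom.mem_ker]
      rw [map_sub, AlgHom.commutes, Algebra.algebraMap_self_apply, sub_self]⟩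
  have hu : ∀ i, (u i : R) = y - algebraMap K R (b i y) := fun i => rfl
  set t : R := r * y - ∑ i, c i • ν i (u i) with ht
  have h1 : ∀ x : (⨅ i, RingHom.ker (b i) : Ideal R), (c j * b j y) • ν j ⟨x, hle j x.2⟩ = t * (x : R) := by
    intro x
    have h2 : ∀ i, y * (c i • ν i ⟨x, hle i x.2⟩) = (c i * b i y) • ν i ⟨x, hle i x.2⟩ + (x : R) * (c i • ν i (u i)) := by
      intro i
      have h3 := pole_comm (ν i) (u i) ⟨x, hle i x.2⟩
      rw [hu] at h3
      simp only [Algebra.smul_def, map_mul]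
      simp only at h3
      linear_combination (algebraMap K R (c i)) * h3
    have h4 := congrArg (fun z => y * z) (h x)
    simp only [Finset.mul_sum] at h4
    rw [Finset.sum_congr rfl fun i _ => h2 i, Finset.sum_add_distrib, ← Finset.mul_sum] at h4
    rw [Finset.sum_eq_single j (fun i _ hi => by rw [hy i hi, mul_zero, zero_smul]) (fun hj => absurd (Finset.mem_univ j) hj)] at h4
    rw [ht]
    linear_combination h4
  have h5 : ∀ z : (RingHom.ker (b j) : Ideal R), (c j * b j y) • ν j z = t * (z : R) := by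
    intro z
    have h6 := h1 ⟨x₀ * z, Ideal.mul_mem_right _ _ hx₀I⟩
    have h7 : ν j ⟨x₀ * z, hle j (Ideal.mul_mem_right _ _ hx₀I)⟩ = x₀ * ν j z := by
      have h8 := (ν j).map_smul x₀ z
      rw [smul_eq_mul] at h8
      rw [← h8]
      rfl
    simp only at h6
    rw [h7] at h6
    apply mul_left_cancel₀ hx₀
    rw [Algebra.smul_def] at h6 ⊢
    linear_combination h6
  have hc : c j * b j y ≠ 0 := mul_ne_zero hcj hyj
  obtain ⟨z, hz⟩ := hν j ((c j * b j y)⁻¹ • t)
  apply hz
  rw [smul_mul_assoc, ← h5 z, smul_smul, inv_mul_cancel₀ hc, one_smul]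

private theorem pole_sum (P : OnePt K R) {ι : Type} (s : Finset ι) (m : ℕ) (f : ι → R) (hf : ∀ i ∈ s, P.Lt m (f i)) :
    P.Lt m (∑ i ∈ s, f i) := by
  classical
  induction s using Finset.induction_on with
  | empty => exact Lt.zero P m
  | insert a s ha ih =>
    rw [Finset.sum_insert ha]
    exact Lt.add P (hf a (Finset.mem_insert_self a s)) (ih fun i hi => hf i (Finset.mem_insert_of_mem hi))

theorem poles (P : OnePt K R) {k : ℕ} {b : Fin k → (R →ₐ[K] K)} (hb : Function.Injective b) :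
    ∃ (r : ℕ) (μ : Fin r → ((⨅ i, RingHom.ker (b i) : Ideal R) →ₗ[R] R)), k ≤ r + P.g ∧ LinearIndependent K μ ∧
      ∀ (j : Fin r) (x : (⨅ i, RingHom.ker (b i) : Ideal R)), x ≠ 0 → P.Lt (P.deg (x : R)) (μ j x) := by
  classical
  have := isDomain P
  choose ν hν using fun i => exists_nu P (b i)
  have hle : ∀ i, (⨅ i, RingHom.ker (b i) : Ideal R) ≤ RingHom.ker (b i) := fun i => iInf_le _ i
  obtain ⟨x₀, hx₀, hx₀b⟩ := pole_ne P b
  have hx₀I : x₀ ∈ (⨅ i, RingHom.ker (b i) : Ideal R) := by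
    rw [Ideal.mem_iInf]
    exact fun i => RingHom.mem_ker.mpr (hx₀b i)
  set X : (⨅ i, RingHom.ker (b i) : Ideal R) := ⟨x₀, hx₀I⟩ with hX
  -- the restrictions
  let νI : Fin k → ((⨅ i, RingHom.ker (b i) : Ideal R) →ₗ[R] R) := fun i => (ν i).comp (Submodule.inclusion (hle i))
  have hνI : ∀ i x, νI i x = ν i ⟨x, hle i x.2⟩ := fun i x => rfl
  -- the multiplications
  let mul : R →ₗ[K] ((⨅ i, RingHom.ker (b i) : Ideal R) →ₗ[R] R) :=
    { toFun := fun r => r • (Submodule.subtype (⨅ i, RingHom.ker (b i) : Ideal R))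
      map_add' := fun r s => by
        ext x
        simp [add_mul]
      map_smul' := fun a r => by
        ext x
        simp }
  have hmul : ∀ r x, mul r x = r * (x : R) := fun r x => rfl
  obtain ⟨m, hm⟩ : ∃ m : ℕ, ∀ i, P.deg (ν i ⟨x₀, hle i hx₀I⟩) ≤ m := by
    refine ⟨Finset.univ.sup fun i => P.deg (ν i ⟨x₀, hle i hx₀I⟩), fun i => ?_⟩
    exact Finset.le_sup (f := fun i => P.deg (ν i ⟨x₀, hle i hx₀I⟩)) (Finset.mem_univ i)
  have hfin : (P.D ∩ Set.Iic m).Finite := (Set.finite_Iic m).subset Set.inter_subset_right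
  let E := ↥(P.D ∩ Set.Iic m)
  have : Fintype E := hfin.fintype
  let eE : E → R := fun j => P.e ⟨j, j.2.1⟩
  have heE : LinearIndependent K eE := by
    have h1 := P.e.linearIndependent.comp (fun j : E => (⟨j, j.2.1⟩ : P.D)) (fun i j hij => by
      apply Subtype.ext
      exact congrArg (fun z : P.D => (z : ℕ)) hij)
    exact h1
  let Ψ : ((Fin k → K) × (E → K)) →ₗ[K] ((⨅ i, RingHom.ker (b i) : Ideal R) →ₗ[R] R) :=
    LinearMap.coprod (Fintype.linearCombination K νI) (mul ∘ₗ (Fintype.linearCombination K eE))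
  have hΨ : ∀ v x, Ψ v x = ∑ i, v.1 i • νI i x + (∑ j, v.2 j • eE j) * (x : R) := by
    intro v x
    simp only [Ψ, LinearMap.coprod_apply, LinearMap.comp_apply, LinearMap.add_apply, hmul, Fintype.linearCombination_apply,
      LinearMap.sum_apply, LinearMap.smul_apply]
  have hinj : Function.Injective Ψ := by
    rw [← LinearMap.ker_eq_bot, LinearMap.ker_eq_bot']
    intro v hv
    have h1 : ∀ x : (⨅ i, RingHom.ker (b i) : Ideal R), ∑ i, v.1 i • ν i ⟨x, hle i x.2⟩ = (-∑ j, v.2 j • eE j) * (x : R) := by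
      intro x
      have h2 := hΨ v x
      rw [hv, LinearMap.zero_apply] at h2
      simp only [hνI] at h2
      linear_combination -h2
    have h3 : v.1 = 0 := by
      funext i
      exact pole_ind P hb hν hle v.1 _ h1 i
    have h4 : v.2 = 0 := by
      have h5 := h1 X
      rw [h3] at h5
      simp only [Pi.zero_apply, zero_smul, Finset.sum_const_zero] at h5
      have h6 : (∑ j, v.2 j • eE j) = 0 := by
        have h7 := (mul_eq_zero.mp h5.symm).resolve_right hx₀
        exact neg_eq_zero.mp h7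
      funext j
      exact (Fintype.linearIndependent_iff.mp heE) v.2 h6 j
    exact Prod.ext h3 h4
  -- the coordinates
  let co : R →ₗ[K] (Fin (m + 1) → K) := LinearMap.pi fun t =>
    if h : P.deg x₀ + (t : ℕ) ∈ P.D then P.e.coord ⟨_, h⟩ else 0
  let ev : ((⨅ i, RingHom.ker (b i) : Ideal R) →ₗ[R] R) →ₗ[K] R :=
    { toFun := fun f => f X
      map_add' := fun _ _ => rfl
      map_smul' := fun _ _ => rfl }
  let Φ : ((Fin k → K) × (E → K)) →ₗ[K] (Fin (m + 1) → K) := co ∘ₗ ev ∘ₗ Ψ
  have hdim := LinearMap.finrank_range_add_finrank_ker Φ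
  have hr : finrank K (LinearMap.range Φ) ≤ m + 1 := by
    have h1 := Submodule.finrank_le (LinearMap.range Φ)
    rwa [finrank_fin_fun] at h1
  have hcard : Fintype.card E = (P.D ∩ Set.Iic m).ncard := by
    rw [Set.ncard_eq_toFinset_card' , Set.toFinset_card]
  rw [finrank_prod, finrank_fin_fun, finrank_fintype_fun_eq_card, hcard] at hdim
  have hc := card_le P m
  let B := Module.finBasis K (LinearMap.ker Φ)
  refine ⟨finrank K (LinearMap.ker Φ), fun j => Ψ (B j), by omega, ?_, ?_⟩
  · have h1 := B.linearIndependent.map' (Submodule.subtype _) (Submodule.ker_subtype _)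
    exact h1.map' Ψ (LinearMap.ker_eq_bot.mpr hinj)
  · intro j x hx
    set f := Ψ (B j) with hf
    -- the degree at `x₀`
    have h1 : P.Lt (P.deg x₀) (f X) := by
      rw [lt_iff]
      intro i hi
      by_cases him : (i : ℕ) ≤ P.deg x₀ + m
      · have h2 : Φ (B j) = 0 := LinearMap.mem_ker.mp (B j).2
        have h3 := congrFun h2 ⟨(i : ℕ) - P.deg x₀, by omega⟩
        have h4 : P.deg x₀ + ((i : ℕ) - P.deg x₀) = i := by omega
        have h5 : P.deg x₀ + ((i : ℕ) - P.deg x₀) ∈ P.D := by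
          rw [h4]
          exact i.2
        have h6 : (⟨P.deg x₀ + ((i : ℕ) - P.deg x₀), h5⟩ : P.D) = i := Subtype.ext h4
        simp only [Φ, co, LinearMap.comp_apply, LinearMap.pi_apply, Pi.zero_apply, dif_pos h5, h6] at h3
        exact h3
      · have h2 : P.Lt (P.deg x₀ + m + 1) (f X) := by
          rw [hf, hΨ, Finset.sum_mul]
          refine Lt.add P (pole_sum P _ _ _ fun i _ => Lt.smul P (Or.inr ?_) _) (pole_sum P _ _ _ fun i _ => ?_)
          · rw [hνI]
            have h3 := hm i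
            change P.deg (ν i ⟨x₀, hle i hx₀I⟩) < _
            omega
          · rw [smul_mul_assoc]
            refine Lt.smul P (Or.inr ?_) _
            have h4 : P.deg (eE i) = i := deg_e P ⟨i, i.2.1⟩
            have h5 : eE i ≠ 0 := heE.ne_zero i
            have h6 : (i : ℕ) ≤ m := i.2.2
            rw [P.deg_mul h5 hx₀, h4]
            change (i : ℕ) + P.deg x₀ < _
            omega
        exact (lt_iff P _ _).mp h2 i (by omega)
    have h2 := pole_comm f X x
    have hx' : (x : R) ≠ 0 := fun h => hx (Subtype.ext h)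
    rcases h1 with h1 | h1
    · rw [h1, mul_zero] at h2
      exact Or.inl ((mul_eq_zero.mp h2).resolve_left hx₀)
    · by_cases h3 : f x = 0
      · exact Or.inl h3
      · refine Or.inr ?_
        have h4 : f X ≠ 0 := by
          intro h5
          rw [h5, mul_zero] at h2
          exact h3 ((mul_eq_zero.mp h2).resolve_left hx₀)
        have h5 := congrArg P.deg h2
        rw [P.deg_mul hx₀ h3, P.deg_mul hx' h4] at h5
        change P.deg (f x) < P.deg (x : R)
        omega

end GB
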