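import Pool.Agent.H99.GB.Zr
import Pool.Agent.H68.BB.Plc
import Pool.Agent.H68.BB.Red

/-! # GB.Red : reduction at a place of elements of `Om K ⊗ R` and of points (100 lines)

`RdR π P x x'`: every coordinate of `x` in the basis `1 ⊗ e_j` is integral at the place and reduces to the coordinate of `x'`.
`RdP π β b`: all values of the point `β` are integral and reduce to the values of `b`.
`RdR.of_tmul`: the coordinates of `c ⊗ f` are `c * (coordinates of f)`.  `RdR.mul`: expand both factors in the basis, `e_i * e_j` has constant coordinates.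
`RdR.ev`: `evF β x = Σ coordinates * β (e_j)`. -/

namespace GB

open Module TensorProduct H68.BB

variable {K R : Type} [Field K] [CommRing R] [Algebra K R]

/-- reduction of an element of `Om K ⊗ R` -/
def RdR (π : Place K (Om K)) (P : OnePt K R) (x : Om K ⊗[K] R) (x' : R) : Prop :=
  ∀ j : P.D, Rd π.V π.φ ((Algebra.TensorProduct.basis (Om K) P.e).repr x j) (P.e.repr x' j)

/-- reduction of a point -/
def RdP (π : Place K (Om K)) (β : R →ₐ[K] Om K) (b : R →ₐ[K] K) : Prop := ∀ f : R, Rd π.V π.φ (β f) (b f)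

variable {π : Place K (Om K)} {P : OnePt K R}

theorem RdR.zero : RdR π P 0 0 := by
  intro j
  rw [map_zero, map_zero]
  exact Rd.zero

theorem RdR.add {x y : Om K ⊗[K] R} {x' y' : R} (hx : RdR π P x x') (hy : RdR π P y y') : RdR π P (x + y) (x' + y') := by
  intro j
  rw [map_add, map_add, Finsupp.add_apply, Finsupp.add_apply]
  exact (hx j).add (hy j)

theorem RdR.neg {x : Om K ⊗[K] R} {x' : R} (hx : RdR π P x x') : RdR π P (-x) (-x') := by
  intro j
  rw [map_neg, map_neg, Finsupp.neg_apply, Finsupp.neg_apply]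
  exact (hx j).neg

private theorem red_tmul {c : Om K} {c' : K} (hc : Rd π.V π.φ c c') (f : R) : RdR π P (c ⊗ₜ f) (c' • f) := by
  intro j
  rw [Algebra.TensorProduct.basis_repr_tmul, map_smul, Finsupp.smul_apply, Finsupp.smul_apply,
    Finsupp.mapRange_apply, smul_eq_mul, smul_eq_mul]
  exact hc.mul (π.const _)

private theorem red_sum {ι : Type} (s : Finset ι) {x : ι → Om K ⊗[K] R} {x' : ι → R} (h : ∀ i ∈ s, RdR π P (x i) (x' i)) :
    RdR π P (∑ i ∈ s, x i) (∑ i ∈ s, x' i) := by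
  classical
  induction s using Finset.induction_on with
  | empty => rw [Finset.sum_empty, Finset.sum_empty]; exact RdR.zero
  | insert a s ha ih =>
    rw [Finset.sum_insert ha, Finset.sum_insert ha]
    exact (h a (Finset.mem_insert_self a s)).add (ih fun i hi => h i (Finset.mem_insert_of_mem hi))

private theorem red_expand (P : OnePt K R) (x : Om K ⊗[K] R) (x' : R) : ∃ s : Finset P.D,
    x = ∑ i ∈ s, ((Algebra.TensorProduct.basis (Om K) P.e).repr x i) ⊗ₜ[K] P.e i ∧
    x' = ∑ i ∈ s, (P.e.repr x' i) • P.e i := by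
  classical
  refine ⟨((Algebra.TensorProduct.basis (Om K) P.e).repr x).support ∪ (P.e.repr x').support, ?_, ?_⟩
  · conv_lhs => rw [← (Algebra.TensorProduct.basis (Om K) P.e).linearCombination_repr x]
    rw [Finsupp.linearCombination_apply]
    refine (Finsupp.sum_of_support_subset _ (Finset.subset_union_left (s₂ := (P.e.repr x').support)) _
      (fun i _ => zero_smul (Om K) ((Algebra.TensorProduct.basis (Om K) P.e) i))).trans ?_
    refine Finset.sum_congr rfl fun i _ => ?_
    rw [Algebra.TensorProduct.basis_apply, TensorProduct.smul_tmul', smul_eq_mul, mul_one]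
  · conv_lhs => rw [← P.e.linearCombination_repr x']
    rw [Finsupp.linearCombination_apply]
    exact Finsupp.sum_of_support_subset _ Finset.subset_union_right _ (fun i _ => zero_smul _ _)

private theorem rd_sum' {ι : Type} (s : Finset ι) {x : ι → Om K} {x' : ι → K} (h : ∀ i ∈ s, Rd π.V π.φ (x i) (x' i)) :
    Rd π.V π.φ (∑ i ∈ s, x i) (∑ i ∈ s, x' i) := by
  classical
  induction s using Finset.induction_on with
  | empty => rw [Finset.sum_empty, Finset.sum_empty]; exact Rd.zero
  | insert a s ha ih =>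
    rw [Finset.sum_insert ha, Finset.sum_insert ha]
    exact (h a (Finset.mem_insert_self a s)).add (ih fun i hi => h i (Finset.mem_insert_of_mem hi))

theorem RdR.mul {x y : Om K ⊗[K] R} {x' y' : R} (hx : RdR π P x x') (hy : RdR π P y y') : RdR π P (x * y) (x' * y') := by
  obtain ⟨s, h1, h2⟩ := red_expand P x x'
  obtain ⟨t, h3, h4⟩ := red_expand P y y'
  have e1 : x * y = ∑ i ∈ s, ∑ j ∈ t, ((Algebra.TensorProduct.basis (Om K) P.e).repr x i *
      (Algebra.TensorProduct.basis (Om K) P.e).repr y j) ⊗ₜ[K] (P.e i * P.e j) := by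
    conv_lhs => rw [h1, h3]
    rw [Finset.sum_mul_sum]
    refine Finset.sum_congr rfl fun i _ => Finset.sum_congr rfl fun j _ => ?_
    rw [Algebra.TensorProduct.tmul_mul_tmul]
  have e2 : x' * y' = ∑ i ∈ s, ∑ j ∈ t, (P.e.repr x' i * P.e.repr y' j) • (P.e i * P.e j) := by
    conv_lhs => rw [h2, h4]
    rw [Finset.sum_mul_sum]
    refine Finset.sum_congr rfl fun i _ => Finset.sum_congr rfl fun j _ => ?_
    rw [smul_mul_smul_comm]
  rw [e1, e2]
  exact red_sum s fun i _ => red_sum t fun j _ => red_tmul ((hx i).mul (hy j)) _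

theorem RdR.tmul {c : Om K} {c' : K} (hc : Rd π.V π.φ c c') (f : R) : RdR π P (c ⊗ₜ f) (c' • f) := red_tmul hc f

theorem RdR.one_tmul (f : R) : RdR π P (1 ⊗ₜ f) f := by
  have h := red_tmul (P := P) (π := π) (c := 1) (c' := 1) Rd.one f
  rwa [one_smul] at h

theorem RdR.sum {ι : Type} (s : Finset ι) {x : ι → Om K ⊗[K] R} {x' : ι → R} (h : ∀ i ∈ s, RdR π P (x i) (x' i)) :
    RdR π P (∑ i ∈ s, x i) (∑ i ∈ s, x' i) := red_sum s h

theorem RdR.ev {x : Om K ⊗[K] R} {x' : R} (hx : RdR π P x x') {β : R →ₐ[K] Om K} {b : R →ₐ[K] K} (hβ : RdP π β b) :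
    Rd π.V π.φ (evF β x) (b x') := by
  obtain ⟨s, h1, h2⟩ := red_expand P x x'
  have e1 : evF β x = ∑ i ∈ s, (Algebra.TensorProduct.basis (Om K) P.e).repr x i * β (P.e i) := by
    conv_lhs => rw [h1]
    rw [map_sum]
    exact Finset.sum_congr rfl fun i _ => evF_tmul _ _ _
  have e2 : b x' = ∑ i ∈ s, P.e.repr x' i * b (P.e i) := by
    conv_lhs => rw [h2]
    rw [map_sum]
    refine Finset.sum_congr rfl fun i _ => ?_
    rw [map_smul, smul_eq_mul]
  rw [e1, e2]
  exact rd_sum' s fun i _ => (hx i).mul (hβ _)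

/-- the leading coefficient if the degree does not drop -/
theorem RdR.lc {x : Om K ⊗[K] R} {x' : R} (hx : RdR π P x x') (hx' : x' ≠ 0) (h0 : x ≠ 0) :
    P.deg x' ≤ (P.bc (Om K)).deg x ∧ ((P.bc (Om K)).deg x = P.deg x' → Rd π.V π.φ ((P.bc (Om K)).lc x) (P.lc x')) ∧
      (P.deg x' < (P.bc (Om K)).deg x → Rd π.V π.φ ((P.bc (Om K)).lc x) 0) := by
  obtain ⟨hr1, hr2⟩ := repr_deg P hx'
  refine ⟨?_, ?_, ?_⟩
  · by_contra hlt
    push Not at hlt
    have h1 := (bc_lt P (Om K) (P.deg x') x).1 (Or.inr hlt) ⟨P.deg x', mem_D P hx'⟩ le_rfl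
    have h2 := hx ⟨P.deg x', mem_D P hx'⟩
    rw [h1, hr1] at h2
    exact P.lc_ne hx' (h2.unique Rd.zero)
  · intro heq
    have h2 := hx ⟨P.deg x', mem_D P hx'⟩
    rw [bc_repr P (Om K) h0 ⟨P.deg x', mem_D P hx'⟩ heq, hr1] at h2
    exact h2
  · intro hlt
    have hD : (P.bc (Om K)).deg x ∈ P.D := by
      rw [← bc_D P (Om K)]
      exact mem_D _ h0
    have h2 := hx ⟨_, hD⟩
    rw [bc_repr P (Om K) h0 ⟨_, hD⟩ rfl, hr2 ⟨_, hD⟩ hlt] at h2
    exact h2

theorem rdP_cF (c : R →ₐ[K] K) : RdP π (cF (Om K) c) c := fun f => π.const (c f)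

theorem RdP.unique {β : R →ₐ[K] Om K} {b b' : R →ₐ[K] K} (h : RdP π β b) (h' : RdP π β b') : b = b' :=
  AlgHom.ext fun f => (h f).unique (h' f)

/-- a point all of whose values are integral reduces to a point -/
theorem exists_rdP {β : R →ₐ[K] Om K} (h : ∀ f : R, β f ∈ π.V) : ∃ b : R →ₐ[K] K, RdP π β b := by
  let r : R →+* π.V := (β : R →+* Om K).codRestrict π.V.toSubring h
  refine ⟨{ toRingHom := π.φ.comp r, commutes' := fun c => ?_ }, fun f => ⟨h f, rfl⟩⟩
  obtain ⟨h1, h2⟩ := π.const c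
  have h3 : r (algebraMap K R c) = ⟨algebraMap K (Om K) c, h1⟩ := Subtype.ext (β.commutes c)
  change π.φ (r (algebraMap K R c)) = c
  rw [h3]
  exact h2

end GB
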