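import Pool.Agent.H99.GB.Def

/-! # GB.Ring : first consequences of the axioms (90 lines)

HINTS.  `nontrivial`: `lc 1 = 1 ≠ 0 = lc 0`.  `isDomain`: `lc_mul`.  `smul`: `c • f = algebraMap c * f`.  `lt_smul` etc. follow.
`sub_lt` (`deg g < deg f`): `deg f ≤ max (deg (f - g)) (deg g)` (as `f = (f - g) - (-g)`) gives `deg (f - g) = deg f`.  If `lc (f - g) = c * lc f` with `c ≠ 1` (`c ≠ 0`), then `(f - g) - c • f = (1 - c) • f - g`
has degree `deg f` (same argument), but `drop` says it is zero or has smaller degree: contradiction.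
`sub_eq` (`deg f = deg g`, `lc f ≠ lc g`): if `g = 0` then `deg f = 0`, easy; otherwise `c := lc g / lc f`, `g - c • f` is `0` or of smaller degree by `drop` (if `c = 0` ... `g = 0`), `f - g = (1 - c) • f - (g - c • f)`, use `sub_lt`.
`const_of_deg`: `drop` for `f` and `algebraMap (lc f)`: `deg < 0` is impossible. -/

namespace GB

variable {K R : Type} [Field K] [CommRing R] [Algebra K R] (P : OnePt K R)

theorem nontrivial (P : OnePt K R) : Nontrivial R := by
  refine ⟨1, 0, fun h => ?_⟩
  have h1 : P.lc (1 : R) = 1 := by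
    have := P.lc_const 1
    rwa [map_one] at this
  rw [h, P.lc_zero] at h1
  exact zero_ne_one h1

theorem isDomain (P : OnePt K R) : IsDomain R := by
  have := nontrivial P
  have : NoZeroDivisors R := by
    constructor
    intro f g hfg
    by_contra hne
    rw [not_or] at hne
    have h1 : P.lc (f * g) ≠ 0 := by
      rw [P.lc_mul]
      exact mul_ne_zero (P.lc_ne hne.1) (P.lc_ne hne.2)
    rw [hfg, P.lc_zero] at h1
    exact h1 rfl
  exact NoZeroDivisors.to_isDomain R

theorem deg_one : P.deg 1 = 0 := by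
  have := P.deg_const 1
  rwa [map_one] at this

theorem lc_one : P.lc 1 = 1 := by
  have := P.lc_const 1
  rwa [map_one] at this

theorem deg_smul {c : K} (hc : c ≠ 0) (f : R) : P.deg (c • f) = P.deg f := by
  by_cases hf : f = 0
  · rw [hf, smul_zero]
  · have hc' : algebraMap K R c ≠ 0 := by
      intro h
      have h1 := P.lc_const c
      rw [h, P.lc_zero] at h1
      exact hc h1.symm
    rw [Algebra.smul_def, P.deg_mul hc' hf, P.deg_const, zero_add]

theorem lc_smul (c : K) (f : R) : P.lc (c • f) = c * P.lc f := by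
  rw [Algebra.smul_def, P.lc_mul, P.lc_const]

theorem deg_neg (f : R) : P.deg (-f) = P.deg f := by
  have h : (-1 : K) • f = -f := by rw [neg_smul, one_smul]
  rw [← h]
  exact deg_smul P (neg_ne_zero.2 one_ne_zero) f

theorem lc_neg (f : R) : P.lc (-f) = -P.lc f := by
  have h : (-1 : K) • f = -f := by rw [neg_smul, one_smul]
  rw [← h, lc_smul, neg_one_mul]

theorem deg_pow {f : R} (hf : f ≠ 0) (n : ℕ) : P.deg (f ^ n) = n * P.deg f := by
  have := isDomain P
  induction n with
  | zero => rw [pow_zero, deg_one, zero_mul]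
  | succ n ih => rw [pow_succ, P.deg_mul (pow_ne_zero n hf) hf, ih, Nat.succ_mul]

theorem lc_pow (f : R) (n : ℕ) : P.lc (f ^ n) = P.lc f ^ n := by
  induction n with
  | zero => rw [pow_zero, pow_zero, lc_one]
  | succ n ih => rw [pow_succ, P.lc_mul, ih, pow_succ]

theorem deg_add (f g : R) : P.deg (f + g) ≤ max (P.deg f) (P.deg g) := by
  have h := P.deg_sub f (-g)
  rwa [sub_neg_eq_add, deg_neg] at h

private theorem add_lt0 {f g : R} (h : P.deg g < P.deg f) : P.deg (f + g) = P.deg f := by
  have h1 := deg_add P f g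
  have h2 := P.deg_sub (f + g) g
  rw [add_sub_cancel_right] at h2
  rw [max_eq_left h.le] at h1
  rcases le_max_iff.1 h2 with h3 | h3
  · exact le_antisymm h1 h3
  · exact absurd h (not_lt.2 h3)

/-- a summand of smaller degree changes neither degree nor leading coefficient -/
theorem add_lt {f g : R} (h : P.Lt (P.deg f) g) : P.deg (f + g) = P.deg f ∧ P.lc (f + g) = P.lc f := by
  rcases h with h | h
  · rw [h, add_zero]
    exact ⟨rfl, rfl⟩
  · have hd := add_lt0 P h
    refine ⟨hd, ?_⟩
    by_contra hne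
    have hf : f ≠ 0 := by
      rintro rfl
      rw [P.deg_zero] at h
      exact absurd h (Nat.not_lt_zero _)
    have hu : f + g ≠ 0 := by
      intro h0
      rw [h0, P.deg_zero] at hd
      omega
    have hlf := P.lc_ne hf
    have hlu := P.lc_ne hu
    have hc0 : P.lc (f + g) / P.lc f ≠ 0 := div_ne_zero hlu hlf
    have hc1 : 1 - P.lc (f + g) / P.lc f ≠ 0 := by
      intro h0
      apply hne
      have h1 : P.lc (f + g) / P.lc f = 1 := (sub_eq_zero.1 h0).symm
      rwa [div_eq_one_iff_eq hlf] at h1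
    have e1 : f + g - (P.lc (f + g) / P.lc f) • f = (1 - P.lc (f + g) / P.lc f) • f + g := by
      rw [sub_smul, one_smul]
      abel
    have e2 : P.deg ((1 - P.lc (f + g) / P.lc f) • f + g) = P.deg f := by
      rw [add_lt0 P (by rw [deg_smul P hc1]; exact h), deg_smul P hc1]
    by_cases he : f + g = (P.lc (f + g) / P.lc f) • f
    · rw [← e1, sub_eq_zero.2 he, P.deg_zero] at e2
      omega
    · have h3 := P.drop (f := f + g) (g := (P.lc (f + g) / P.lc f) • f)
        (by rw [deg_smul P hc0, hd]) (by rw [lc_smul, div_mul_cancel₀ _ hlf]) he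
      rw [e1, e2, hd] at h3
      exact lt_irrefl _ h3

/-- leading coefficients add if they do not cancel -/
theorem add_eq {f g : R} (h : P.deg f = P.deg g) (hl : P.lc f + P.lc g ≠ 0) :
    P.deg (f + g) = P.deg f ∧ P.lc (f + g) = P.lc f + P.lc g := by
  by_cases hf : f = 0
  · subst hf
    rw [zero_add, P.lc_zero, zero_add]
    exact ⟨h.symm, rfl⟩
  by_cases hg : g = 0
  · subst hg
    rw [add_zero, P.lc_zero, add_zero]
    exact ⟨rfl, rfl⟩
  have hlf := P.lc_ne hf
  have hlg := P.lc_ne hg
  have hc0 : P.lc g / P.lc f ≠ 0 := div_ne_zero hlg hlf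
  have hc1 : 1 + P.lc g / P.lc f ≠ 0 := by
    intro h0
    apply hl
    have h1 : P.lc f * (1 + P.lc g / P.lc f) = 0 := by rw [h0, mul_zero]
    rwa [mul_add, mul_one, mul_div_cancel₀ _ hlf] at h1
  have hlt : P.Lt (P.deg ((1 + P.lc g / P.lc f) • f)) (g - (P.lc g / P.lc f) • f) := by
    by_cases he : g = (P.lc g / P.lc f) • f
    · left
      rw [sub_eq_zero]
      exact he
    · right
      rw [deg_smul P hc1, h]
      exact P.drop (by rw [deg_smul P hc0, h]) (by rw [lc_smul, div_mul_cancel₀ _ hlf]) he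
  have e : (1 + P.lc g / P.lc f) • f + (g - (P.lc g / P.lc f) • f) = f + g := by
    rw [add_smul, one_smul]
    abel
  have h2 := add_lt P hlt
  rw [e, deg_smul P hc1, lc_smul, add_mul, one_mul, div_mul_cancel₀ _ hlf] at h2
  exact h2

theorem const_of_deg {f : R} (h : P.deg f = 0) : f = algebraMap K R (P.lc f) := by
  by_contra hne
  have h1 := P.drop (f := f) (g := algebraMap K R (P.lc f)) (by rw [h, P.deg_const])
    (by rw [P.lc_const]) hne
  rw [h] at h1
  exact absurd h1 (Nat.not_lt_zero _)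

theorem Lt.zero (m : ℕ) : P.Lt m 0 := Or.inl rfl

theorem Lt.add {m : ℕ} {f g : R} (hf : P.Lt m f) (hg : P.Lt m g) : P.Lt m (f + g) := by
  rcases hf with hf | hf
  · rw [hf, zero_add]
    exact hg
  · rcases hg with hg | hg
    · rw [hg, add_zero]
      exact Or.inr hf
    · exact Or.inr (lt_of_le_of_lt (deg_add P f g) (max_lt hf hg))

theorem Lt.smul {m : ℕ} {f : R} (hf : P.Lt m f) (c : K) : P.Lt m (c • f) := by
  by_cases hc : c = 0
  · left
    rw [hc, zero_smul]
  · rcases hf with hf | hf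
    · left
      rw [hf, smul_zero]
    · right
      rw [deg_smul P hc]
      exact hf

theorem Lt.mono {m m' : ℕ} {f : R} (hf : P.Lt m f) (h : m ≤ m') : P.Lt m' f :=
  hf.imp id fun h1 => lt_of_lt_of_le h1 h

/-- subtract the leading term -/
theorem lead {f g : R} (hf : f ≠ 0) (hg : g ≠ 0) (h : P.deg f = P.deg g) : P.Lt (P.deg f) (f - (P.lc f / P.lc g) • g) := by
  have hlf := P.lc_ne hf
  have hlg := P.lc_ne hg
  have hc0 : P.lc f / P.lc g ≠ 0 := div_ne_zero hlf hlg
  by_cases he : f = (P.lc f / P.lc g) • g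
  · left
    rw [sub_eq_zero]
    exact he
  · right
    exact P.drop (by rw [deg_smul P hc0, h]) (by rw [lc_smul, div_mul_cancel₀ _ hlg]) he

theorem mem_D {f : R} (hf : f ≠ 0) : P.deg f ∈ P.D := ⟨f, hf, rfl⟩

theorem D_add {i j : ℕ} (hi : i ∈ P.D) (hj : j ∈ P.D) : i + j ∈ P.D := by
  have := isDomain P
  obtain ⟨f, hf, rfl⟩ := hi
  obtain ⟨g, hg, rfl⟩ := hj
  exact ⟨f * g, mul_ne_zero hf hg, P.deg_mul hf hg⟩

theorem zero_mem_D : 0 ∈ P.D := by
  have := nontrivial P
  exact ⟨1, one_ne_zero, deg_one P⟩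

theorem D_fin : (P.Dᶜ).Finite := by
  obtain ⟨N, hN⟩ := P.big
  refine (Set.finite_lt_nat N).subset ?_
  intro m hm
  by_contra h
  exact hm (hN m (not_lt.1 h))

end GB
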