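import Mathlib

/-! # GB.Unq : a multiset of homomorphisms to a field is determined by the products of the values (80 lines, Mathlib only)

For `f ∈ R` the polynomials `∏ (X - β f)` over `S` and over `S'` have the same value at every `c ∈ K`
(apply the hypothesis to `c - f`), so they are equal, and `S.map (· f) = S'.map (· f)` (roots).  Finally choose `f` with `β f ≠ β' f` for any two different homomorphisms in `S` or `S'`
(finitely many proper `K`-subspaces `{f | β f = β' f}` do not cover `R`: `Subspace.exists_eq_top_of_iUnion_eq_univ`), and compare the multiplicities of `β f` (`Multiset.count_map_eq_count`). -/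

namespace GB

open Polynomial

private theorem uniq_map {K F R : Type} [Field K] [Infinite K] [Field F] [Algebra K F] [CommRing R] [Algebra K R]
    {S S' : Multiset (R →ₐ[K] F)} (h : ∀ f : R, (S.map fun β => β f).prod = (S'.map fun β => β f).prod) (f : R) :
    (S.map fun β => β f) = S'.map fun β => β f := by
  have he : ∀ (T : Multiset (R →ₐ[K] F)) (c : K),
      (((T.map fun β : R →ₐ[K] F => β f).map fun a => X - C a).prod).eval (algebraMap K F c) =
        (T.map fun β => β (algebraMap K R c - f)).prod := by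
    intro T c
    rw [eval_multiset_prod, Multiset.map_map, Multiset.map_map]
    congr 1
    refine Multiset.map_congr rfl fun β _ => ?_
    simp
  have hp : ((S.map fun β : R →ₐ[K] F => β f).map fun a => X - C a).prod =
      ((S'.map fun β : R →ₐ[K] F => β f).map fun a => X - C a).prod := by
    refine eq_of_infinite_eval_eq _ _ ?_
    refine (Set.infinite_range_of_injective (algebraMap K F).injective).mono ?_
    rintro _ ⟨c, rfl⟩
    show eval _ _ = eval _ _
    rw [he, he]
    exact h _
  have hr := congrArg Polynomial.roots hp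
  rwa [roots_multiset_prod_X_sub_C, roots_multiset_prod_X_sub_C] at hr

private theorem exists_sep {K F R : Type} [Field K] [Infinite K] [Field F] [Algebra K F] [CommRing R] [Algebra K R]
    (T : Finset (R →ₐ[K] F)) : ∃ f : R, Set.InjOn (fun β : R →ₐ[K] F => β f) T := by
  by_contra hne
  push Not at hne
  let ι := {p : T × T // p.1 ≠ p.2}
  let W : ι → Subspace K R := fun p => LinearMap.eqLocus (p.1.1.1.toLinearMap) (p.1.2.1.toLinearMap)
  have hc : ⋃ i, (W i : Set R) = Set.univ := by
    rw [Set.eq_univ_iff_forall]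
    intro f
    have h1 := hne f
    rw [Set.InjOn] at h1
    push Not at h1
    obtain ⟨a, ha, b, hb, hab, hn⟩ := h1
    rw [Set.mem_iUnion]
    exact ⟨⟨(⟨a, ha⟩, ⟨b, hb⟩), fun h => hn (congrArg Subtype.val h)⟩, hab⟩
  obtain ⟨⟨⟨a, b⟩, hn⟩, hi⟩ := Subspace.exists_eq_top_of_iUnion_eq_univ hc
  apply hn
  apply Subtype.ext
  ext f
  have h2 : f ∈ W ⟨(a, b), hn⟩ := by
    rw [hi]
    exact Submodule.mem_top
  exact h2

theorem uniq {K F R : Type} [Field K] [Infinite K] [Field F] [Algebra K F] [CommRing R] [Algebra K R] {S S' : Multiset (R →ₐ[K] F)}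
    (h : ∀ f : R, (S.map fun β => β f).prod = (S'.map fun β => β f).prod) : S = S' := by
  classical
  obtain ⟨f, hf⟩ := exists_sep (S.toFinset ∪ S'.toFinset)
  have hm := uniq_map h f
  have key : ∀ T : Multiset (R →ₐ[K] F), (∀ β ∈ T, β ∈ S.toFinset ∪ S'.toFinset) → ∀ β0 ∈ S.toFinset ∪ S'.toFinset,
      (T.map fun β => β f).count (β0 f) = T.count β0 := by
    intro T hT β0 h0
    by_cases hb : β0 ∈ T
    · exact Multiset.count_map_eq_count (fun β : R →ₐ[K] F => β f) T
        (fun a ha b hb hab => hf (Finset.mem_coe.2 (hT a ha)) (Finset.mem_coe.2 (hT b hb)) hab) β0 hb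
    · rw [Multiset.count_eq_zero_of_notMem hb, Multiset.count_eq_zero, Multiset.mem_map]
      rintro ⟨β, hβ, e⟩
      exact hb ((hf (Finset.mem_coe.2 (hT β hβ)) (Finset.mem_coe.2 h0) e) ▸ hβ)
  have hS : ∀ β ∈ S, β ∈ S.toFinset ∪ S'.toFinset := fun β hβ =>
    Finset.mem_union_left _ (Multiset.mem_toFinset.2 hβ)
  have hS' : ∀ β ∈ S', β ∈ S.toFinset ∪ S'.toFinset := fun β hβ =>
    Finset.mem_union_right _ (Multiset.mem_toFinset.2 hβ)
  ext β0
  by_cases h0 : β0 ∈ S.toFinset ∪ S'.toFinset
  · rw [← key S hS β0 h0, ← key S' hS' β0 h0, hm]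
  · rw [Multiset.count_eq_zero_of_notMem fun hb => h0 (hS β0 hb),
      Multiset.count_eq_zero_of_notMem fun hb => h0 (hS' β0 hb)]

end GB
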