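import Pool.Agent.H99.GB.Chr
import Pool.Agent.H99.GB.Unq

/-! # GB.Zq : the zeros of an ideal of finite codimension, with multiplicities (70 lines)

`zq J` = the characters of `A / J`.  `zq_card`, `zq_prod`: `chars` (`Algebra.norm` is the determinant of the multiplication, the same map as `Algebra.lsmul F F (A / J) f`).
`mem_zq`: `→`: last statement of `chars`.  `←`: if `χ` kills `J` and `χ ∉ zq J`, choose `a` with `χ a = 0` and `χ' a ≠ 0` for all `χ' ∈ zq J` (the kernels are different maximal ideals: prime avoidance, or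
linear independence of characters); then the norm of `a` is `≠ 0`, so `a` is a unit modulo `J`, contradiction to `χ a = 0`. -/

namespace GB

open Module

variable (F : Type) {A : Type} [Field F] [IsAlgClosed F] [CommRing A] [Algebra F A]

open Classical in
/-- the zeros of an ideal of finite codimension, with multiplicities -/
noncomputable def zq (J : Ideal A) : Multiset (A →ₐ[F] F) :=
  if _h : FiniteDimensional F (A ⧸ J) then (chars F A (A ⧸ J)).choose else 0

private theorem zq_spec (J : Ideal A) [h : FiniteDimensional F (A ⧸ J)] : (zq F J).card = finrank F (A ⧸ J) ∧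
    (∀ a : A, LinearMap.det (Algebra.lsmul F F (A ⧸ J) a) = ((zq F J).map fun χ => χ a).prod) ∧
    ∀ χ ∈ zq F J, ∀ a : A, (∀ m : A ⧸ J, a • m = 0) → χ a = 0 := by
  have e : zq F J = (chars F A (A ⧸ J)).choose := by
    unfold zq
    rw [dif_pos h]
  rw [e]
  exact (chars F A (A ⧸ J)).choose_spec

theorem zq_card (J : Ideal A) [FiniteDimensional F (A ⧸ J)] : (zq F J).card = finrank F (A ⧸ J) :=
  (zq_spec F J).1

theorem zq_prod (J : Ideal A) [FiniteDimensional F (A ⧸ J)] (f : A) :
    ((zq F J).map fun χ => χ f).prod = Algebra.norm F (Ideal.Quotient.mk J f) := by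
  rw [← (zq_spec F J).2.1 f, Algebra.norm_apply]
  congr 1

theorem mem_zq (J : Ideal A) [FiniteDimensional F (A ⧸ J)] (χ : A →ₐ[F] F) : χ ∈ zq F J ↔ ∀ a ∈ J, χ a = 0 := by
  classical
  obtain ⟨-, h2, h3⟩ := zq_spec F J
  constructor
  · intro hχ a ha
    refine h3 χ hχ a fun m => ?_
    obtain ⟨b, rfl⟩ := Ideal.Quotient.mk_surjective m
    have : a • (Ideal.Quotient.mk J b) = Ideal.Quotient.mk J (a * b) := rfl
    rw [this, Ideal.Quotient.eq_zero_iff_mem]
    exact Ideal.mul_mem_right _ _ ha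
  · intro hJ
    by_contra hχ
    have hmax : ∀ ψ : A →ₐ[F] F, (RingHom.ker ψ).IsMaximal := fun ψ =>
      RingHom.ker_isMaximal_of_surjective ψ fun c => ⟨algebraMap F A c, by simp⟩
    have hinj : ∀ ψ ψ' : A →ₐ[F] F, RingHom.ker ψ = RingHom.ker ψ' → ψ = ψ' := by
      intro ψ ψ' h
      ext a
      have h1 : a - algebraMap F A (ψ a) ∈ RingHom.ker ψ := by
        rw [RingHom.mem_ker, map_sub, AlgHom.commutes, Algebra.algebraMap_self_apply, sub_self]
      rw [h, RingHom.mem_ker, map_sub, AlgHom.commutes, Algebra.algebraMap_self_apply, sub_eq_zero] at h1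
      exact h1.symm
    obtain ⟨a, ha, ha'⟩ : ∃ a, χ a = 0 ∧ ∀ ψ ∈ zq F J, ψ a ≠ 0 := by
      by_contra hcon
      push Not at hcon
      have hsub : ((RingHom.ker χ : Ideal A) : Set A) ⊆
          ⋃ i ∈ ((zq F J).toFinset : Set (A →ₐ[F] F)), ((RingHom.ker i : Ideal A) : Set A) := by
        intro a ha
        obtain ⟨ψ, hψ, h0⟩ := hcon a ha
        exact Set.mem_biUnion (Multiset.mem_toFinset.mpr hψ) h0
      rw [Ideal.subset_union_prime χ χ (fun i _ _ _ => (hmax i).isPrime)] at hsub
      obtain ⟨ψ, hψ, hle⟩ := hsub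
      have := hinj _ _ ((hmax χ).eq_of_le (hmax ψ).ne_top hle)
      exact hχ (this ▸ Multiset.mem_toFinset.mp hψ)
    have hdet : LinearMap.det (Algebra.lsmul F F (A ⧸ J) a) ≠ 0 := by
      rw [h2 a]
      refine Multiset.prod_ne_zero fun h0 => ?_
      obtain ⟨ψ, hψ, h1⟩ := Multiset.mem_map.mp h0
      exact ha' ψ hψ h1
    obtain ⟨m, hm⟩ := (LinearMap.equivOfDetNeZero _ hdet).surjective (1 : A ⧸ J)
    obtain ⟨b, rfl⟩ := Ideal.Quotient.mk_surjective m
    have hm' : Ideal.Quotient.mk J (a * b) = Ideal.Quotient.mk J 1 := hm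
    rw [Ideal.Quotient.eq] at hm'
    have h1 := hJ _ hm'
    rw [map_sub, map_mul, ha, zero_mul, map_one, zero_sub] at h1
    exact one_ne_zero (neg_eq_zero.mp h1)

end GB
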